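import Pool.Agent.K9h59.PA.Det
import Pool.Agent.R460.SC.Fa

/-! The Euler product for prime arguments. -/

set_option autoImplicit false

namespace Pool.Agent.K9h59.PA

open Finset Filter Topology
open Pool.Agent.W468.ConjF (SJ PJ PJ_le PJ_tendsto js_abs)
open Pool.Agent.H373R2.T7 (Vz pz Vz_pos nuB mem_pz nuB_le)
open Pool.Agent.R460.SB (QS QS_two QS_per nu_leg fv)
open Pool.Agent.R460.SC (PJ_lim)

lemma SzP_prod (α γ n : ℤ) (z : ℕ) :
    SzP α γ n z = ∏ p ∈ pz z, (1 - (nuS (QS α γ n) p : ℝ) / ((p : ℝ) - 1)) / (1 - 1 / (p : ℝ)) := by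
  unfold SzP Vz
  rw [prod_div_distrib, div_eq_inv_mul]

open Classical in
lemma nuS_eq (α γ n : ℤ) {p : ℕ} (hp : 1 ≤ p) :
    nuS (QS α γ n) p + (if (p : ℤ) ∣ n then 1 else 0) = nuB (QS α γ n) p := by
  have h0 : QS α γ n p 0 ↔ (p : ℤ) ∣ n := by
    unfold QS
    simp
  have h1 := card_filter_add_card_filter_not (s := (range p).filter (fun r => QS α γ n p r)) (fun r => r ≠ 0)
  rw [filter_filter, filter_filter] at h1
  unfold nuS nuB
  have h2 : ((range p).filter (fun r => QS α γ n p r ∧ r ≠ 0)).card =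
      ((range p).filter (fun r => r ≠ 0 ∧ QS α γ n p r)).card := by
    congr 1
    ext r
    simp only [mem_filter]
    tauto
  have h3 : ((range p).filter (fun r => QS α γ n p r ∧ ¬ r ≠ 0)).card = if (p : ℤ) ∣ n then 1 else 0 := by
    split_ifs with h
    · rw [card_eq_one]
      refine ⟨0, ?_⟩
      ext r
      rw [mem_filter, mem_range, mem_singleton]
      constructor
      · rintro ⟨-, -, h4⟩
        push Not at h4
        exact h4
      · rintro rfl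
        exact ⟨by omega, h0.2 h, by simp⟩
    · rw [card_eq_zero, filter_eq_empty_iff]
      rintro r _ ⟨h5, h6⟩
      push Not at h6
      rw [h6] at h5
      exact h (h0.1 h5)
  rw [h2, h3] at h1
  convert h1 using 1

/-- the ratio of the local factors -/
noncomputable def Xi (D c : ℤ) (p : ℕ) : ℝ :=
  if (p : ℤ) ∣ c then (p : ℝ) / ((p : ℝ) - 1) else
    1 - (1 + (jacobiSym D p : ℝ)) / (((p : ℝ) - 1) * ((p : ℝ) - 1 - (jacobiSym D p : ℝ)))

/-- the product of the ratios -/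
noncomputable def XJ (D c : ℤ) (z N : ℕ) : ℝ := ∏ p ∈ (Ioc z N).filter Nat.Prime, Xi D c p

lemma fac_ratio (α γ n : ℤ) {p : ℕ} (hp : p.Prime) (h2 : p ≠ 2) (hpa : ¬ (p : ℤ) ∣ α) :
    (1 - (nuS (QS α γ n) p : ℝ) / ((p : ℝ) - 1)) / (1 - 1 / (p : ℝ)) =
      (1 - (jacobiSym (4 * α * n + γ ^ 2) p : ℝ) / ((p : ℝ) - 1)) * Xi (4 * α * n + γ ^ 2) n p := by
  classical
  have h3 : 3 ≤ p := by
    have := hp.two_le
    omega
  have hp3 : (3 : ℝ) ≤ p := by exact_mod_cast h3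
  obtain ⟨j, hj⟩ : ∃ j : ℝ, j = (jacobiSym (4 * α * n + γ ^ 2) p : ℝ) := ⟨_, rfl⟩
  have hj1 : |j| ≤ 1 := by rw [hj]; exact js_abs _ _
  have hj2 := abs_le.1 hj1
  have e1 := nu_leg α γ n hp h2 hpa
  have e2 : (nuB (QS α γ n) p : ℝ) = 1 + j := by
    rw [hj]
    exact_mod_cast e1
  have e3 : (nuS (QS α γ n) p : ℝ) + (if (p : ℤ) ∣ n then 1 else 0) = nuB (QS α γ n) p := by
    have := nuS_eq α γ n (p := p) (by omega)
    split_ifs at this ⊢ <;> exact_mod_cast this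
  have q1 : (p : ℝ) - 1 ≠ 0 := by
    have : (0 : ℝ) < p - 1 := by linarith
    exact this.ne'
  have q2 : (p : ℝ) ≠ 0 := by linarith
  have q3 : (p : ℝ) - 1 - j ≠ 0 := by
    have : (0 : ℝ) < p - 1 - j := by linarith
    exact this.ne'
  unfold Xi
  rw [← hj]
  by_cases hd : (p : ℤ) ∣ n
  · rw [if_pos hd] at e3 ⊢
    have e4 : (nuS (QS α γ n) p : ℝ) = j := by linarith
    rw [e4]
    field_simp
  · rw [if_neg hd] at e3 ⊢
    have e4 : (nuS (QS α γ n) p : ℝ) = 1 + j := by linarith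
    rw [e4]
    field_simp
    ring

/-- the Euler product beyond `z` -/
lemma SzP_split {a b c : ℤ} (ha : 0 < a) {z N : ℕ} (hz : 2 ≤ z) (haz : a ≤ z) (hN : z ≤ N) :
    SzP (-a) (-b) c N = SzP (-a) (-b) c z * (PJ (b ^ 2 - 4 * a * c) z N * XJ (b ^ 2 - 4 * a * c) c z N) := by
  rw [SzP_prod, SzP_prod]
  have e1 : pz N = pz z ∪ (Ioc z N).filter Nat.Prime := by
    ext p
    rw [mem_union, mem_pz, mem_pz, mem_filter, mem_Ioc]
    constructor
    · rintro ⟨h1, h2⟩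
      by_cases h3 : p ≤ z
      · exact Or.inl ⟨h3, h2⟩
      · exact Or.inr ⟨⟨by omega, h1⟩, h2⟩
    · rintro (⟨h1, h2⟩ | ⟨⟨h1, h2⟩, h3⟩)
      · exact ⟨by omega, h2⟩
      · exact ⟨h2, h3⟩
  have hdis : Disjoint (pz z) ((Ioc z N).filter Nat.Prime) := by
    rw [disjoint_left]
    intro p hp hp'
    rw [mem_pz] at hp
    rw [mem_filter, mem_Ioc] at hp'
    omega
  rw [e1, prod_union hdis]
  congr 1
  unfold PJ XJ
  rw [← prod_mul_distrib]
  apply prod_congr rfl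
  intro p hp
  rw [mem_filter, mem_Ioc] at hp
  have hpa : ¬ (p : ℤ) ∣ -a := by
    intro h
    rw [dvd_neg] at h
    have := Int.le_of_dvd ha h
    omega
  have h1 := fac_ratio (-a) (-b) c hp.2 (by omega) hpa
  have h2 : 4 * (-a) * c + (-b) ^ 2 = b ^ 2 - 4 * a * c := by ring
  rw [h2] at h1
  exact h1

lemma Xi_sub (D c : ℤ) {p : ℕ} (hp : 4 ≤ p) :
    |Xi D c p - 1| ≤ (if (p : ℤ) ∣ c then 1 / ((p : ℝ) - 1) else 0) + 2 / (((p : ℝ) - 1) * ((p : ℝ) - 2)) := by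
  have hp4 : (4 : ℝ) ≤ p := by exact_mod_cast hp
  have q1 : (0 : ℝ) < (p : ℝ) - 1 := by linarith
  have q2 : (0 : ℝ) < (p : ℝ) - 2 := by linarith
  have h0 : 0 ≤ 2 / (((p : ℝ) - 1) * ((p : ℝ) - 2)) := by positivity
  unfold Xi
  by_cases hd : (p : ℤ) ∣ c
  · rw [if_pos hd, if_pos hd]
    have e1 : (p : ℝ) / ((p : ℝ) - 1) - 1 = 1 / ((p : ℝ) - 1) := by
      field_simp
      ring
    rw [e1, abs_of_pos (by positivity)]
    linarith
  · rw [if_neg hd, if_neg hd, zero_add]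
    obtain ⟨j, hj⟩ : ∃ j : ℝ, j = (jacobiSym D p : ℝ) := ⟨_, rfl⟩
    have hj1 : |j| ≤ 1 := by rw [hj]; exact js_abs _ _
    have hj2 := abs_le.1 hj1
    rw [← hj]
    have q3 : (0 : ℝ) < (p : ℝ) - 1 - j := by linarith
    have e1 : 1 - (1 + j) / (((p : ℝ) - 1) * ((p : ℝ) - 1 - j)) - 1 = -((1 + j) / (((p : ℝ) - 1) * ((p : ℝ) - 1 - j))) := by
      ring
    rw [e1, abs_neg, abs_of_nonneg (div_nonneg (by linarith) (by positivity))]
    apply div_le_div₀ (by norm_num) (by linarith) (by positivity)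
    apply mul_le_mul_of_nonneg_left _ q1.le
    linarith

lemma sum_two (z N : ℕ) (hz : 2 ≤ z) (h : z ≤ N) :
    ∑ n ∈ Ioc z N, 2 / (((n : ℝ) - 1) * ((n : ℝ) - 2)) ≤ 2 / ((z : ℝ) - 1) - 2 / ((N : ℝ) - 1) := by
  induction N, h using Nat.le_induction with
  | base => simp
  | succ Z hZ ih =>
    rw [← Finset.insert_Ioc_right_eq_Ioc_add_one hZ, Finset.sum_insert (by simp)]
    have hZ0 : (2 : ℝ) ≤ Z := by exact_mod_cast (by omega : 2 ≤ Z)
    have h1 : 2 / ((((Z + 1 : ℕ) : ℝ) - 1) * (((Z + 1 : ℕ) : ℝ) - 2)) =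
        2 / ((Z : ℝ) - 1) - 2 / (((Z + 1 : ℕ) : ℝ) - 1) := by
      push_cast
      have q1 : (Z : ℝ) - 1 ≠ 0 := by
        have : (0 : ℝ) < Z - 1 := by linarith
        exact this.ne'
      have q2 : (Z : ℝ) ≠ 0 := by linarith
      have e1 : (Z : ℝ) + 1 - 1 = Z := by ring
      have e2 : (Z : ℝ) + 1 - 2 = Z - 1 := by ring
      rw [e1, e2]
      field_simp
      ring
    linarith

/-- the number of the prime factors -/
lemma card_pf {c : ℤ} (hc : c ≠ 0) : (c.natAbs.primeFactors.card : ℝ) ≤ 2 * Real.log (c.natAbs : ℝ) := by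
  have h0 : 0 < c.natAbs := Int.natAbs_pos.2 hc
  have h1 : 2 ^ c.natAbs.primeFactors.card ≤ c.natAbs := by
    calc 2 ^ c.natAbs.primeFactors.card = ∏ _p ∈ c.natAbs.primeFactors, 2 := by rw [prod_const]
      _ ≤ ∏ p ∈ c.natAbs.primeFactors, p := prod_le_prod' fun p hp => (Nat.prime_of_mem_primeFactors hp).two_le
      _ ≤ c.natAbs := Nat.le_of_dvd h0 (Nat.prod_primeFactors_dvd _)
  have h2 : ((2 : ℝ)) ^ c.natAbs.primeFactors.card ≤ (c.natAbs : ℝ) := by exact_mod_cast h1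
  have h3 := Real.log_le_log (by positivity) h2
  rw [Real.log_pow] at h3
  have h4 := Real.log_two_gt_d9
  have h5 : (0 : ℝ) ≤ (c.natAbs.primeFactors.card : ℝ) := Nat.cast_nonneg _
  nlinarith

/-- the sum of the deviations -/
lemma sum_Xi {D c : ℤ} (hc : c ≠ 0) {z N : ℕ} (hz : 3 ≤ z) (hN : z ≤ N) :
    ∑ p ∈ (Ioc z N).filter Nat.Prime, |Xi D c p - 1| ≤ (2 * Real.log (c.natAbs : ℝ) + 4) / z := by
  have hz0 : (3 : ℝ) ≤ z := by exact_mod_cast hz
  have h1 : ∑ p ∈ (Ioc z N).filter Nat.Prime, |Xi D c p - 1| ≤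
      ∑ p ∈ (Ioc z N).filter Nat.Prime, (if (p : ℤ) ∣ c then 1 / ((p : ℝ) - 1) else 0) +
        ∑ p ∈ (Ioc z N).filter Nat.Prime, 2 / (((p : ℝ) - 1) * ((p : ℝ) - 2)) := by
    rw [← sum_add_distrib]
    refine sum_le_sum fun p hp => ?_
    rw [mem_filter, mem_Ioc] at hp
    exact Xi_sub D c (by omega)
  have h2 : ∑ p ∈ (Ioc z N).filter Nat.Prime, (if (p : ℤ) ∣ c then 1 / ((p : ℝ) - 1) else 0) ≤
      2 * Real.log (c.natAbs : ℝ) / z := by
    rw [← sum_filter]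
    calc ∑ p ∈ ((Ioc z N).filter Nat.Prime).filter (fun p : ℕ => (p : ℤ) ∣ c), 1 / ((p : ℝ) - 1)
        ≤ ∑ _p ∈ ((Ioc z N).filter Nat.Prime).filter (fun p : ℕ => (p : ℤ) ∣ c), 1 / (z : ℝ) := by
          refine sum_le_sum fun p hp => ?_
          rw [mem_filter, mem_filter, mem_Ioc] at hp
          have h3 : (z : ℝ) + 1 ≤ p := by exact_mod_cast hp.1.1.1
          apply one_div_le_one_div_of_le (by linarith)
          linarith
      _ = ((((Ioc z N).filter Nat.Prime).filter (fun p : ℕ => (p : ℤ) ∣ c)).card : ℝ) * (1 / z) := by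
          rw [sum_const, nsmul_eq_mul]
      _ ≤ (2 * Real.log (c.natAbs : ℝ)) * (1 / z) := by
          apply mul_le_mul_of_nonneg_right _ (by positivity)
          refine le_trans ?_ (card_pf hc)
          rw [Nat.cast_le]
          apply card_le_card
          intro p hp
          rw [mem_filter, mem_filter] at hp
          rw [Nat.mem_primeFactors]
          refine ⟨hp.1.2, ?_, by omega⟩
          have := Int.natAbs_dvd_natAbs.2 hp.2
          rwa [Int.natAbs_natCast] at this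
      _ = _ := by ring
  have h3 : ∑ p ∈ (Ioc z N).filter Nat.Prime, 2 / (((p : ℝ) - 1) * ((p : ℝ) - 2)) ≤ 4 / z := by
    calc ∑ p ∈ (Ioc z N).filter Nat.Prime, 2 / (((p : ℝ) - 1) * ((p : ℝ) - 2))
        ≤ ∑ p ∈ Ioc z N, 2 / (((p : ℝ) - 1) * ((p : ℝ) - 2)) := by
          apply sum_le_sum_of_subset_of_nonneg (filter_subset _ _)
          intro p hp _
          rw [mem_Ioc] at hp
          have hp3 : (4 : ℝ) ≤ p := by exact_mod_cast (by omega : 4 ≤ p)
          apply div_nonneg (by norm_num)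
          apply mul_nonneg <;> linarith
      _ ≤ 2 / ((z : ℝ) - 1) - 2 / ((N : ℝ) - 1) := sum_two z N (by omega) hN
      _ ≤ 2 / ((z : ℝ) - 1) := by
          have hN3 : (3 : ℝ) ≤ N := by exact_mod_cast hz.trans hN
          have : 0 ≤ 2 / ((N : ℝ) - 1) := div_nonneg (by norm_num) (by linarith)
          linarith
      _ ≤ 4 / z := by
          rw [div_le_div_iff₀ (by linarith) (by linarith)]
          linarith
  have e : (2 * Real.log (c.natAbs : ℝ) + 4) / z = 2 * Real.log (c.natAbs : ℝ) / z + 4 / z := by ring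
  rw [e]
  linarith

/-- the product of the ratios converges -/
lemma XJ_conv {D c : ℤ} (hc : c ≠ 0) {z : ℕ} (hz : 3 ≤ z) : ∃ ξ : ℝ, Tendsto (fun N => XJ D c z N) atTop (𝓝 ξ) := by
  obtain ⟨x, hx⟩ : ∃ x : ℕ → ℝ, x = fun n => if n.Prime ∧ z < n then Xi D c n - 1 else 0 := ⟨_, rfl⟩
  have hs : Summable x := by
    have hg : Summable (fun n : ℕ => 8 * (1 / (n : ℝ) ^ 2)) :=
      ((Real.summable_one_div_nat_pow (p := 2)).2 (by norm_num)).mul_left 8
    refine Summable.of_norm_bounded_eventually_nat hg ?_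
    filter_upwards [eventually_ge_atTop (c.natAbs + 4)] with n hn
    have hn4 : (4 : ℝ) ≤ n := by exact_mod_cast (by omega : 4 ≤ n)
    rw [hx]
    simp only
    split_ifs with h
    · have h1 := Xi_sub D c (p := n) (by omega)
      have h2 : ¬ (n : ℤ) ∣ c := by
        intro h3
        have h4 := Int.natAbs_dvd_natAbs.2 h3
        rw [Int.natAbs_natCast] at h4
        have := Nat.le_of_dvd (Int.natAbs_pos.2 hc) h4
        omega
      rw [if_neg h2, zero_add] at h1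
      rw [Real.norm_eq_abs]
      refine h1.trans ?_
      rw [mul_one_div, div_le_div_iff₀ (by apply mul_pos <;> linarith) (by positivity)]
      nlinarith
    · rw [norm_zero]
      positivity
  have hm := Real.multipliable_one_add_of_summable hs
  refine ⟨_, (hm.hasProd.tendsto_prod_nat.comp (tendsto_add_atTop_nat 1)).congr fun N => ?_⟩
  simp only [Function.comp]
  unfold XJ
  rw [hx]
  have e : ∀ n : ℕ, (1 + (if n.Prime ∧ z < n then Xi D c n - 1 else 0)) = if n.Prime ∧ z < n then Xi D c n else 1 := by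
    intro n
    split_ifs <;> ring
  simp only [e]
  rw [← prod_filter]
  apply prod_congr _ (fun _ _ => rfl)
  ext p
  simp only [mem_filter, mem_Ioc, mem_range]
  constructor
  · rintro ⟨h1, h2, h3⟩
    exact ⟨⟨h3, by omega⟩, h2⟩
  · rintro ⟨⟨h1, h2⟩, h3⟩
    exact ⟨by omega, h3, h1⟩

lemma XJ_near {D c : ℤ} (hc : c ≠ 0) {z N : ℕ} (hz : 3 ≤ z) (hN : z ≤ N)
    (hS : (2 * Real.log (c.natAbs : ℝ) + 4) / z ≤ 1 / 2) :
    |XJ D c z N - 1| ≤ 2 * ((2 * Real.log (c.natAbs : ℝ) + 4) / z) := by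
  obtain ⟨S, hSd⟩ : ∃ S : ℝ, S = (2 * Real.log (c.natAbs : ℝ) + 4) / z := ⟨_, rfl⟩
  rw [← hSd] at hS ⊢
  have h1 := sum_Xi (D := D) hc hz hN
  rw [← hSd] at h1
  have h2 := Finset.norm_prod_one_add_sub_one_le ((Ioc z N).filter Nat.Prime) (fun p => Xi D c p - 1)
  have e : ∏ p ∈ (Ioc z N).filter Nat.Prime, (1 + (Xi D c p - 1)) = XJ D c z N := by
    unfold XJ
    exact prod_congr rfl fun p _ => by ring
  rw [e, Real.norm_eq_abs] at h2
  simp only [Real.norm_eq_abs] at h2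
  have h0 : 0 ≤ ∑ p ∈ (Ioc z N).filter Nat.Prime, |Xi D c p - 1| := sum_nonneg fun _ _ => abs_nonneg _
  have hS0 : 0 ≤ S := h0.trans h1
  have h3 := Real.exp_le_exp.2 h1
  have h4 := Real.exp_bound_div_one_sub_of_interval hS0 (by linarith)
  have h5 : 1 / (1 - S) ≤ 1 + 2 * S := by
    rw [div_le_iff₀ (by linarith)]
    nlinarith
  linarith

/-- the full Euler product -/
lemma SzP_lim {a b c : ℤ} (ha : 0 < a) (hc : c ≠ 0) {z : ℕ} (hz : 3 ≤ z) (haz : a ≤ z)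
    (hsq : ¬ IsSquare (b ^ 2 - 4 * a * c)) {ε : ℝ} (hε0 : 0 ≤ ε)
    (htail : ∀ᶠ M in atTop, |SJ (b ^ 2 - 4 * a * c) z M| ≤ ε) (h1 : ε + 5 / z ≤ 1 / 8)
    (h2 : (2 * Real.log (c.natAbs : ℝ) + 4) / z ≤ 1 / 8) :
    ∃ ℓ : ℝ, 0 < ℓ ∧ Tendsto (fun N => SzP (-a) (-b) c N) atTop (𝓝 (SzP (-a) (-b) c z * ℓ)) ∧
      |ℓ - 1| ≤ 4 * (ε + 5 / z + (2 * Real.log (c.natAbs : ℝ) + 4) / z) := by
  obtain ⟨ℓ, hℓ0, hℓ, hℓ1⟩ := PJ_lim hsq (by omega : 2 ≤ z) hε0 (by linarith) htail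
  obtain ⟨ξ, hξ⟩ := XJ_conv (D := b ^ 2 - 4 * a * c) hc hz
  obtain ⟨T, hT⟩ : ∃ T : ℝ, T = (2 * Real.log (c.natAbs : ℝ) + 4) / z := ⟨_, rfl⟩
  have hξ1 : |ξ - 1| ≤ 2 * T := by
    have h3 : Tendsto (fun N => |XJ (b ^ 2 - 4 * a * c) c z N - 1|) atTop (𝓝 |ξ - 1|) := (hξ.sub_const 1).abs
    apply le_of_tendsto h3
    filter_upwards [eventually_ge_atTop z] with N hN
    rw [hT]
    exact XJ_near hc hz hN (by linarith)
  rw [← hT] at h2 ⊢
  obtain ⟨R, hR⟩ : ∃ R : ℝ, R = ε + 5 / z := ⟨_, rfl⟩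
  rw [← hR] at h1 hℓ1 ⊢
  have a1 := abs_le.1 hξ1
  have a2 := abs_le.1 hℓ1
  have hT0 : 0 ≤ T := by
    have := (abs_nonneg _).trans hξ1
    linarith
  have hR0 : 0 ≤ R := by
    have := (abs_nonneg _).trans hℓ1
    linarith
  have hξ0 : 0 < ξ := by linarith
  refine ⟨ℓ * ξ, by positivity, ?_, ?_⟩
  · refine ((hℓ.mul hξ).const_mul (SzP (-a) (-b) c z)).congr' ?_
    filter_upwards [eventually_ge_atTop z] with M hM
    rw [SzP_split ha (by omega) haz hM]
  · have e : ℓ * ξ - 1 = (ℓ - 1) * ξ + (ξ - 1) := by ring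
    rw [e]
    refine (abs_add_le _ _).trans ?_
    rw [abs_mul, abs_of_pos hξ0]
    have h4 : |ℓ - 1| * ξ ≤ (2 * R) * 2 := by
      apply mul_le_mul hℓ1 (by linarith) hξ0.le (by linarith)
    linarith

/-! ### the lower bound -/

lemma facP_low {α γ : ℤ} (hα : α ≠ 0) (n : ℤ) {p : ℕ} (hp : p.Prime) (hloc : nuS (QS α γ n) p < p - 1) :
    (if (p : ℤ) ∣ 6 * α then 1 / ((6 * α).natAbs : ℝ) else 1) * (1 - 1 / (p : ℝ)) ^ 5 ≤
      1 - (nuS (QS α γ n) p : ℝ) / ((p : ℝ) - 1) := by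
  have hp2 : (2 : ℝ) ≤ p := by exact_mod_cast hp.two_le
  have hp0 : (0 : ℝ) < p := by linarith
  have hp1 : (0 : ℝ) < (p : ℝ) - 1 := by linarith
  have h1 : 1 / (p : ℝ) ≤ 1 / 2 := one_div_le_one_div_of_le two_pos hp2
  have h1' : 0 < 1 / (p : ℝ) := by positivity
  have h2 : (nuS (QS α γ n) p : ℝ) + 2 ≤ p := by
    have : nuS (QS α γ n) p + 2 ≤ p := by omega
    exact_mod_cast this
  have h3 : 1 / (p : ℝ) ≤ 1 - (nuS (QS α γ n) p : ℝ) / ((p : ℝ) - 1) := by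
    have a1 : 1 / (p : ℝ) ≤ 1 / ((p : ℝ) - 1) := one_div_le_one_div_of_le hp1 (by linarith)
    have a2 : 1 / ((p : ℝ) - 1) ≤ 1 - (nuS (QS α γ n) p : ℝ) / ((p : ℝ) - 1) := by
      rw [le_sub_iff_add_le, ← add_div, div_le_one hp1]
      linarith
    linarith
  have h4 : (1 - 1 / (p : ℝ)) ^ 5 ≤ 1 := pow_le_one₀ (by linarith) (by linarith)
  have h4' : 0 ≤ (1 - 1 / (p : ℝ)) ^ 5 := pow_nonneg (by linarith) 5
  split_ifs with hpa
  · have h5 : p ≤ (6 * α).natAbs := by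
      apply Nat.le_of_dvd (Int.natAbs_pos.2 (by omega))
      have := Int.natAbs_dvd_natAbs.2 hpa
      rwa [Int.natAbs_natCast] at this
    have h6 : (p : ℝ) ≤ (6 * α).natAbs := by exact_mod_cast h5
    have h7 : 1 / ((6 * α).natAbs : ℝ) ≤ 1 / p := one_div_le_one_div_of_le hp0 h6
    have h8 : 0 < 1 / ((6 * α).natAbs : ℝ) := by
      have : (0 : ℝ) < (6 * α).natAbs := by linarith
      positivity
    nlinarith
  · rw [one_mul]
    have h5 : 5 ≤ p := by
      by_contra h6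
      have h7 := hp.two_le
      have h8 : p = 2 ∨ p = 3 ∨ p = 4 := by omega
      rcases h8 with rfl | rfl | rfl
      · exact hpa ⟨3 * α, by push_cast; ring⟩
      · exact hpa ⟨2 * α, by push_cast; ring⟩
      · exact absurd hp (by norm_num)
    have hpα : ¬ (p : ℤ) ∣ α := fun h => hpa (h.mul_left 6)
    have h7 : (nuS (QS α γ n) p : ℝ) ≤ 2 := by
      exact_mod_cast (nuS_le_nuB _ _).trans (QS_two n p hp hpα)
    have h5r : (5 : ℝ) ≤ p := by exact_mod_cast h5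
    have h8 : (nuS (QS α γ n) p : ℝ) / ((p : ℝ) - 1) ≤ 2 / ((p : ℝ) - 1) := by gcongr
    have h9 : (1 - 1 / (p : ℝ)) ^ 5 ≤ 1 - 2 / ((p : ℝ) - 1) := by
      obtain ⟨x, hx⟩ : ∃ x : ℝ, x = 1 / (p : ℝ) := ⟨_, rfl⟩
      have hx0 : 0 < x := by rw [hx]; positivity
      have hx5 : x ≤ 1 / 5 := by
        rw [hx]
        exact one_div_le_one_div_of_le (by norm_num) h5r
      have e1 : 1 - 2 / ((p : ℝ) - 1) = (1 - 3 * x) / (1 - x) := by
        rw [hx]
        have : (p : ℝ) - 1 ≠ 0 := hp1.ne'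
        have q : 1 - 1 / (p : ℝ) ≠ 0 := by
          have : 0 < 1 - 1 / (p : ℝ) := by linarith
          exact this.ne'
        field_simp
        ring
      rw [← hx, e1, le_div_iff₀ (by linarith)]
      have e2 : (1 - x) ^ 5 * (1 - x) = (1 - x) ^ 6 := by ring
      rw [e2]
      have e3 : (1 - x) ^ 2 ≤ 1 - 9 / 5 * x := by nlinarith
      have e4 : (1 - x) ^ 6 ≤ (1 - 9 / 5 * x) ^ 3 := by
        calc (1 - x) ^ 6 = ((1 - x) ^ 2) ^ 3 := by ring
          _ ≤ (1 - 9 / 5 * x) ^ 3 := pow_le_pow_left₀ (sq_nonneg _) e3 3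
      refine e4.trans ?_
      have e5 : (1 - 3 * x) - (1 - 9 / 5 * x) ^ 3 = x * (12 / 5 - 243 / 25 * x + 729 / 125 * x ^ 2) := by ring
      have e6 : 0 ≤ x * (12 / 5 - 243 / 25 * x + 729 / 125 * x ^ 2) := by
        apply mul_nonneg hx0.le
        nlinarith [sq_nonneg x]
      linarith
    linarith

/-- the lower bound for the singular series -/
lemma SzP_low {α γ : ℤ} (hα : α ≠ 0) (n : ℤ) (z : ℕ) (hloc : ∀ p ∈ pz z, nuS (QS α γ n) p < p - 1) :
    (1 / ((6 * α).natAbs : ℝ)) ^ (6 * α).natAbs * Vz z ^ 4 ≤ SzP α γ n z := by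
  have hV := Vz_pos z
  have hα6 : 6 * α ≠ 0 := by omega
  have ha1 : (1 : ℝ) ≤ (6 * α).natAbs := by exact_mod_cast Int.natAbs_pos.2 hα6
  have ha0 : 0 < 1 / ((6 * α).natAbs : ℝ) := by positivity
  have ha2 : 1 / ((6 * α).natAbs : ℝ) ≤ 1 := by rw [div_le_one (by linarith)]; exact ha1
  have h1 : (1 / ((6 * α).natAbs : ℝ)) ^ (6 * α).natAbs * Vz z ^ 5 ≤
      ∏ p ∈ pz z, (1 - (nuS (QS α γ n) p : ℝ) / ((p : ℝ) - 1)) := by
    calc (1 / ((6 * α).natAbs : ℝ)) ^ (6 * α).natAbs * Vz z ^ 5 ≤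
          (∏ p ∈ pz z, (if (p : ℤ) ∣ 6 * α then 1 / ((6 * α).natAbs : ℝ) else 1)) * Vz z ^ 5 := by
          apply mul_le_mul_of_nonneg_right _ (by positivity)
          rw [← prod_filter, prod_const]
          apply pow_le_pow_of_le_one ha0.le ha2
          have hsub : (pz z).filter (fun p : ℕ => (p : ℤ) ∣ 6 * α) ⊆ Icc 1 (6 * α).natAbs := by
            intro p hp
            rw [mem_filter, mem_pz] at hp
            rw [mem_Icc]
            refine ⟨hp.1.2.one_le, ?_⟩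
            apply Nat.le_of_dvd (Int.natAbs_pos.2 hα6)
            have := Int.natAbs_dvd_natAbs.2 hp.2
            rwa [Int.natAbs_natCast] at this
          have := card_le_card hsub
          rwa [Nat.card_Icc, Nat.add_sub_cancel] at this
      _ = ∏ p ∈ pz z, ((if (p : ℤ) ∣ 6 * α then 1 / ((6 * α).natAbs : ℝ) else 1) * (1 - 1 / (p : ℝ)) ^ 5) := by
          unfold Vz
          rw [prod_mul_distrib, prod_pow]
      _ ≤ _ := by
          apply Finset.prod_le_prod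
          · intro p hp
            have hp2 : (2 : ℝ) ≤ p := by exact_mod_cast (mem_pz.1 hp).2.two_le
            have h3 : 1 / (p : ℝ) ≤ 1 := by
              rw [div_le_one (by linarith)]
              linarith
            have h4 : 0 ≤ (1 - 1 / (p : ℝ)) ^ 5 := pow_nonneg (by linarith) 5
            split_ifs
            · positivity
            · rw [one_mul]
              exact h4
          · intro p hp
            exact facP_low hα n (mem_pz.1 hp).2 (hloc p hp)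
  unfold SzP
  calc (1 / ((6 * α).natAbs : ℝ)) ^ (6 * α).natAbs * Vz z ^ 4 =
        (Vz z)⁻¹ * ((1 / ((6 * α).natAbs : ℝ)) ^ (6 * α).natAbs * Vz z ^ 5) := by field_simp
    _ ≤ _ := by gcongr

lemma loc_ltS {α γ n : ℤ} {p : ℕ} (hp : p.Prime) (h : ∃ m : ℕ, ¬ p ∣ m ∧ ¬ (p : ℤ) ∣ fv α γ n m) :
    nuS (QS α γ n) p < p - 1 := by
  classical
  obtain ⟨m, hm0, hm⟩ := h
  have h1 : ¬ QS α γ n p (m % p) := by
    rw [← QS_per]
    exact hm
  have hm1 : m % p ≠ 0 := fun h => hm0 (Nat.dvd_of_mod_eq_zero h)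
  unfold nuS
  have h2 : (range p).filter (fun r => r ≠ 0 ∧ QS α γ n p r) ⊆ ((range p).erase 0).erase (m % p) := by
    intro r hr
    rw [mem_filter] at hr
    rw [mem_erase, mem_erase]
    refine ⟨fun h => h1 ?_, hr.2.1, hr.1⟩
    rw [← h]
    exact hr.2.2
  have h3 := card_le_card h2
  rw [card_erase_of_mem (mem_erase.2 ⟨hm1, mem_range.2 (Nat.mod_lt m hp.pos)⟩),
    card_erase_of_mem (mem_range.2 hp.pos), card_range] at h3
  have h4 := hp.two_le
  have h5 : ((range p).filter (fun r => r ≠ 0 ∧ QS α γ n p r)).card < p - 1 := by omega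
  convert h5 using 1

end Pool.Agent.K9h59.PA
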