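import Pool.Agent.K9h59.PA.Cnt
import Pool.Agent.K9h59.PA.Eul
import Pool.Agent.K9h59.CF.Fam

/-! The formula with the full Euler product for almost all constant terms in a set with a small kernel. -/

set_option autoImplicit false

namespace Pool.Agent.K9h59.PA

open Finset Filter Topology
open Pool.Agent.W468.ConjF (SJ PJ)
open Pool.Agent.H373R2.T7 (Vz pz Vz_pos Vz_inv_small nuB mem_pz)
open Pool.Agent.R460.SB (fv QS)
open Pool.Agent.R460.SC (sol_lin)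
open Pool.Agent.R460.SQ (thp)
open Pool.Agent.Y614.GJ.Core (ev_log)
open Pool.Agent.Y868.TB (Sol)
open Pool.Agent.K9h59.CF (Kern Dg S Sh card_Sh card_S_ge kern_dig tail_fam)

lemma ay1 {k L : ℝ} (h : 2 ≤ k * L) (hL : 100 ≤ L) : 2 < k * L ^ 2 := by nlinarith

lemma ay2 {x y : ℝ} (hx : 0 < x) (hy : y < 1) (h : x ≤ x * y) : False := by nlinarith

lemma ay3 {p L c P : ℝ} (h1 : p ≤ c) (h2 : c < P + 1) (h3 : 1 ≤ P) (hL : 100 ≤ L) : p * 2 ≤ P * L := by nlinarith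

lemma ay4 {u v X : ℝ} (hu : 0 ≤ u) (hX : 1 ≤ X) (_ : 0 ≤ v) : u + 4 * v * X ≤ (u + 4 * v) * X := by nlinarith

lemma ay5 {w : ℝ} (hw : 0 ≤ w) (M : ℝ) : w * (M * M) ≤ (w * M + M) ^ 2 := by
  have h1 := mul_self_nonneg M
  have h2 := mul_nonneg hw h1
  have h3 := mul_nonneg hw h2
  nlinarith

lemma ay6 {w M L : ℝ} (hM : 1 ≤ M) (h : w + 2 ≤ L) : w * M + M + 1 ≤ L * M := by nlinarith

lemma ay7 {h M : ℝ} (hh : 1 ≤ h) (hM : 1 ≤ M) : 1 ≤ h * h * h * M := by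
  have h1 : 1 ≤ h * h := by nlinarith
  have h2 : 1 ≤ h * h * h := by nlinarith
  nlinarith

/-- no prime divides all the values of `t f(t)` -/
def Adm (a b c : ℤ) : Prop := ∀ p : ℕ, p.Prime → ∃ m : ℕ, ¬ p ∣ m ∧ ¬ (p : ℤ) ∣ fv (-a) (-b) c m

/-- the conclusion for one polynomial -/
def GoodA (a b : ℤ) (C X : ℕ) (c : ℤ) : Prop :=
  ∃ S : ℝ, Tendsto (fun N : ℕ => SzP (-a) (-b) c N) atTop (𝓝 S) ∧
    (∀ y : ℕ, y ^ 2 ≤ X → |∑ m ∈ Icc 1 y, thp m * thp (fv (-a) (-b) c m).natAbs - S * y| ≤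
      Real.sqrt X / Real.log X ^ C) ∧
    (Adm a b c → 0 < S ∧ ∃ m : ℕ, m.Prime ∧ m ^ 2 ≤ X ∧ (fv (-a) (-b) c m).natAbs.Prime)

theorem goodA_of {a b c : ℤ} (ha : 0 < a) (hc : c ≠ 0) {C X z : ℕ} (hz : 3 ≤ z) (haz : a ≤ z) (hX1 : 1 ≤ X)
    (hcX : |c| ≤ X) {κ : ℝ} (hκ : κ = (1 / ((6 * -a).natAbs : ℝ)) ^ (6 * -a).natAbs)
    (hL : 100 + 2 / κ ≤ Real.log X) (hLX : Real.log X ^ 2 ≤ X) (hV : (Vz z)⁻¹ ≤ Real.log X)
    (hzL : Real.log X ^ (C + 6) ≤ z) (hsq : ¬ IsSquare (b ^ 2 - 4 * a * c))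
    (htail : ∀ᶠ M in atTop, |SJ (b ^ 2 - 4 * a * c) z M| ≤ 1 / Real.log X ^ (C + 6))
    (h : GoodL (-a) (-b) (C + 6) X z c) : GoodA a b C X c := by
  obtain ⟨L, hLd⟩ : ∃ L, L = Real.log (X : ℝ) := ⟨_, rfl⟩
  have hX0 : (0 : ℝ) < X := by exact_mod_cast hX1
  have ha1 : (1 : ℝ) ≤ (6 * -a).natAbs := by exact_mod_cast Int.natAbs_pos.2 (by omega : 6 * -a ≠ 0)
  have hκ0 : 0 < κ := by rw [hκ]; positivity
  have hcL : Real.log (c.natAbs : ℝ) ≤ L := by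
    rw [hLd]
    apply Real.log_le_log
    · exact_mod_cast Int.natAbs_pos.2 hc
    · have : (c.natAbs : ℤ) ≤ X := by rw [Int.natCast_natAbs]; exact hcX
      exact_mod_cast this
  have hcL0 : 0 ≤ Real.log (c.natAbs : ℝ) := Real.log_natCast_nonneg _
  rw [← hLd] at hL hLX hV hzL htail
  have h2κ : 0 < 2 / κ := by positivity
  have hL100 : 100 ≤ L := by linarith
  have hL0 : 0 < L := by linarith
  have hL1 : 1 ≤ L := by linarith
  have hκL : 2 ≤ κ * L := by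
    have : 2 / κ ≤ L := by linarith
    rw [div_le_iff₀ hκ0] at this
    linarith
  have hz0 : (0 : ℝ) < z := by exact_mod_cast (by omega : 0 < z)
  have hP0 : 0 < L ^ (C + 6) := by positivity
  have hP5 : 0 < L ^ (C + 5) := by positivity
  have hP65 : L ^ (C + 6) = L * L ^ (C + 5) := by ring
  have hLP5 : L ≤ L ^ (C + 5) := le_self_pow₀ hL1 (by omega)
  have h5z : 5 / (z : ℝ) ≤ 5 / L ^ (C + 6) := div_le_div_of_nonneg_left (by norm_num) hP0 hzL
  have h6 : 1 / L ^ (C + 6) + 5 / z ≤ 6 / L ^ (C + 6) := by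
    have : 6 / L ^ (C + 6) = 1 / L ^ (C + 6) + 5 / L ^ (C + 6) := by ring
    linarith
  have h65 : 6 / L ^ (C + 6) ≤ 1 / L ^ (C + 5) := by
    rw [hP65, div_le_div_iff₀ (by positivity) hP5, one_mul]
    exact mul_le_mul_of_nonneg_right (by linarith) hP5.le
  have h15 : 1 / L ^ (C + 5) ≤ 1 / 100 := one_div_le_one_div_of_le (by norm_num) (hL100.trans hLP5)
  have hcz : (2 * Real.log (c.natAbs : ℝ) + 4) / z ≤ 3 * (1 / L ^ (C + 5)) := by
    calc (2 * Real.log (c.natAbs : ℝ) + 4) / z ≤ (3 * L) / L ^ (C + 6) := by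
          apply div_le_div₀ (by linarith) (by linarith) hP0 hzL
      _ = 3 * (1 / L ^ (C + 5)) := by
          rw [hP65]
          field_simp
  obtain ⟨ℓ, hℓ0, hℓ, hℓ1⟩ := SzP_lim ha hc hz haz hsq (by positivity) htail (by linarith) (by linarith)
  have hℓ2 : |ℓ - 1| ≤ 16 * (1 / L ^ (C + 5)) := by linarith
  have hVp := Vz_pos z
  obtain ⟨M, hM⟩ : ∃ M, M = Real.sqrt X := ⟨_, rfl⟩
  have hM0 : 0 < M := by rw [hM]; exact Real.sqrt_pos.2 hX0
  have hLM : L ≤ M := by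
    rw [hM]
    exact Real.le_sqrt_of_sq_le hLX
  refine ⟨SzP (-a) (-b) c z * ℓ, hℓ, fun y hy => ?_, fun hadm => ?_⟩
  · have h8 := h y hy
    rw [← hLd, ← hM] at h8 ⊢
    obtain ⟨s0, s1⟩ := SzP_bd (-a) (-b) c z
    have hyN : (y : ℝ) ≤ M := by
      rw [hM]
      apply Real.le_sqrt_of_sq_le
      exact_mod_cast hy
    obtain ⟨Q, hQ⟩ : ∃ Q, Q = ∑ m ∈ Icc 1 y, thp m * thp (fv (-a) (-b) c m).natAbs := ⟨_, rfl⟩
    rw [← hQ] at h8 ⊢
    have e : Q - SzP (-a) (-b) c z * ℓ * y =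
        (Q - SzP (-a) (-b) c z * y) - SzP (-a) (-b) c z * (ℓ - 1) * y := by ring
    rw [e]
    refine (abs_sub _ _).trans ?_
    have h9 : |SzP (-a) (-b) c z * (ℓ - 1) * y| ≤ L * (16 * (1 / L ^ (C + 5))) * M := by
      have hy0 : (0 : ℝ) ≤ (y : ℝ) := Nat.cast_nonneg y
      rw [abs_mul, abs_mul, abs_of_nonneg s0, abs_of_nonneg hy0]
      gcongr
      exact s1.trans hV
    have h11 : M / L ^ (C + 6) = M / L ^ C * (1 / L ^ 6) := by
      rw [pow_add]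
      field_simp
    have h12 : L * (16 * (1 / L ^ (C + 5))) * M = M / L ^ C * (16 / L ^ 4) := by
      rw [pow_add L C 5]
      field_simp
    have h13 : 1 / L ^ 6 + 16 / L ^ 4 ≤ 1 := by
      have a1 : 1 / L ^ 6 ≤ 1 / 2 := by
        apply one_div_le_one_div_of_le (by norm_num)
        have : L ≤ L ^ 6 := le_self_pow₀ hL1 (by norm_num)
        linarith
      have a2 : 16 / L ^ 4 ≤ 1 / 2 := by
        rw [div_le_div_iff₀ (by positivity) (by norm_num)]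
        have : L ≤ L ^ 4 := le_self_pow₀ hL1 (by norm_num)
        linarith
      linarith
    have h14 : 0 ≤ M / L ^ C := by positivity
    have h16 := mul_le_mul_of_nonneg_left h13 h14
    rw [mul_add, mul_one] at h16
    linarith
  · have hS := SzP_low (α := -a) (γ := -b) (by omega) c z (fun p hp => loc_ltS (mem_pz.1 hp).2 (hadm p (mem_pz.1 hp).2))
    rw [← hκ] at hS
    have hSz0 : 0 < SzP (-a) (-b) c z := lt_of_lt_of_le (by positivity) hS
    refine ⟨by positivity, ?_⟩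
    obtain ⟨y, hy⟩ : ∃ y, y = Nat.sqrt X := ⟨_, rfl⟩
    have hy1 : y ^ 2 ≤ X := by rw [hy]; exact Nat.sqrt_le' X
    have hy2 : X < (y + 1) ^ 2 := by rw [hy]; exact Nat.lt_succ_sqrt' X
    have h8 := h y hy1
    rw [← hM, ← hLd] at h8
    by_contra hno
    have h7 : ∑ m ∈ Icc 1 y, thp m * thp (fv (-a) (-b) c m).natAbs = 0 := by
      apply sum_eq_zero
      intro m hm
      by_cases hp1 : m.Prime
      · have hp2 : ¬ (fv (-a) (-b) c m).natAbs.Prime := by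
          intro hp2
          apply hno
          rw [mem_Icc] at hm
          exact ⟨m, hp1, (Nat.pow_le_pow_left hm.2 2).trans hy1, hp2⟩
        unfold thp
        rw [if_neg hp2, mul_zero]
      · unfold thp
        rw [if_neg hp1, zero_mul]
    rw [h7, zero_sub, abs_neg] at h8
    have hV2 : κ * (1 / L ^ 4) ≤ SzP (-a) (-b) c z := by
      refine le_trans ?_ hS
      have : 1 / L ≤ Vz z := by
        rw [one_div]
        exact inv_le_of_inv_le₀ hVp hV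
      apply mul_le_mul_of_nonneg_left _ hκ0.le
      calc 1 / L ^ 4 = (1 / L) ^ 4 := by rw [div_pow, one_pow]
        _ ≤ Vz z ^ 4 := by gcongr
    have hyr : M / 2 ≤ y := by
      have e1 : M < y + 1 := by
        rw [hM]
        have e2 : (X : ℝ) < ((y : ℝ) + 1) ^ 2 := by exact_mod_cast hy2
        rw [Real.sqrt_lt' (by positivity)]
        exact e2
      linarith
    have h9 : SzP (-a) (-b) c z * y ≤ M / L ^ (C + 6) := le_trans (le_abs_self _) h8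
    have h10 : κ * (1 / L ^ 4) * (M / 2) ≤ M / L ^ (C + 6) := by
      refine le_trans ?_ h9
      exact mul_le_mul hV2 hyr (by positivity) (le_trans (by positivity) hV2)
    have h11 : M / L ^ (C + 6) = κ * (1 / L ^ 4) * (M / 2) * (2 / (κ * L ^ (C + 2))) := by
      have : L ^ (C + 6) = L ^ 4 * L ^ (C + 2) := by ring
      rw [this]
      field_simp
    rw [h11] at h10
    have h12 : 2 / (κ * L ^ (C + 2)) < 1 := by
      rw [div_lt_one (by positivity)]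
      have a1 : L ^ 2 ≤ L ^ (C + 2) := pow_le_pow_right₀ hL1 (by omega)
      have a2 : κ * L ^ 2 ≤ κ * L ^ (C + 2) := by gcongr
      exact lt_of_lt_of_le (ay1 hκL hL100) a2
    have h13 : 0 < κ * (1 / L ^ 4) * (M / 2) := by positivity
    exact ay2 h13 h12 h10

lemma fam_bd {a b β : ℤ} (hβ : |β| ≤ 4 * |a|) {X k : ℕ} (hk : k ∈ Icc 1 X) :
    (b ^ 2 + β * (k : ℤ)).natAbs ≤ b.natAbs ^ 2 + 4 * a.natAbs * X := by
  rw [mem_Icc] at hk
  have e1 : |b ^ 2 + β * (k : ℤ)| ≤ |b| ^ 2 + |β| * k := by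
    refine (abs_add_le _ _).trans ?_
    rw [abs_pow, abs_mul, Nat.abs_cast]
  have e3 : |β| * (k : ℤ) ≤ 4 * |a| * X := by
    apply mul_le_mul hβ _ (Int.natCast_nonneg _) (by positivity)
    exact_mod_cast hk.2
  have e4 : (((b ^ 2 + β * (k : ℤ)).natAbs : ℕ) : ℤ) ≤ ((b.natAbs ^ 2 + 4 * a.natAbs * X : ℕ) : ℤ) := by
    rw [Int.natCast_natAbs]
    push_cast
    linarith
  exact_mod_cast e4

open Classical in
theorem fam_lam {a b : ℤ} (ha : 0 < a) : ∃ κ₀ : ℝ, 0 < κ₀ ∧ κ₀ < 1 / 2 ∧ ∀ κ K : ℝ, 0 ≤ κ → κ ≤ κ₀ → 1 ≤ K →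
    ∀ δ : ℝ, 0 < δ → ∀ A C : ℕ,
    ∃ X₀ : ℕ, ∀ X : ℕ, X₀ ≤ X → ∀ D : Finset ℤ, (∀ n ∈ D, |n| ≤ X) → (X : ℝ) ^ (1 / 2 + δ) ≤ D.card →
      Kern κ K ((a.natAbs + b.natAbs + 1) * X) (2 * (a.natAbs + b.natAbs + 1) * ((a.natAbs + b.natAbs + 1) * X) + 1) D →
      ((D.filter (fun c : ℤ => ¬ GoodA a b C X c)).card : ℝ) ≤ D.card / Real.log X ^ A := by
  obtain ⟨κ₀, hκ₀, hκ₀', hcnt⟩ := cnt_lam (a := a) (b := b) (by omega)
  refine ⟨κ₀, hκ₀, hκ₀', fun κ K hκ0 hκ hK δ hδ A C => ?_⟩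
  obtain ⟨B₁, hB₁⟩ := hcnt κ K hκ0 hκ hK δ hδ (A + 1) (C + 6)
  obtain ⟨B₂, hB₂⟩ := tail_fam (C + 6) 2 (by norm_num) (δ / 4) (by linarith)
  obtain ⟨B', hB'⟩ : ∃ B', B' = B₁ + B₂ + C + 7 := ⟨_, rfl⟩
  obtain ⟨N₁, h1⟩ := hB₁ (B' + 1)
  obtain ⟨N₂, h2⟩ := hB₂ (B' + 1)
  obtain ⟨N₃, h3⟩ := Vz_inv_small (B' + 1)
  obtain ⟨w, hw⟩ : ∃ w : ℝ, w = (b.natAbs : ℝ) ^ 2 + 4 * a.natAbs := ⟨_, rfl⟩
  obtain ⟨κ₁, hκ₁⟩ : ∃ κ₁ : ℝ, κ₁ = (1 / ((6 * -a).natAbs : ℝ)) ^ (6 * -a).natAbs := ⟨_, rfl⟩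
  have ha1 : (1 : ℝ) ≤ (6 * -a).natAbs := by exact_mod_cast Int.natAbs_pos.2 (by omega : 6 * -a ≠ 0)
  have hκ₁0 : 0 < κ₁ := by rw [hκ₁]; positivity
  obtain ⟨N₄, h4⟩ := Filter.eventually_atTop.1 (ev_log (A + 2) (s := min (δ / 4) (1 / 2)) (by positivity)
    (100 + (a : ℝ) + 2 * w + 2 / κ₁))
  refine ⟨N₁ + N₂ + N₃ + N₄ + 3, fun X hX D hDX hDc hKern => ?_⟩
  obtain ⟨hLb, hLp⟩ := h4 X (by omega)
  have hX1 : 1 ≤ X := by omega
  have hX0 : (0 : ℝ) < X := by exact_mod_cast hX1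
  have hX1r : (1 : ℝ) ≤ X := by exact_mod_cast hX1
  have c1 := h1 X (by omega)
  have c2 := h2 X (by omega)
  have c3 := h3 X (by omega)
  obtain ⟨L, hL⟩ : ∃ L, L = Real.log (X : ℝ) := ⟨_, rfl⟩
  have ha0 : (0 : ℝ) < a := by exact_mod_cast ha
  have hw0 : 0 ≤ w := by rw [hw]; positivity
  have h2κ : 0 < 2 / κ₁ := by positivity
  rw [← hL] at hLb hLp c1 c2 c3 ⊢
  have hL100 : 100 ≤ L := by linarith
  have hL0 : 0 < L := by linarith
  have hL1 : 1 ≤ L := by linarith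
  -- the parameter `z`
  have hL1B : 1 ≤ L ^ B' := one_le_pow₀ hL1
  obtain ⟨i0, hi0⟩ : ∃ i0, i0 = Nat.log 2 ⌈L ^ B'⌉₊ + 1 := ⟨_, rfl⟩
  have hzlo : L ^ B' ≤ (2 : ℝ) ^ i0 := by
    have e1 : ⌈L ^ B'⌉₊ < 2 ^ i0 := by rw [hi0]; exact Nat.lt_pow_succ_log_self (by norm_num) _
    have e2 : (⌈L ^ B'⌉₊ : ℝ) ≤ 2 ^ i0 := by exact_mod_cast e1.le
    exact (Nat.le_ceil _).trans e2
  have hzhi : (2 : ℝ) ^ i0 ≤ L ^ (B' + 1) := by
    have e0 : 0 < ⌈L ^ B'⌉₊ := Nat.ceil_pos.2 (by linarith)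
    have e1 : 2 ^ Nat.log 2 ⌈L ^ B'⌉₊ ≤ ⌈L ^ B'⌉₊ := Nat.pow_log_le_self 2 e0.ne'
    have e2 : (2 : ℝ) ^ Nat.log 2 ⌈L ^ B'⌉₊ ≤ ⌈L ^ B'⌉₊ := by exact_mod_cast e1
    have e3 := Nat.ceil_lt_add_one (show 0 ≤ L ^ B' by linarith)
    rw [hi0, pow_succ, pow_succ L]
    exact ay3 e2 e3 hL1B hL100
  obtain ⟨z, hz⟩ : ∃ z, z = 2 ^ i0 := ⟨_, rfl⟩
  have hzr : (z : ℝ) = (2 : ℝ) ^ i0 := by rw [hz]; push_cast; rfl
  have hzL : L ≤ z := by
    rw [hzr]
    exact (le_self_pow₀ hL1 (by omega)).trans hzlo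
  have hz3 : 3 ≤ z := by
    have : (3 : ℝ) ≤ z := by linarith
    exact_mod_cast this
  have haz : a ≤ z := by
    have : (a : ℝ) ≤ z := by linarith
    exact_mod_cast this
  have hpw : ∀ j, j ≤ B' → L ^ j ≤ (2 : ℝ) ^ i0 := fun j hj => (pow_le_pow_right₀ hL1 hj).trans hzlo
  have d1 := c1 z (by rw [hzr]; exact hpw _ (by omega)) (by rw [hzr]; exact hzhi) D hDX hDc hKern
  have d3 := c3 z (by omega) (by rw [hzr]; exact hzhi)
  -- the discriminants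
  obtain ⟨R, hR⟩ : ∃ R, R = b.natAbs ^ 2 + 4 * a.natAbs * X := ⟨_, rfl⟩
  have hRr : (R : ℝ) ≤ w * X := by
    rw [hR, hw]
    push_cast
    have : (0 : ℝ) ≤ ((b.natAbs : ℕ) : ℝ) ^ 2 := by positivity
    push_cast at this
    exact ay4 this hX1r (Nat.cast_nonneg _)
  have hXh : L ≤ (X : ℝ) ^ (1 / 2 : ℝ) := by
    refine le_trans (le_self_pow₀ hL1 (by omega : A + 2 ≠ 0)) (hLp.trans ?_)
    exact Real.rpow_le_rpow_of_exponent_le hX1r (min_le_right _ _)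
  have hXX : (X : ℝ) ^ (1 / 2 : ℝ) ≤ X := by
    calc (X : ℝ) ^ (1 / 2 : ℝ) ≤ (X : ℝ) ^ (1 : ℝ) := Real.rpow_le_rpow_of_exponent_le hX1r (by norm_num)
      _ = X := Real.rpow_one _
  have hLX2 : L ^ 2 ≤ X := by
    calc L ^ 2 ≤ ((X : ℝ) ^ (1 / 2 : ℝ)) ^ 2 := pow_le_pow_left₀ hL0.le hXh 2
      _ = X := by
          rw [← Real.sqrt_eq_rpow]
          exact Real.sq_sqrt hX0.le
  have hRX : R ≤ X ^ 2 := by
    have e1 : (R : ℝ) ≤ (X : ℝ) ^ 2 := by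
      refine hRr.trans ?_
      rw [sq]
      apply mul_le_mul_of_nonneg_right _ hX0.le
      linarith
    exact_mod_cast e1
  have hβ1 : |-(4 * a)| ≤ 4 * |a| := by
    rw [abs_neg, abs_mul]
    exact le_of_eq (by norm_num)
  have hβ2 : |4 * a| ≤ 4 * |a| := by
    rw [abs_mul]
    exact le_of_eq (by norm_num)
  have hfR1 : ∀ k ∈ Icc 1 X, (b ^ 2 + (-(4 * a)) * (k : ℤ)).natAbs ≤ R := fun k hk => by
    rw [hR]
    exact fam_bd hβ1 hk
  have hfR2 : ∀ k ∈ Icc 1 X, (b ^ 2 + (4 * a) * (k : ℤ)).natAbs ≤ R := fun k hk => by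
    rw [hR]
    exact fam_bd hβ2 hk
  obtain ⟨W, hW⟩ : ∃ W : ℝ, W = (Nat.sqrt R : ℝ) + 1 := ⟨_, rfl⟩
  have hW0 : 0 ≤ W := by rw [hW]; positivity
  obtain ⟨Ex, hEx1, hEx2⟩ := c2 i0 (hpw _ (by omega)) hzhi (fun k : ℕ => b ^ 2 + (-(4 * a)) * (k : ℤ))
    (fun k hk => (hfR1 k hk).trans hRX) W hW0 (fun d => by
      rw [hW]
      exact_mod_cast sol_lin (b ^ 2) (-(4 * a)) (by omega) X R hfR1 d)
  obtain ⟨Ey, hEy1, hEy2⟩ := c2 i0 (hpw _ (by omega)) hzhi (fun k : ℕ => b ^ 2 + (4 * a) * (k : ℤ))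
    (fun k hk => (hfR2 k hk).trans hRX) W hW0 (fun d => by
      rw [hW]
      exact_mod_cast sol_lin (b ^ 2) (4 * a) (by omega) X R hfR2 d)
  obtain ⟨h, hh⟩ : ∃ h, h = (X : ℝ) ^ (δ / 4) := ⟨_, rfl⟩
  obtain ⟨M, hM⟩ : ∃ M, M = (X : ℝ) ^ (1 / 2 : ℝ) := ⟨_, rfl⟩
  have hMs : M = Real.sqrt X := by rw [hM, Real.sqrt_eq_rpow]
  have hLh : L ^ (A + 2) ≤ h := by
    rw [hh]
    exact hLp.trans (Real.rpow_le_rpow_of_exponent_le hX1r (min_le_left _ _))
  have hLh1 : L ≤ h := (le_self_pow₀ hL1 (by omega)).trans hLh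
  have hh1 : 1 ≤ h := by linarith
  rw [← hM] at hXh hXX
  have hM1 : 1 ≤ M := by linarith
  have hWM : W ≤ h * M := by
    have e1 : (Nat.sqrt R : ℝ) ≤ w * M + M := by
      have e2 : (Nat.sqrt R : ℝ) ≤ Real.sqrt R := Real.nat_sqrt_le_real_sqrt
      have e3 : Real.sqrt R ≤ w * M + M := by
        rw [Real.sqrt_le_left (by positivity)]
        have e4 : M * M = X := by rw [hMs]; exact Real.mul_self_sqrt hX0.le
        calc (R : ℝ) ≤ w * X := hRr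
          _ = w * (M * M) := by rw [e4]
          _ ≤ (w * M + M) ^ 2 := by
              exact ay5 hw0 M
      exact e2.trans e3
    rw [hW]
    have e5 : w * M + M + 1 ≤ L * M := ay6 hM1 (by linarith)
    have e6 : L * M ≤ h * M := mul_le_mul_of_nonneg_right hLh1 (by linarith)
    linarith
  have hDM : h * h * h * h * M ≤ D.card := by
    refine le_trans (le_of_eq ?_) hDc
    rw [hh, hM, ← Real.rpow_add hX0, ← Real.rpow_add hX0, ← Real.rpow_add hX0, ← Real.rpow_add hX0]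
    congr 1
    ring
  have hD0 : (0 : ℝ) ≤ D.card := Nat.cast_nonneg _
  have hExc : ∀ E : Finset ℕ, (E.card : ℝ) ≤ (X : ℝ) ^ (δ / 4) * W → (E.card : ℝ) ≤ D.card / L ^ (A + 1) := by
    intro E hE
    rw [le_div_iff₀ (by positivity)]
    rw [← hh] at hE
    calc (E.card : ℝ) * L ^ (A + 1) ≤ (h * (h * M)) * h := by
          apply mul_le_mul _ _ (by positivity) (by positivity)
          · exact hE.trans (mul_le_mul_of_nonneg_left hWM (by linarith))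
          · exact (pow_le_pow_right₀ hL1 (by omega)).trans hLh
      _ = (h * h * h * M) * 1 := by ring
      _ ≤ (h * h * h * M) * h := by gcongr
      _ = h * h * h * h * M := by ring
      _ ≤ D.card := hDM
  obtain ⟨F1, hF1⟩ : ∃ F1, F1 = D.filter (fun c : ℤ => ¬ GoodL (-a) (-b) (C + 6) X z c) := ⟨_, rfl⟩
  rw [← hF1] at d1
  have hsub : D.filter (fun c : ℤ => ¬ GoodA a b C X c) ⊆
      F1 ∪ Ex.image (fun n : ℕ => (n : ℤ)) ∪ Ey.image (fun n : ℕ => -(n : ℤ)) ∪ {0} := by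
    intro c hc
    rw [mem_filter] at hc
    obtain ⟨g1, g4⟩ := hc
    have g2 := abs_le.1 (hDX c g1)
    rw [mem_union, mem_union, mem_union, hF1, mem_filter, mem_singleton]
    by_cases h0 : c = 0
    · exact Or.inr h0
    left
    by_cases hE : c.natAbs ∈ Ex ∧ 0 < c
    · left
      right
      rw [mem_image]
      exact ⟨c.natAbs, hE.1, by omega⟩
    by_cases hE' : c.natAbs ∈ Ey ∧ c < 0
    · right
      rw [mem_image]
      exact ⟨c.natAbs, hE'.1, by omega⟩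
    left
    left
    refine ⟨g1, fun hg => g4 ?_⟩
    have hcI : c.natAbs ∈ Icc 1 X := by
      rw [mem_Icc]
      constructor <;> omega
    have hkey : ¬ IsSquare (b ^ 2 - 4 * a * c) ∧ ∀ᶠ N in atTop, |SJ (b ^ 2 - 4 * a * c) (2 ^ i0) N| ≤
        1 / L ^ (C + 6) := by
      rcases lt_or_gt_of_ne h0 with hneg | hpos
      · have hnE : c.natAbs ∉ Ey := fun h => hE' ⟨h, hneg⟩
        have e1 := hEy2 c.natAbs hcI hnE
        have e3 : b ^ 2 + (4 * a) * ((c.natAbs : ℕ) : ℤ) = b ^ 2 - 4 * a * c := by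
          have : ((c.natAbs : ℕ) : ℤ) = -c := by omega
          rw [this]
          ring
        simp only [e3] at e1
        exact e1
      · have hnE : c.natAbs ∉ Ex := fun h => hE ⟨h, hpos⟩
        have e1 := hEx2 c.natAbs hcI hnE
        have e3 : b ^ 2 + (-(4 * a)) * ((c.natAbs : ℕ) : ℤ) = b ^ 2 - 4 * a * c := by
          have : ((c.natAbs : ℕ) : ℤ) = c := by omega
          rw [this]
          ring
        simp only [e3] at e1
        exact e1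
    refine goodA_of ha h0 hz3 haz hX1 (hDX c g1) hκ₁ (by rw [← hL]; linarith) (by rw [← hL]; exact hLX2)
      (by rw [← hL]; exact d3) (by
      rw [← hL, hzr]
      exact hpw _ (by omega)) hkey.1 ?_ hg
    rw [← hL, hz]
    exact hkey.2
  have hcard : ((D.filter (fun c : ℤ => ¬ GoodA a b C X c)).card : ℝ) ≤
      (F1.card : ℝ) + (Ex.card : ℝ) + (Ey.card : ℝ) + 1 := by
    have e1 := card_le_card hsub
    have e2 := card_union_le (F1 ∪ Ex.image (fun n : ℕ => (n : ℤ)) ∪ Ey.image (fun n : ℕ => -(n : ℤ))) {0}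
    have e3 := card_union_le (F1 ∪ Ex.image (fun n : ℕ => (n : ℤ))) (Ey.image (fun n : ℕ => -(n : ℤ)))
    have e4 := card_union_le F1 (Ex.image (fun n : ℕ => (n : ℤ)))
    have e5 : (Ex.image (fun n : ℕ => (n : ℤ))).card ≤ Ex.card := card_image_le
    have e6 : (Ey.image (fun n : ℕ => -(n : ℤ))).card ≤ Ey.card := card_image_le
    rw [card_singleton] at e2
    have e7 : (D.filter (fun c : ℤ => ¬ GoodA a b C X c)).card ≤ F1.card + Ex.card + Ey.card + 1 := by omega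
    exact_mod_cast e7
  refine hcard.trans ?_
  have hone : (1 : ℝ) ≤ D.card / L ^ (A + 1) := by
    rw [le_div_iff₀ (by positivity), one_mul]
    calc L ^ (A + 1) ≤ h := (pow_le_pow_right₀ hL1 (by omega)).trans hLh
      _ = h * 1 := (mul_one h).symm
      _ ≤ h * (h * h * h * M) := by
          apply mul_le_mul_of_nonneg_left _ (by linarith)
          exact ay7 hh1 hM1
      _ = h * h * h * h * M := by ring
      _ ≤ D.card := hDM
  have q1 := hExc Ex hEx1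
  have q2 := hExc Ey hEy1
  calc (F1.card : ℝ) + (Ex.card : ℝ) + (Ey.card : ℝ) + 1 ≤
        D.card / L ^ (A + 1) + D.card / L ^ (A + 1) + D.card / L ^ (A + 1) + D.card / L ^ (A + 1) := by linarith
    _ = D.card / L ^ A * (4 / L) := by
        rw [pow_succ]
        field_simp
        ring
    _ ≤ D.card / L ^ A * 1 := by
        apply mul_le_mul_of_nonneg_left _ (by positivity)
        rw [div_le_one hL0]
        linarith
    _ = _ := mul_one _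

open Classical in
/-- the theorem for the integers with restricted digits -/
theorem dig_lam {a b : ℤ} (ha : 0 < a) : ∃ κ₀ : ℝ, 0 < κ₀ ∧ κ₀ < 1 / 2 ∧ ∀ κ : ℝ, 0 ≤ κ → κ ≤ κ₀ → ∀ g A C K : ℕ,
    ∃ k₀ : ℕ, ∀ k : ℕ, k₀ ≤ k → ∀ D : ℕ → Finset ℕ, Dg g k κ D → ∀ c₀ : ℤ, |c₀| ≤ (K * g ^ k : ℕ) →
      ∀ σ : ℤ, (σ = 1 ∨ σ = -1) →
      (((S g D k).filter (fun v : ℕ => ¬ GoodA a b C ((K + 1) * g ^ k) (c₀ + σ * (v : ℤ)))).card : ℝ) ≤
        (S g D k).card / Real.log (((K + 1) * g ^ k : ℕ) : ℝ) ^ A := by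
  obtain ⟨κ₀, hκ₀, hκ₀', hfam⟩ := fam_lam (a := a) (b := b) ha
  refine ⟨κ₀, hκ₀, hκ₀', fun κ hκ0 hκ g A C K => ?_⟩
  rcases Nat.lt_or_ge g 3 with hg | hg
  · refine ⟨0, fun k _ D hD => ?_⟩
    have := hD.hg
    omega
  obtain ⟨δ, hδ⟩ : ∃ δ, δ = (1 / 2 - κ) / 2 := ⟨_, rfl⟩
  have hδ0 : 0 < δ := by rw [hδ]; linarith
  obtain ⟨hh, hhh⟩ : ∃ hh, hh = a.natAbs + b.natAbs + 1 := ⟨_, rfl⟩
  obtain ⟨C₁, hC₁⟩ : ∃ C₁ : ℕ, C₁ = 2 * hh * (hh * (K + 1)) + 1 := ⟨_, rfl⟩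
  have hC₁0 : (0 : ℝ) ≤ C₁ := Nat.cast_nonneg _
  have hC₁1 : (1 : ℝ) ≤ C₁ := by
    rw [hC₁]
    push_cast
    have : (0 : ℝ) ≤ 2 * hh * (hh * (K + 1)) := by positivity
    linarith
  obtain ⟨X₀, h0⟩ := hfam κ (16 * C₁ + 64 * (C₁ + 1) * (g : ℝ) ^ 2) hκ0 hκ (by
    have : (0 : ℝ) ≤ 64 * (C₁ + 1) * (g : ℝ) ^ 2 := by positivity
    linarith) δ hδ0 A C
  refine ⟨X₀ + K + 1, fun k hk D hD c₀ hc₀ σ hσ => ?_⟩
  have hg0 : 0 < g := by omega
  have hgr : (0 : ℝ) < g := by exact_mod_cast hg0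
  have hg1 : (1 : ℝ) ≤ g := by exact_mod_cast hg0
  have hgk : 0 < g ^ k := Nat.pow_pos hg0
  obtain ⟨X, hX⟩ : ∃ X, X = (K + 1) * g ^ k := ⟨_, rfl⟩
  have hkX : k < g ^ k := Nat.lt_pow_self (by omega)
  have hXg : g ^ k ≤ X := by rw [hX]; exact Nat.le_mul_of_pos_left _ (by omega)
  rw [← hX]
  have hXr : (X : ℝ) = (K + 1) * (g : ℝ) ^ k := by rw [hX]; push_cast; ring
  have hX0 : (0 : ℝ) < X := by rw [hXr]; positivity
  have hinj : Function.Injective (fun v : ℕ => c₀ + σ * (v : ℤ)) := by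
    intro x y h
    have h' : c₀ + σ * (x : ℤ) = c₀ + σ * (y : ℤ) := h
    rcases hσ with rfl | rfl <;> omega
  obtain ⟨T, hT⟩ : ∃ T : Finset ℤ, T = (S g D k).image (fun v : ℕ => c₀ + σ * (v : ℤ)) := ⟨_, rfl⟩
  have hcn : T.card = (S g D k).card := by rw [hT]; exact card_image_of_injective _ hinj
  have hcc : (T.card : ℝ) = (S g D k).card := by rw [hcn]
  have hkd : ∀ c₁ : ℤ, Kern κ (16 * C₁ + 64 * (C₁ + 1) * (g : ℝ) ^ 2) ((a.natAbs + b.natAbs + 1) * X)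
      (2 * (a.natAbs + b.natAbs + 1) * ((a.natAbs + b.natAbs + 1) * X) + 1) (Sh c₁ (S g D k)) := by
    intro c₁
    rw [← hhh]
    apply kern_dig hD (by linarith) (by positivity)
    · exact hXg.trans (Nat.le_mul_of_pos_left _ (by omega))
    · rw [hX, hC₁]
      calc hh * ((K + 1) * g ^ k) = (hh * (K + 1)) * g ^ k := by ring
        _ ≤ (2 * hh * (hh * (K + 1)) + 1) * g ^ k := by
            apply Nat.mul_le_mul_right
            have : hh * (K + 1) ≤ 2 * hh * (hh * (K + 1)) := Nat.le_mul_of_pos_left _ (by omega)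
            omega
    · rw [hX, hC₁]
      calc 2 * hh * (hh * ((K + 1) * g ^ k)) + 1 ≤ 2 * hh * (hh * ((K + 1) * g ^ k)) + g ^ k := by omega
        _ = (2 * hh * (hh * (K + 1)) + 1) * g ^ k := by ring
  have hkT : Kern κ (16 * C₁ + 64 * (C₁ + 1) * (g : ℝ) ^ 2) ((a.natAbs + b.natAbs + 1) * X)
      (2 * (a.natAbs + b.natAbs + 1) * ((a.natAbs + b.natAbs + 1) * X) + 1) T := by
    rcases hσ with rfl | rfl
    · have e : T = Sh c₀ (S g D k) := by
        rw [hT]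
        unfold Sh
        apply image_congr
        intro v _
        simp only
        ring
      rw [e]
      exact hkd c₀
    · have e : T = (Sh (-c₀) (S g D k)).image (fun n => -n) := by
        rw [hT]
        unfold Sh
        rw [image_image]
        apply image_congr
        intro v _
        simp only [Function.comp]
        ring
      rw [e]
      exact kern_neg (hkd (-c₀))
  have hmain := h0 X (by omega) T (by
    intro n hn
    rw [hT, mem_image] at hn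
    obtain ⟨v, hv, rfl⟩ := hn
    unfold S at hv
    rw [mem_filter, mem_range] at hv
    have h1 := abs_le.1 hc₀
    have h2 : (X : ℤ) = (K * g ^ k : ℕ) + (g ^ k : ℕ) := by
      rw [hX]
      push_cast
      ring
    have h3 : (v : ℤ) < (g ^ k : ℕ) := by exact_mod_cast hv.1
    have h4 : (0 : ℤ) ≤ v := Int.natCast_nonneg _
    rw [abs_le, h2]
    rcases hσ with rfl | rfl
    · constructor <;> linarith
    · constructor <;> linarith) (by
    rw [hcn]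
    refine le_trans ?_ (card_S_ge hD)
    have h1 : (X : ℝ) ^ (1 / 2 + δ) ≤ (K + 1) * ((g : ℝ) ^ (1 - κ)) ^ k := by
      rw [hXr, Real.mul_rpow (by positivity) (by positivity)]
      apply mul_le_mul
      · calc ((K : ℝ) + 1) ^ (1 / 2 + δ) ≤ ((K : ℝ) + 1) ^ (1 : ℝ) := by
              apply Real.rpow_le_rpow_of_exponent_le
              · have : (0 : ℝ) ≤ K := Nat.cast_nonneg _
                linarith
              · rw [hδ]; linarith
          _ = _ := Real.rpow_one _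
      · rw [← Real.rpow_natCast, ← Real.rpow_mul hgr.le, ← Real.rpow_natCast, ← Real.rpow_mul hgr.le]
        apply Real.rpow_le_rpow_of_exponent_le hg1
        rw [mul_comm]
        apply mul_le_mul_of_nonneg_right _ (Nat.cast_nonneg _)
        rw [hδ]
        linarith
      · positivity
      · positivity
    refine h1.trans ?_
    rw [mul_pow]
    apply mul_le_mul_of_nonneg_right _ (by positivity)
    have h2 : K + 1 ≤ 11 ^ k := by
      have : k < 11 ^ k := Nat.lt_pow_self (by norm_num)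
      omega
    exact_mod_cast h2) hkT
  rw [hcc] at hmain
  refine le_trans ?_ hmain
  have e1 : ((S g D k).filter (fun v : ℕ => ¬ GoodA a b C X (c₀ + σ * (v : ℤ)))).card =
      (((S g D k).filter (fun v : ℕ => ¬ GoodA a b C X (c₀ + σ * (v : ℤ)))).image
        (fun v : ℕ => c₀ + σ * (v : ℤ))).card := (card_image_of_injective _ hinj).symm
  rw [e1]
  rw [Nat.cast_le]
  apply card_le_card
  intro n hn
  rw [mem_image] at hn
  obtain ⟨v, hv, rfl⟩ := hn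
  rw [mem_filter] at hv ⊢
  refine ⟨?_, hv.2⟩
  rw [hT, mem_image]
  exact ⟨v, hv.1, rfl⟩

end Pool.Agent.K9h59.PA
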