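import Pool.Agent.K9h59.PA.MinP
import Pool.Agent.K9h59.CF.Mean

/-! The sums over the primes off the major arcs. -/

set_option autoImplicit false

namespace Pool.Agent.K9h59.PA

open Finset Polynomial
open Pool.Agent.H807R2.Dav (ee norm_ee)
open Pool.Agent.R486.PD (SLam Near)
open Pool.Agent.K9h59.CF (mjr mem_mjr SS Gh Kern)

lemma SLam_triv (h : ℤ[X]) (y N : ℕ) (θ : ℝ) (hy : y ≤ N) : ‖SLam h y θ‖ ≤ y * Real.log N := by
  unfold SLam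
  calc ‖∑ n ∈ Icc 1 y, ((ArithmeticFunction.vonMangoldt n : ℝ) : ℂ) * ee (θ * ((h.eval (n : ℤ) : ℤ) : ℝ))‖
      ≤ ∑ _n ∈ Icc 1 y, Real.log N := by
        refine (norm_sum_le _ _).trans (sum_le_sum fun n hn => ?_)
        rw [mem_Icc] at hn
        rw [norm_mul, Complex.norm_real, Real.norm_eq_abs, abs_of_nonneg ArithmeticFunction.vonMangoldt_nonneg,
          norm_ee, mul_one]
        refine ArithmeticFunction.vonMangoldt_le_log.trans ?_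
        exact Real.log_le_log (by exact_mod_cast (by omega : 0 < n)) (by exact_mod_cast (by omega : n ≤ N))
    _ = _ := by rw [sum_const, Nat.card_Icc, nsmul_eq_mul, Nat.add_sub_cancel]

/-- the sum over the primes off the major arcs -/
theorem SL_le (h : ℤ[X]) (hd : h.natDegree = 2) : ∃ ν : ℝ, 0 < ν ∧ ν ≤ 1 ∧ ∃ C₀ N₀ : ℕ, ∀ N : ℕ, N₀ ≤ N → ∀ R : ℕ,
    Real.log N ^ C₀ ≤ R → (R : ℝ) ≤ (N : ℝ) ^ (1 / 4 : ℝ) → ∀ y : ℕ, y ^ 2 ≤ N → ∀ M t : ℕ, t ∈ range M →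
    t ∉ mjr M N R → ‖SLam h y ((t : ℝ) / M)‖ ^ 2 ≤ N / (R : ℝ) ^ ν := by
  obtain ⟨C, N₁, hC1, hmin⟩ := minor_pow h (by omega)
  rw [hd] at hmin
  obtain ⟨ν, hν⟩ : ∃ ν : ℝ, ν = 1 / (4 * ((C : ℝ) + 2)) := ⟨_, rfl⟩
  have hCr : (0 : ℝ) ≤ C := Nat.cast_nonneg _
  have hν0 : 0 < ν := by rw [hν]; positivity
  have hνC : ν * ((C : ℝ) + 2) = 1 / 4 := by rw [hν]; field_simp
  have hν1 : ν ≤ 1 / 8 := by
    nlinarith
  refine ⟨ν, hν0, by linarith, 8 * (C + 2), (N₁ + 16) ^ 4, fun N hN R hR1 hR2 y hy M t ht hnot => ?_⟩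
  have hN4 : 16 ^ 4 ≤ N := le_trans (Nat.pow_le_pow_left (by omega) 4) hN
  have hN1 : 1 ≤ N := le_trans (by norm_num) hN4
  have hN0 : (0 : ℝ) < N := by exact_mod_cast hN1
  have hN1r : (1 : ℝ) ≤ N := by exact_mod_cast hN1
  have hlog1 : 1 ≤ Real.log N := by
    rw [Real.le_log_iff_exp_le hN0]
    have h1 := Real.exp_one_lt_d9
    have h2 : ((16 ^ 4 : ℕ) : ℝ) ≤ N := by exact_mod_cast hN4
    have h3 : ((16 ^ 4 : ℕ) : ℝ) = 65536 := by norm_num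
    rw [h3] at h2
    linarith
  have hR0 : (1 : ℝ) ≤ R := (one_le_pow₀ hlog1).trans hR1
  have hR0' : (0 : ℝ) < R := by linarith
  obtain ⟨v, hv⟩ : ∃ v : ℝ, v = (R : ℝ) ^ ν := ⟨_, rfl⟩
  rw [← hv]
  have hv1 : 1 ≤ v := by rw [hv]; exact Real.one_le_rpow hR0 hν0.le
  have hv0 : 0 < v := by linarith
  have hvC : v ^ (C + 2) = (R : ℝ) ^ (1 / 4 : ℝ) := by
    rw [hv, ← Real.rpow_natCast, ← Real.rpow_mul hR0'.le]
    congr 1
    push_cast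
    exact hνC
  have hvR : v ^ (C + 2) ≤ R := by
    rw [hvC]
    calc (R : ℝ) ^ (1 / 4 : ℝ) ≤ (R : ℝ) ^ (1 : ℝ) := Real.rpow_le_rpow_of_exponent_le hR0 (by norm_num)
      _ = R := Real.rpow_one _
  have hvN : v ^ (C + 2) ≤ (N : ℝ) ^ (1 / 16 : ℝ) := by
    rw [hvC]
    calc (R : ℝ) ^ (1 / 4 : ℝ) ≤ ((N : ℝ) ^ (1 / 4 : ℝ)) ^ (1 / 4 : ℝ) := Real.rpow_le_rpow hR0'.le hR2 (by norm_num)
      _ = (N : ℝ) ^ (1 / 16 : ℝ) := by
          rw [← Real.rpow_mul hN0.le]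
          norm_num
  have hlv : Real.log N ^ 2 ≤ v := by
    have h1 : (Real.log N ^ (8 * (C + 2))) ^ ν ≤ v := by
      rw [hv]
      exact Real.rpow_le_rpow (by positivity) hR1 hν0.le
    have h2 : (Real.log N ^ (8 * (C + 2))) ^ ν = Real.log N ^ 2 := by
      rw [← Real.rpow_natCast, ← Real.rpow_mul (by linarith), ← Real.rpow_natCast]
      congr 1
      push_cast
      have : 8 * ((C : ℝ) + 2) * ν = 8 * (ν * (C + 2)) := by ring
      rw [this, hνC]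
      norm_num
    rw [← h2]
    exact h1
  obtain ⟨β, hβ⟩ : ∃ β, β = (t : ℝ) / M := ⟨_, rfl⟩
  rw [← hβ]
  obtain ⟨S, hS⟩ : ∃ S, S = Real.sqrt N := ⟨_, rfl⟩
  have hSS : S * S = N := by rw [hS]; exact Real.mul_self_sqrt hN0.le
  have hS0 : 0 < S := by rw [hS]; exact Real.sqrt_pos.2 hN0
  have hyS : (y : ℝ) ≤ S := by
    rw [hS]
    apply Real.le_sqrt_of_sq_le
    exact_mod_cast hy
  have hy0 : (0 : ℝ) ≤ y := Nat.cast_nonneg _
  have hyN : y ≤ N := le_trans (Nat.le_self_pow (by norm_num) _) hy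
  rcases le_or_gt (y * v) S with hcase | hcase
  · have h1 := SLam_triv h y N β hyN
    have h2 : (y * Real.log N) ^ 2 ≤ N / v := by
      rw [le_div_iff₀ hv0]
      calc (y * Real.log N) ^ 2 * v = (y ^ 2 * Real.log N ^ 2) * v := by ring
        _ ≤ (y ^ 2 * v) * v := by gcongr
        _ = (y * v) * (y * v) := by ring
        _ ≤ S * S := by gcongr
        _ = N := hSS
    exact (pow_le_pow_left₀ (norm_nonneg _) h1 2).trans h2
  · -- long sums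
    have hSv : S / v < y := by rwa [div_lt_iff₀ hv0]
    have hvle : v ≤ v ^ (C + 2) := le_self_pow₀ hv1 (by omega)
    have hNq : (N : ℝ) ^ (1 / 4 : ℝ) ≤ y := by
      have h1 : (N : ℝ) ^ (1 / 4 : ℝ) * v ≤ S := by
        calc (N : ℝ) ^ (1 / 4 : ℝ) * v ≤ (N : ℝ) ^ (1 / 4 : ℝ) * (N : ℝ) ^ (1 / 16 : ℝ) := by
              gcongr
              exact hvle.trans hvN
          _ = (N : ℝ) ^ (1 / 4 + 1 / 16 : ℝ) := by rw [← Real.rpow_add hN0]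
          _ ≤ (N : ℝ) ^ (1 / 2 : ℝ) := Real.rpow_le_rpow_of_exponent_le hN1r (by norm_num)
          _ = S := by rw [hS, Real.sqrt_eq_rpow]
      have h2 : (N : ℝ) ^ (1 / 4 : ℝ) ≤ S / v := by rwa [le_div_iff₀ hv0]
      linarith
    have hN1y : N₁ ≤ y := by
      have h1 : ((N₁ + 16 : ℕ) : ℝ) ≤ (N : ℝ) ^ (1 / 4 : ℝ) := by
        have h2 : (((N₁ + 16 : ℕ) : ℝ) ^ 4) ^ (1 / 4 : ℝ) ≤ (N : ℝ) ^ (1 / 4 : ℝ) := by
          apply Real.rpow_le_rpow (by positivity) _ (by norm_num)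
          exact_mod_cast hN
        rwa [← Real.rpow_natCast, ← Real.rpow_mul (by positivity), show ((4 : ℕ) : ℝ) * (1 / 4 : ℝ) = 1 by norm_num,
          Real.rpow_one] at h2
      have h3 : ((N₁ + 16 : ℕ) : ℝ) ≤ y := h1.trans hNq
      have h4 : N₁ + 16 ≤ y := by exact_mod_cast h3
      omega
    have hy1 : (1 : ℝ) ≤ y := by
      have : (1 : ℝ) ≤ (N : ℝ) ^ (1 / 4 : ℝ) := Real.one_le_rpow hN1r (by norm_num)
      linarith
    by_contra hcon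
    push Not at hcon
    have hbig : (y : ℝ) / v ≤ ‖SLam h y β‖ := by
      by_contra h1
      push Not at h1
      have h2 : ‖SLam h y β‖ ^ 2 ≤ (y / v) ^ 2 := pow_le_pow_left₀ (norm_nonneg _) h1.le 2
      have h3 : ((y : ℝ) / v) ^ 2 ≤ N / v := by
        rw [div_pow, div_le_div_iff₀ (by positivity) hv0]
        have h4 : (y : ℝ) ^ 2 ≤ N := by exact_mod_cast hy
        have h5 : v ≤ v ^ 2 := le_self_pow₀ hv1 (by norm_num)
        calc (y : ℝ) ^ 2 * v ≤ N * v ^ 2 := by gcongr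
          _ = _ := rfl
      linarith
    have hlogy : Real.log y ≤ v := by
      have h1 : Real.log y ≤ Real.log N := Real.log_le_log (by linarith) (by exact_mod_cast hyN)
      have h2 : Real.log N ≤ Real.log N ^ 2 := le_self_pow₀ hlog1 (by norm_num)
      linarith
    have hvy : v ^ C ≤ y := by
      calc v ^ C ≤ v ^ (C + 2) := pow_le_pow_right₀ hv1 (by omega)
        _ ≤ (N : ℝ) ^ (1 / 16 : ℝ) := hvN
        _ ≤ (N : ℝ) ^ (1 / 4 : ℝ) := Real.rpow_le_rpow_of_exponent_le hN1r (by norm_num)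
        _ ≤ y := hNq
    obtain ⟨q, hq1, hq2, a, ha⟩ := hmin y hN1y v hlogy hvy β hbig
    apply hnot
    rw [mem_mjr]
    have hqR : q ≤ R := by
      have h1 : (q : ℝ) ≤ R := hq2.trans ((pow_le_pow_right₀ hv1 (by omega)).trans hvR)
      exact_mod_cast h1
    refine ⟨ht, q, mem_Icc.2 ⟨hq1, hqR⟩, a, ?_⟩
    rw [← hβ]
    have hq0 : (0 : ℝ) < q := by exact_mod_cast hq1
    have e1 : |β - a / q| = |q * β - a| / q := by
      have : β - a / q = (q * β - a) / q := by field_simp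
      rw [this, abs_div, abs_of_pos hq0]
    rw [e1]
    have h2 : v ^ C / (y : ℝ) ^ 2 ≤ R / N := by
      rw [div_le_div_iff₀ (by positivity) hN0]
      have h3 : (N : ℝ) ≤ y ^ 2 * v ^ 2 := by
        calc (N : ℝ) = S * S := hSS.symm
          _ ≤ (y * v) * (y * v) := by gcongr
          _ = _ := by ring
      calc v ^ C * N ≤ v ^ C * (y ^ 2 * v ^ 2) := by gcongr
        _ = v ^ (C + 2) * y ^ 2 := by ring
        _ ≤ R * y ^ 2 := by gcongr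
    calc |q * β - a| / q ≤ (R / N) / q := by
          apply div_le_div_of_nonneg_right _ hq0.le
          exact ha.trans h2
      _ = R / (q * N) := by rw [div_div, mul_comm]

/-- the correlation over the primes -/
noncomputable def cvl (h : ℤ[X]) (G : ℕ → ℂ) (y N : ℕ) (n : ℤ) : ℂ :=
  ∑ m ∈ Icc 1 y, ((ArithmeticFunction.vonMangoldt m : ℝ) : ℂ) *
    ∑ l ∈ Icc 1 N, if (l : ℤ) + h.eval (m : ℤ) = n then G l else 0

lemma cvl_inv {h : ℤ[X]} {G : ℕ → ℂ} {y N M : ℕ} (hM0 : M ≠ 0) {n : ℤ}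
    (hcl : ∀ m ∈ Icc 1 y, ∀ l ∈ Icc 1 N, |(l : ℤ) + h.eval (m : ℤ) - n| < M) :
    (M : ℂ) * cvl h G y N n =
      ∑ t ∈ range M, (Gh G N ((t : ℝ) / M) * SLam h y ((t : ℝ) / M)) * ee (n * (-((t : ℝ) / M))) := by
  have h1 : ∀ t : ℕ, (Gh G N ((t : ℝ) / M) * SLam h y ((t : ℝ) / M)) * ee (n * (-((t : ℝ) / M))) =
      ∑ m ∈ Icc 1 y, ∑ l ∈ Icc 1 N, (((ArithmeticFunction.vonMangoldt m : ℝ) : ℂ) * G l) *
        ee ((((l : ℤ) + h.eval (m : ℤ) - n : ℤ) : ℝ) * ((t : ℝ) / M)) := by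
    intro t
    unfold Gh SLam
    rw [sum_mul_sum, sum_comm, sum_mul]
    refine sum_congr rfl fun m _ => ?_
    rw [sum_mul]
    refine sum_congr rfl fun l _ => ?_
    have e : ((((l : ℤ) + h.eval (m : ℤ) - n : ℤ) : ℝ) * ((t : ℝ) / M)) =
        (l : ℝ) * ((t : ℝ) / M) + ((((t : ℝ) / M) * ((h.eval (m : ℤ) : ℤ) : ℝ)) +
          (n : ℝ) * (-((t : ℝ) / M))) := by
      push_cast
      ring
    rw [e, Pool.Agent.H807R2.Dav.ee_add, Pool.Agent.H807R2.Dav.ee_add]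
    ring
  rw [sum_congr rfl fun t _ => h1 t, sum_comm]
  unfold cvl
  rw [mul_sum]
  refine sum_congr rfl fun m hm => ?_
  rw [sum_comm, mul_sum, mul_sum]
  refine sum_congr rfl fun l hl => ?_
  rw [← mul_sum, Pool.Agent.Y697.GJ.geo_sum hM0]
  have h2 := hcl m hm l hl
  by_cases h3 : (l : ℤ) + h.eval (m : ℤ) = n
  · rw [if_pos h3, if_pos (by rw [h3, sub_self]; exact dvd_zero _)]
    ring
  · rw [if_neg h3, if_neg, mul_zero, mul_zero, mul_zero]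
    intro h4
    apply h3
    have h5 := Int.eq_zero_of_abs_lt_dvd h4 h2
    linarith

/-- the part of the correlation from the frequencies of a set -/
noncomputable def Pl (h : ℤ[X]) (G : ℕ → ℂ) (y N M : ℕ) (P : Finset ℕ) (n : ℤ) : ℂ :=
  ∑ t ∈ P, (Gh G N ((t : ℝ) / M) * SLam h y ((t : ℝ) / M)) * ee (n * (-((t : ℝ) / M)))

lemma partl0 {h : ℤ[X]} {G : ℕ → ℂ} {y N M : ℕ} {D : Finset ℤ} (P : Finset ℕ) {W : ℝ}
    (hW : ∀ τ : ℝ, ∑ t ∈ P, ‖SS D (τ + t / M)‖ ≤ W) :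
    ∑ n ∈ D, ‖Pl h G y N M P n‖ ^ 2 ≤ W * ∑ t ∈ P, ‖Gh G N ((t : ℝ) / M)‖ ^ 2 * ‖SLam h y ((t : ℝ) / M)‖ ^ 2 := by
  unfold Pl
  refine (Pool.Agent.K9h59.CF.schur P D (fun t => Gh G N ((t : ℝ) / M) * SLam h y ((t : ℝ) / M))
    (fun t => -((t : ℝ) / M)) W ?_).trans (le_of_eq ?_)
  · intro i _
    refine le_trans (le_of_eq ?_) (hW (-((i : ℝ) / M)))
    refine sum_congr rfl fun j _ => ?_
    rw [sub_neg_eq_add]
  · congr 1
    refine sum_congr rfl fun t _ => ?_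
    rw [norm_mul, mul_pow]

lemma partl1 {h : ℤ[X]} {G : ℕ → ℂ} {y N M : ℕ} {D : Finset ℤ} (P : Finset ℕ) (hP : P ⊆ range M) {W Θ B : ℝ}
    (hW : ∀ τ : ℝ, ∑ t ∈ P, ‖SS D (τ + t / M)‖ ≤ W) (hW0 : 0 ≤ W) (hΘ0 : 0 ≤ Θ)
    (hΘ : ∀ t ∈ P, ‖SLam h y ((t : ℝ) / M)‖ ^ 2 ≤ Θ) (hNM : N < M) (hG : ∀ n ∈ Icc 1 N, ‖G n‖ ≤ B) :
    ∑ n ∈ D, ‖Pl h G y N M P n‖ ^ 2 ≤ W * (Θ * (M * (N * B ^ 2))) := by
  refine (partl0 P hW).trans ?_
  apply mul_le_mul_of_nonneg_left _ hW0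
  calc ∑ t ∈ P, ‖Gh G N ((t : ℝ) / M)‖ ^ 2 * ‖SLam h y ((t : ℝ) / M)‖ ^ 2 ≤
        ∑ t ∈ P, ‖Gh G N ((t : ℝ) / M)‖ ^ 2 * Θ := by
        refine sum_le_sum fun t ht => ?_
        exact mul_le_mul_of_nonneg_left (hΘ t ht) (sq_nonneg _)
    _ = Θ * ∑ t ∈ P, ‖Gh G N ((t : ℝ) / M)‖ ^ 2 := by rw [← sum_mul, mul_comm]
    _ ≤ Θ * ∑ t ∈ range M, ‖Gh G N ((t : ℝ) / M)‖ ^ 2 := by
        apply mul_le_mul_of_nonneg_left _ hΘ0
        exact sum_le_sum_of_subset_of_nonneg hP fun _ _ _ => sq_nonneg _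
    _ ≤ _ := mul_le_mul_of_nonneg_left (Pool.Agent.K9h59.CF.Gh_mean hNM hG) hΘ0

/-- the decomposition of the frequencies -/
lemma Pl_split {h : ℤ[X]} {G : ℕ → ℂ} {y N M : ℕ} (E : ℕ → Finset ℕ) (hE : ∀ j, E j ⊆ E (j + 1))
    (hEM : ∀ j, E j ⊆ range M) {i J : ℕ} (hiJ : i ≤ J) (n : ℤ) :
    Pl h G y N M (range M) n = Pl h G y N M (E i) n + ∑ j ∈ Ico i J, Pl h G y N M (E (j + 1) \ E j) n +
      Pl h G y N M (range M \ E J) n := by
  have h1 : ∀ A B : Finset ℕ, A ⊆ B → Pl h G y N M (B \ A) n = Pl h G y N M B n - Pl h G y N M A n := by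
    intro A B h
    unfold Pl
    rw [eq_sub_iff_add_eq]
    exact sum_sdiff h
  rw [h1 _ _ (hEM J), sum_congr rfl fun j _ => h1 _ _ (hE j),
    sum_Ico_sub (fun j => Pl h G y N M (E j) n) hiJ]
  ring

end Pool.Agent.K9h59.PA
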