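import Pool.Agent.K9h59.PA.Arc

set_option autoImplicit false

/-! The mean square of the correlation with a quadratic polynomial at the primes over a set with a small kernel. -/

namespace Pool.Agent.K9h59.PA

open Finset Polynomial
open Pool.Agent.R486.PD (SLam)
open Pool.Agent.R460.GS (ApAt)
open Pool.Agent.Y614.GJ.Core (ev_log)
open Pool.Agent.K9h59.CF (mjr mem_mjr mjr_sub mjr_mono card_mjr Gh_maj SS Gh Kern norm3)

theorem mean_lam (h : ℤ[X]) (hd : h.natDegree = 2) : ∃ κ₀ : ℝ, 0 < κ₀ ∧ κ₀ < 1 / 2 ∧ ∀ κ K : ℝ, 0 ≤ κ → κ ≤ κ₀ → 1 ≤ K →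
    ∀ C₁ A : ℕ, ∃ B U N₀ : ℕ, ∀ N : ℕ, N₀ ≤ N → ∀ M : ℕ, N < M → M ≤ C₁ * N → ∀ D : Finset ℤ, Kern κ K N M D →
      ∀ G : ℕ → ℂ, (∀ n ∈ Icc 1 N, ‖G n‖ ≤ Real.log N ^ 2) → ApAt N B U G → ∀ y : ℕ, y ^ 2 ≤ N →
      (∀ n ∈ D, ∀ m ∈ Icc 1 y, ∀ l ∈ Icc 1 N, |(l : ℤ) + h.eval (m : ℤ) - n| < M) →
      ∑ n ∈ D, ‖cvl h G y N n‖ ^ 2 ≤ D.card * (N / Real.log N ^ A) := by
  classical
  obtain ⟨ν, hν0, hν1, C₀, N₃, hSL⟩ := SL_le h hd
  refine ⟨ν / 16, by linarith, by linarith, fun κ K hκ0 hκν hK C₁ A => ?_⟩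
  obtain ⟨Kc, hKc⟩ : ∃ Kc, Kc = ⌈K⌉₊ := ⟨_, rfl⟩
  have hKKc : K ≤ Kc := by rw [hKc]; exact Nat.le_ceil _
  have hKc1 : (1 : ℝ) ≤ Kc := hK.trans hKKc
  have hKc1n : 1 ≤ Kc := by exact_mod_cast hKc1
  obtain ⟨ν', hν'⟩ : ∃ ν', ν' = ν - 2 * κ := ⟨_, rfl⟩
  have hν'0 : 0 < ν' := by rw [hν']; linarith
  obtain ⟨C, hC⟩ : ∃ C : ℕ, C = ⌈((A : ℝ) + 20) / ν'⌉₊ + C₀ := ⟨_, rfl⟩
  have hCν : (A : ℝ) + 20 ≤ C * ν' := by
    have h1 : ((A : ℝ) + 20) / ν' ≤ C := by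
      rw [hC]
      push_cast
      have := Nat.le_ceil (((A : ℝ) + 20) / ν')
      have h2 : (0 : ℝ) ≤ C₀ := Nat.cast_nonneg _
      linarith
    rwa [div_le_iff₀ hν'0] at h1
  have hCC₀ : C₀ ≤ C := by omega
  obtain ⟨U, hU⟩ : ∃ U, U = 4 * C + 4 + A + 20 := ⟨_, rfl⟩
  obtain ⟨N₁, hN₁⟩ := Filter.eventually_atTop.1 (ev_log (A + 8) (s := ν / 8) (by linarith)
    (100 + 200000 * (K * Kc) + 20000 * (K * C₁)))
  obtain ⟨N₂, hN₂⟩ := Filter.eventually_atTop.1 (ev_log (C + 2) (s := 1 / 4) (by norm_num) 1)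
  refine ⟨C + 1, U, N₁ + N₂ + N₃ + 1, fun N hN M hNM hMC D hKern G hG hAp y hy hcl => ?_⟩
  obtain ⟨hLb, hLp⟩ := hN₁ N (by omega)
  obtain ⟨-, hLp2⟩ := hN₂ N (by omega)
  have hSL' := hSL N (by omega)
  have hN1 : 1 ≤ N := by omega
  have hN0 : (0 : ℝ) < N := by exact_mod_cast hN1
  have hN1r : (1 : ℝ) ≤ N := by exact_mod_cast hN1
  have hM0 : (0 : ℝ) < M := by exact_mod_cast (by omega : 0 < M)
  have hNMr : (N : ℝ) ≤ M := by exact_mod_cast hNM.le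
  have hMCr : (M : ℝ) ≤ C₁ * N := by exact_mod_cast hMC
  have hC1 : 1 ≤ C₁ := by
    by_contra h0
    have : C₁ = 0 := by omega
    rw [this, zero_mul] at hMC
    omega
  have hC1r : (1 : ℝ) ≤ C₁ := by exact_mod_cast hC1
  obtain ⟨L, hL⟩ : ∃ L, L = Real.log (N : ℝ) := ⟨_, rfl⟩
  rw [← hL] at hLb hLp hLp2 hG hSL' ⊢
  have hK0 : 0 < K := by linarith
  have haK : 0 < K * Kc := by positivity
  have hKC : 0 < K * (C₁ : ℝ) := by positivity
  have hL100 : 100 ≤ L := by linarith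
  have hL0 : 0 < L := by linarith
  have hL1 : 1 ≤ L := by linarith
  have hLa : 200000 * (K * Kc) ≤ L := by linarith
  have hLc : 20000 * (K * C₁) ≤ L := by linarith
  have h1L : 1 + L ≤ 2 * L := by linarith
  have hKK : K ≤ K * Kc := by nlinarith
  have hKcK : (Kc : ℝ) ≤ K * Kc := by nlinarith
  obtain ⟨S, hS⟩ : ∃ S, S = (N : ℝ) ^ (1 / 4 : ℝ) := ⟨_, rfl⟩
  have hS4 : S ^ 4 = N := by
    rw [hS, ← Real.rpow_natCast, ← Real.rpow_mul hN0.le]
    norm_num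
  have hS0 : 0 < S := by rw [hS]; positivity
  rw [← hS] at hLp2
  have hLC1 : 1 ≤ L ^ C := one_le_pow₀ hL1
  have hSL100 : L ^ 2 ≤ S := (pow_le_pow_right₀ hL1 (by omega)).trans hLp2
  have hS1 : 1 ≤ S := (one_le_pow₀ hL1).trans hSL100
  -- the first level
  obtain ⟨j₀, hj₀⟩ : ∃ j, j = Nat.log 2 ⌈L ^ C⌉₊ + 1 := ⟨_, rfl⟩
  have hj1 : L ^ C ≤ (2 : ℝ) ^ j₀ := by
    have h1 : ⌈L ^ C⌉₊ < 2 ^ j₀ := by rw [hj₀]; exact Nat.lt_pow_succ_log_self (by norm_num) _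
    have h2 : (⌈L ^ C⌉₊ : ℝ) ≤ 2 ^ j₀ := by exact_mod_cast h1.le
    exact (Nat.le_ceil _).trans h2
  have hj2 : (2 : ℝ) ^ j₀ ≤ 4 * L ^ C := by
    have h0 : 0 < ⌈L ^ C⌉₊ := Nat.ceil_pos.2 (by linarith)
    have h1 : 2 ^ Nat.log 2 ⌈L ^ C⌉₊ ≤ ⌈L ^ C⌉₊ := Nat.pow_log_le_self 2 h0.ne'
    have h2 : (2 : ℝ) ^ Nat.log 2 ⌈L ^ C⌉₊ ≤ ⌈L ^ C⌉₊ := by exact_mod_cast h1
    have h3 := Nat.ceil_lt_add_one (show 0 ≤ L ^ C by linarith)
    rw [hj₀, pow_succ]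
    linarith
  -- the last level
  obtain ⟨J, hJ⟩ : ∃ J, J = Nat.log 2 ⌊S⌋₊ := ⟨_, rfl⟩
  have hfl0 : ⌊S⌋₊ ≠ 0 := (Nat.floor_pos.2 hS1).ne'
  have hJ1 : (2 : ℝ) ^ J ≤ S := by
    have h1 : 2 ^ J ≤ ⌊S⌋₊ := by rw [hJ]; exact Nat.pow_log_le_self 2 hfl0
    have h2 : ((2 ^ J : ℕ) : ℝ) ≤ (⌊S⌋₊ : ℝ) := by exact_mod_cast h1
    push_cast at h2
    exact h2.trans (Nat.floor_le hS0.le)
  have hJ2 : S ≤ 2 * 2 ^ J := by
    have h1 : ⌊S⌋₊ < 2 ^ (J + 1) := by rw [hJ]; exact Nat.lt_pow_succ_log_self (by norm_num) _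
    have h2 : (⌊S⌋₊ : ℝ) + 1 ≤ (2 : ℝ) ^ (J + 1) := by exact_mod_cast h1
    have h3 := Nat.lt_floor_add_one S
    rw [pow_succ] at h2
    linarith
  have hjJ : j₀ ≤ J := by
    have h1 : (2 : ℝ) ^ j₀ ≤ 2 ^ J := by
      have h2 : 2 * (4 * L ^ C) ≤ 2 * 2 ^ J := by
        calc 2 * (4 * L ^ C) = 8 * L ^ C := by ring
          _ ≤ L ^ 2 * L ^ C := by
              apply mul_le_mul_of_nonneg_right _ (by positivity)
              nlinarith
          _ = L ^ (C + 2) := by ring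
          _ ≤ S := hLp2
          _ ≤ _ := hJ2
      linarith
    have h2 : 2 ^ j₀ ≤ 2 ^ J := by exact_mod_cast h1
    exact (Nat.pow_le_pow_iff_right (by norm_num)).1 h2
  have hlevS : ∀ j, j ≤ J → (2 : ℝ) ^ j ≤ S := fun j hj => (pow_le_pow_right₀ (by norm_num) hj).trans hJ1
  have hlev : ∀ j, j ≤ J → (K : ℝ) * ((2 : ℝ) ^ j) ^ 2 ≤ N ∧ (2 ^ j) ^ 2 ≤ N := by
    intro j hj
    have h1 := hlevS j hj
    have h2 : ((2 : ℝ) ^ j) ^ 2 ≤ S ^ 2 := pow_le_pow_left₀ (by positivity) h1 2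
    have h3 : K ≤ S ^ 2 := by
      have h4 : K ≤ L := by linarith
      have h5 : L ≤ L ^ 2 := le_self_pow₀ hL1 (by norm_num)
      have h6 : S ≤ S ^ 2 := le_self_pow₀ hS1 (by norm_num)
      linarith
    have h4 : (1 : ℝ) * ((2 : ℝ) ^ j) ^ 2 ≤ N := by
      rw [← hS4]
      calc 1 * ((2 : ℝ) ^ j) ^ 2 ≤ S ^ 2 * S ^ 2 := by
            apply mul_le_mul (one_le_pow₀ hS1) h2 (by positivity) (by positivity)
        _ = S ^ 4 := by ring
    refine ⟨?_, ?_⟩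
    · rw [← hS4]
      calc K * ((2 : ℝ) ^ j) ^ 2 ≤ S ^ 2 * S ^ 2 := by gcongr
        _ = S ^ 4 := by ring
    · rw [one_mul] at h4
      exact_mod_cast h4
  have hJL : (J : ℝ) ≤ 2 * L := by
    have h1 : (2 : ℝ) ^ J ≤ N := by
      have h2 := (hlev J le_rfl).2
      have h3 : 2 ^ J ≤ N := le_trans (Nat.le_self_pow (by norm_num) _) h2
      exact_mod_cast h3
    have h2 := Real.log_le_log (by positivity) h1
    rw [Real.log_pow, ← hL] at h2
    have h3 := Real.log_two_gt_d9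
    have h4 : (0 : ℝ) ≤ J := Nat.cast_nonneg _
    nlinarith
  obtain ⟨E, hE⟩ : ∃ E : ℕ → Finset ℕ, E = fun j => mjr M N (2 ^ j) := ⟨_, rfl⟩
  have hEE : ∀ j, E j ⊆ E (j + 1) := by
    intro j
    rw [hE]
    apply mjr_mono
    exact Nat.pow_le_pow_right (by norm_num) (by omega)
  have hEM : ∀ j, E j ⊆ range M := by
    intro j
    rw [hE]
    exact mjr_sub _ _ _
  -- the kernel
  have hker : ∀ j, j ≤ J → ∀ τ : ℝ, ∑ t ∈ E j, ‖SS D (τ + t / M)‖ ≤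
      K * ((1 + L) * (D.card * ((2 : ℝ) ^ j) ^ (2 * κ))) := by
    intro j hj τ
    have h1 := hKern.maj (2 ^ j) (Nat.one_le_two_pow) (by
      push_cast
      exact (hlev j hj).1) τ
    rw [← hL] at h1
    push_cast at h1
    rw [hE]
    exact h1
  have hD0 : (0 : ℝ) ≤ D.card := Nat.cast_nonneg _
  obtain ⟨Q, hQ⟩ : ∃ Q, Q = (D.card : ℝ) * (N / L ^ A) := ⟨_, rfl⟩
  have hQ0 : 0 ≤ Q := by rw [hQ]; positivity
  -- the first term
  have t0 : ∑ n ∈ D, ‖Pl h G y N M (E j₀) n‖ ^ 2 ≤ (M : ℝ) ^ 2 * Q / 9 := by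
    obtain ⟨R, hR⟩ : ∃ R, R = 2 ^ j₀ := ⟨_, rfl⟩
    have hRr : (R : ℝ) = 2 ^ j₀ := by rw [hR]; push_cast; ring
    have hR1 : 1 ≤ R := by
      rw [hR]
      exact Nat.one_le_two_pow
    have hR1r : (1 : ℝ) ≤ R := by exact_mod_cast hR1
    have hRL : (R : ℝ) ≤ L ^ (C + 1) := by
      rw [hRr]
      calc (2 : ℝ) ^ j₀ ≤ 4 * L ^ C := hj2
        _ ≤ L * L ^ C := by
            apply mul_le_mul_of_nonneg_right _ (by positivity)
            linarith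
        _ = _ := by ring
    have hR2 : R ^ 2 ≤ N := by
      rw [hR]
      exact (hlev j₀ hjJ).2
    have hW0 : ∀ τ : ℝ, ∑ t ∈ E j₀, ‖SS D (τ + t / M)‖ ≤ K * (2 * L * (D.card * R)) := by
      intro τ
      refine (hker j₀ hjJ τ).trans ?_
      rw [← hRr]
      have h1 : (R : ℝ) ^ (2 * κ) ≤ R := by
        calc (R : ℝ) ^ (2 * κ) ≤ (R : ℝ) ^ (1 : ℝ) := Real.rpow_le_rpow_of_exponent_le hR1r (by linarith)
          _ = R := Real.rpow_one _
      gcongr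
    refine (partl0 (E j₀) hW0).trans ?_
    have hyN : y ≤ N := le_trans (Nat.le_self_pow (by norm_num) _) hy
    have h1 : ∑ t ∈ E j₀, ‖Gh G N ((t : ℝ) / M)‖ ^ 2 * ‖SLam h y ((t : ℝ) / M)‖ ^ 2 ≤
        (12 * C₁ * (R : ℝ) ^ 3) * ((8 * (R : ℝ) ^ 2 * (N / L ^ U)) ^ 2 * (N * L ^ 2)) := by
      have h2 : ∀ t ∈ E j₀, ‖Gh G N ((t : ℝ) / M)‖ ^ 2 * ‖SLam h y ((t : ℝ) / M)‖ ^ 2 ≤
          (8 * (R : ℝ) ^ 2 * (N / L ^ U)) ^ 2 * (N * L ^ 2) := by
        intro t ht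
        apply mul_le_mul _ _ (sq_nonneg _) (sq_nonneg _)
        · apply pow_le_pow_left₀ (norm_nonneg _)
          rw [hE] at ht
          simp only [← hR] at ht
          refine (Gh_maj hAp (by rw [← hL]; exact hRL) hN1 ht (by rw [← hL]; exact hL0.le)).trans ?_
          rw [← hL]
          have h3 : 1 + 7 * (R : ℝ) ≤ 8 * R := by linarith
          calc (R : ℝ) * ((N / L ^ U) * (1 + 7 * R)) ≤ R * ((N / L ^ U) * (8 * R)) := by gcongr
            _ = _ := by ring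
        · have h3 : ‖SLam h y ((t : ℝ) / M)‖ ≤ y * L := by
            rw [hL]
            exact SLam_triv h y N _ hyN
          calc ‖SLam h y ((t : ℝ) / M)‖ ^ 2 ≤ ((y : ℝ) * L) ^ 2 := pow_le_pow_left₀ (norm_nonneg _) h3 2
            _ = (y : ℝ) ^ 2 * L ^ 2 := by ring
            _ ≤ N * L ^ 2 := by
                have : (y : ℝ) ^ 2 ≤ N := by exact_mod_cast hy
                gcongr
      refine (sum_le_sum h2).trans ?_
      rw [sum_const, nsmul_eq_mul]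
      apply mul_le_mul_of_nonneg_right _ (by positivity)
      have h3 : ((E j₀).card : ℝ) ≤ R * ((R + 3) * (2 * (M * (R / N)) + 1)) := by
        rw [hE]
        simp only [← hR]
        exact card_mjr (by omega) hN1 hR2
      refine h3.trans ?_
      have h4 : 2 * ((M : ℝ) * (R / N)) + 1 ≤ 3 * C₁ * R := by
        have h5 : (M : ℝ) * (R / N) ≤ C₁ * R := by
          rw [mul_div_assoc', div_le_iff₀ hN0]
          nlinarith
        have h6 : (1 : ℝ) ≤ C₁ * R := by nlinarith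
        linarith
      calc (R : ℝ) * ((R + 3) * (2 * (M * (R / N)) + 1)) ≤ R * ((4 * R) * (3 * C₁ * R)) := by
            gcongr
            linarith
        _ = _ := by ring
    calc K * (2 * L * (D.card * R)) * ∑ t ∈ E j₀, ‖Gh G N ((t : ℝ) / M)‖ ^ 2 * ‖SLam h y ((t : ℝ) / M)‖ ^ 2 ≤
          K * (2 * L * (D.card * R)) * ((12 * C₁ * (R : ℝ) ^ 3) * ((8 * (R : ℝ) ^ 2 * (N / L ^ U)) ^ 2 * (N * L ^ 2))) := by
          apply mul_le_mul_of_nonneg_left h1 (by positivity)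
      _ = (1536 * (K * C₁) * L ^ 3 * (R : ℝ) ^ 8) * (D.card * N * N ^ 2) / L ^ (2 * U) := by
          rw [mul_comm 2 U, pow_mul]
          field_simp
          ring
      _ ≤ (1536 * (K * C₁) * L ^ 3 * (L ^ (C + 1)) ^ 8) * (D.card * N * M ^ 2) / L ^ (2 * U) := by gcongr
      _ ≤ (L * L ^ 3 * (L ^ (C + 1)) ^ 8) * (D.card * N * M ^ 2) / L ^ (2 * U) / 9 := by
          rw [div_div]
          rw [div_le_div_iff₀ (by positivity) (by positivity)]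
          have h5 : 9 * (1536 * (K * C₁)) ≤ L := by linarith
          have h6 : 0 ≤ L ^ 3 * (L ^ (C + 1)) ^ 8 * (D.card * N * M ^ 2) * L ^ (2 * U) := by positivity
          nlinarith
      _ ≤ (M : ℝ) ^ 2 * Q / 9 := by
          apply div_le_div_of_nonneg_right _ (by norm_num)
          rw [hQ, div_le_iff₀ (by positivity)]
          have h5 : L * L ^ 3 * (L ^ (C + 1)) ^ 8 * L ^ A ≤ L ^ (2 * U) := by
            calc L * L ^ 3 * (L ^ (C + 1)) ^ 8 * L ^ A = L ^ (8 * C + 12 + A) := by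
                  rw [← pow_mul]
                  ring
              _ ≤ _ := pow_le_pow_right₀ hL1 (by omega)
          have h6 : (M : ℝ) ^ 2 * (D.card * (N / L ^ A)) * L ^ (2 * U) =
              (D.card * N * M ^ 2) * (L ^ (2 * U) / L ^ A) := by
            field_simp
          rw [h6]
          have h7 : L * L ^ 3 * (L ^ (C + 1)) ^ 8 ≤ L ^ (2 * U) / L ^ A := by
            rw [le_div_iff₀ (by positivity)]
            exact h5
          calc L * L ^ 3 * (L ^ (C + 1)) ^ 8 * (D.card * N * M ^ 2) ≤ (L ^ (2 * U) / L ^ A) * (D.card * N * M ^ 2) := by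
                gcongr
            _ = _ := by ring
  -- the terms in the middle
  have tj : ∀ j ∈ Ico j₀ J, ∑ n ∈ D, ‖Pl h G y N M (E (j + 1) \ E j) n‖ ^ 2 ≤
      (K * (2 * L) * 2) * (D.card * N / L ^ (A + 20)) * (M * (N * L ^ 4)) := by
    intro j hj
    rw [mem_Ico] at hj
    have hjr : L ^ C ≤ (2 : ℝ) ^ j := hj1.trans (pow_le_pow_right₀ (by norm_num) hj.1)
    have h2j : (0 : ℝ) < 2 ^ j := by positivity
    have hW : ∀ τ : ℝ, ∑ t ∈ E (j + 1) \ E j, ‖SS D (τ + t / M)‖ ≤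
        K * (2 * L * (D.card * (2 * ((2 : ℝ) ^ j) ^ (2 * κ)))) := by
      intro τ
      have h1 : ∑ t ∈ E (j + 1) \ E j, ‖SS D (τ + t / M)‖ ≤ ∑ t ∈ E (j + 1), ‖SS D (τ + t / M)‖ :=
        sum_le_sum_of_subset_of_nonneg sdiff_subset fun _ _ _ => norm_nonneg _
      refine (h1.trans (hker (j + 1) (by omega) τ)).trans ?_
      have h2 : ((2 : ℝ) ^ (j + 1)) ^ (2 * κ) ≤ 2 * ((2 : ℝ) ^ j) ^ (2 * κ) := by
        have e : (2 : ℝ) ^ (j + 1) = 2 * 2 ^ j := by ring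
        rw [e, Real.mul_rpow (by positivity) (by positivity)]
        apply mul_le_mul_of_nonneg_right _ (by positivity)
        calc (2 : ℝ) ^ (2 * κ) ≤ (2 : ℝ) ^ (1 : ℝ) :=
              Real.rpow_le_rpow_of_exponent_le (by norm_num) (by linarith)
          _ = _ := Real.rpow_one _
      gcongr
    have hΘ : ∀ t ∈ E (j + 1) \ E j, ‖SLam h y ((t : ℝ) / M)‖ ^ 2 ≤ N / ((2 : ℝ) ^ j) ^ ν := by
      intro t ht
      rw [mem_sdiff] at ht
      have h1 := hSL' (2 ^ j) (by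
        push_cast
        refine le_trans ?_ hjr
        exact pow_le_pow_right₀ hL1 hCC₀) (by
        push_cast
        rw [← hS]
        exact hlevS j (by omega)) y hy M t (hEM _ ht.1) (by
        have h2 := ht.2
        rw [hE] at h2
        exact h2)
      push_cast at h1
      exact h1
    refine (partl1 (E (j + 1) \ E j) (sdiff_subset.trans (hEM _)) hW (by positivity) (by positivity) hΘ hNM hG).trans ?_
    have h3 : ((2 : ℝ) ^ j) ^ (2 * κ) / ((2 : ℝ) ^ j) ^ ν ≤ 1 / L ^ (A + 20) := by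
      have e1 : ((2 : ℝ) ^ j) ^ (2 * κ) / ((2 : ℝ) ^ j) ^ ν = 1 / ((2 : ℝ) ^ j) ^ ν' := by
        rw [hν', Real.rpow_sub h2j, one_div_div]
      rw [e1]
      apply one_div_le_one_div_of_le (by positivity)
      calc L ^ (A + 20) = L ^ ((A : ℝ) + 20) := by
            rw [← Real.rpow_natCast]
            push_cast
            rfl
        _ ≤ L ^ (C * ν') := Real.rpow_le_rpow_of_exponent_le hL1 hCν
        _ = (L ^ C) ^ ν' := by rw [Real.rpow_mul hL0.le, Real.rpow_natCast]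
        _ ≤ ((2 : ℝ) ^ j) ^ ν' := Real.rpow_le_rpow (by positivity) hjr hν'0.le
    calc K * (2 * L * (D.card * (2 * ((2 : ℝ) ^ j) ^ (2 * κ)))) * (N / ((2 : ℝ) ^ j) ^ ν * (M * (N * (L ^ 2) ^ 2)))
        = (K * (2 * L) * 2) * (D.card * N * (((2 : ℝ) ^ j) ^ (2 * κ) / ((2 : ℝ) ^ j) ^ ν)) * (M * (N * L ^ 4)) := by
          ring
      _ ≤ (K * (2 * L) * 2) * (D.card * N * (1 / L ^ (A + 20))) * (M * (N * L ^ 4)) := by
          gcongr
      _ = _ := by ring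
  have t1 : ∑ n ∈ D, ‖∑ j ∈ Ico j₀ J, Pl h G y N M (E (j + 1) \ E j) n‖ ^ 2 ≤ (M : ℝ) ^ 2 * Q / 9 := by
    obtain ⟨Z, hZ⟩ : ∃ Z, Z = (K * (2 * L) * 2) * (D.card * N / L ^ (A + 20)) * (M * (N * L ^ 4)) :=
      ⟨_, rfl⟩
    rw [← hZ] at tj
    have hZ0 : 0 ≤ Z := by rw [hZ]; positivity
    have hcard : ((Ico j₀ J).card : ℝ) ≤ 2 * L := by
      rw [Nat.card_Ico]
      have : ((J - j₀ : ℕ) : ℝ) ≤ J := by exact_mod_cast Nat.sub_le _ _
      linarith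
    have h1 : ∀ n ∈ D, ‖∑ j ∈ Ico j₀ J, Pl h G y N M (E (j + 1) \ E j) n‖ ^ 2 ≤
        (2 * L) * ∑ j ∈ Ico j₀ J, ‖Pl h G y N M (E (j + 1) \ E j) n‖ ^ 2 := by
      intro n _
      have h2 : ‖∑ j ∈ Ico j₀ J, Pl h G y N M (E (j + 1) \ E j) n‖ ^ 2 ≤
          (∑ j ∈ Ico j₀ J, ‖Pl h G y N M (E (j + 1) \ E j) n‖) ^ 2 :=
        pow_le_pow_left₀ (norm_nonneg _) (norm_sum_le _ _) 2
      refine (h2.trans sq_sum_le_card_mul_sum_sq).trans ?_
      exact mul_le_mul_of_nonneg_right hcard (sum_nonneg fun _ _ => sq_nonneg _)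
    calc ∑ n ∈ D, ‖∑ j ∈ Ico j₀ J, Pl h G y N M (E (j + 1) \ E j) n‖ ^ 2 ≤
          ∑ n ∈ D, (2 * L) * ∑ j ∈ Ico j₀ J, ‖Pl h G y N M (E (j + 1) \ E j) n‖ ^ 2 := sum_le_sum h1
      _ = (2 * L) * ∑ j ∈ Ico j₀ J, ∑ n ∈ D, ‖Pl h G y N M (E (j + 1) \ E j) n‖ ^ 2 := by
          rw [← mul_sum, sum_comm]
      _ ≤ (2 * L) * ∑ _j ∈ Ico j₀ J, Z := by
          apply mul_le_mul_of_nonneg_left (sum_le_sum tj) (by positivity)
      _ = (2 * L) * ((Ico j₀ J).card * Z) := by rw [sum_const, nsmul_eq_mul]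
      _ ≤ (2 * L) * ((2 * L) * Z) := by gcongr
      _ = (16 * K) * (D.card * N * (N * M)) * (L ^ 7 / L ^ (A + 20)) := by
          rw [hZ]
          ring
      _ ≤ (16 * K) * (D.card * N * (M * M)) * (L ^ 7 / L ^ (A + 20)) := by gcongr
      _ ≤ (M : ℝ) ^ 2 * Q / 9 := by
          have e1 : L ^ 7 / L ^ (A + 20) = 1 / (L ^ A * L ^ 13) := by
            rw [div_eq_div_iff (by positivity) (by positivity)]
            ring
          rw [e1, hQ]
          have h4 : 9 * (16 * K) ≤ L ^ 13 := by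
            have h5 : L ≤ L ^ 13 := le_self_pow₀ hL1 (by norm_num)
            linarith
          have e2 : (M : ℝ) ^ 2 * (D.card * (N / L ^ A)) / 9 = (D.card * N * (M * M)) * (1 / (9 * L ^ A)) := by
            field_simp
          have e3 : (16 * K) * (D.card * N * (M * M)) * (1 / (L ^ A * L ^ 13)) =
              (D.card * N * (M * M)) * ((16 * K) / (L ^ A * L ^ 13)) := by ring
          rw [e2, e3]
          apply mul_le_mul_of_nonneg_left _ (by positivity)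
          rw [div_le_div_iff₀ (by positivity) (by positivity), one_mul]
          have : 0 < L ^ A := by positivity
          nlinarith
  -- the last term
  have t2 : ∑ n ∈ D, ‖Pl h G y N M (range M \ E J) n‖ ^ 2 ≤ (M : ℝ) ^ 2 * Q / 9 := by
    have hW : ∀ τ : ℝ, ∑ t ∈ range M \ E J, ‖SS D (τ + t / M)‖ ≤ K * (D.card * (N : ℝ) ^ κ) := by
      intro τ
      have h1 : ∑ t ∈ range M \ E J, ‖SS D (τ + t / M)‖ ≤ ∑ t ∈ range M, ‖SS D (τ + t / M)‖ :=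
        sum_le_sum_of_subset_of_nonneg sdiff_subset fun _ _ _ => norm_nonneg _
      exact h1.trans (hKern.all τ)
    have hΘ : ∀ t ∈ range M \ E J, ‖SLam h y ((t : ℝ) / M)‖ ^ 2 ≤ 2 * ((N : ℝ) ^ (1 - ν / 4)) := by
      intro t ht
      rw [mem_sdiff] at ht
      have h1 := hSL' (2 ^ J) (by
        push_cast
        refine le_trans ?_ (hj1.trans (pow_le_pow_right₀ (by norm_num) hjJ))
        exact pow_le_pow_right₀ hL1 hCC₀) (by
        push_cast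
        rw [← hS]
        exact hJ1) y hy M t ht.1 (by
        have h2 := ht.2
        rw [hE] at h2
        exact h2)
      push_cast at h1
      refine h1.trans ?_
      have h2 : S ^ ν ≤ 2 * ((2 : ℝ) ^ J) ^ ν := by
        calc S ^ ν ≤ (2 * 2 ^ J) ^ ν := Real.rpow_le_rpow hS0.le hJ2 hν0.le
          _ = 2 ^ ν * ((2 : ℝ) ^ J) ^ ν := Real.mul_rpow (by norm_num) (by positivity)
          _ ≤ 2 * ((2 : ℝ) ^ J) ^ ν := by
              apply mul_le_mul_of_nonneg_right _ (by positivity)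
              calc (2 : ℝ) ^ ν ≤ (2 : ℝ) ^ (1 : ℝ) := Real.rpow_le_rpow_of_exponent_le (by norm_num) hν1
                _ = 2 := Real.rpow_one _
      have h3 : S ^ ν = (N : ℝ) ^ (ν / 4) := by
        rw [hS, ← Real.rpow_mul hN0.le]
        congr 1
        ring
      rw [div_le_iff₀ (by positivity)]
      have h4 : (N : ℝ) = (N : ℝ) ^ (1 - ν / 4) * (N : ℝ) ^ (ν / 4) := by
        rw [← Real.rpow_add hN0, sub_add_cancel, Real.rpow_one]
      calc (N : ℝ) = (N : ℝ) ^ (1 - ν / 4) * (N : ℝ) ^ (ν / 4) := h4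
        _ ≤ (N : ℝ) ^ (1 - ν / 4) * (2 * ((2 : ℝ) ^ J) ^ ν) := by
            rw [← h3]
            gcongr
        _ = _ := by ring
    refine (partl1 (range M \ E J) sdiff_subset hW (by positivity) (by positivity) hΘ hNM hG).trans ?_
    have h4 : (N : ℝ) ^ κ * (N : ℝ) ^ (1 - ν / 4) * L ^ (A + 8) ≤ N := by
      calc (N : ℝ) ^ κ * (N : ℝ) ^ (1 - ν / 4) * L ^ (A + 8) ≤
            (N : ℝ) ^ κ * (N : ℝ) ^ (1 - ν / 4) * (N : ℝ) ^ (ν / 8) := by gcongr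
        _ = (N : ℝ) ^ (κ + (1 - ν / 4) + ν / 8) := by
            rw [Real.rpow_add hN0, Real.rpow_add hN0]
        _ ≤ (N : ℝ) ^ (1 : ℝ) := Real.rpow_le_rpow_of_exponent_le hN1r (by linarith)
        _ = N := Real.rpow_one _
    obtain ⟨Z, hZ⟩ : ∃ Z, Z = (N : ℝ) ^ κ * (N : ℝ) ^ (1 - ν / 4) := ⟨_, rfl⟩
    rw [← hZ] at h4
    calc K * (D.card * (N : ℝ) ^ κ) * (2 * ((N : ℝ) ^ (1 - ν / 4)) * (M * (N * (L ^ 2) ^ 2)))
        = (2 * K) * L ^ 4 * Z * (D.card * N * M) := by rw [hZ]; ring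
      _ ≤ (L / 9) * L ^ 4 * Z * (D.card * N * M) := by
          have : 0 ≤ Z := by rw [hZ]; positivity
          gcongr
          linarith
      _ = (Z * L ^ (A + 5)) * (D.card * N * M) / L ^ A / 9 := by
          rw [pow_add L A 5]
          field_simp
      _ ≤ (Z * L ^ (A + 8)) * (D.card * N * M) / L ^ A / 9 := by
          have : 0 ≤ Z := by rw [hZ]; positivity
          have h5 : L ^ (A + 5) ≤ L ^ (A + 8) := pow_le_pow_right₀ hL1 (by omega)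
          gcongr
      _ ≤ N * (D.card * N * M) / L ^ A / 9 := by gcongr
      _ ≤ M * (D.card * N * M) / L ^ A / 9 := by gcongr
      _ = _ := by
          rw [hQ]
          ring
  -- the sum
  have hsum : (M : ℝ) ^ 2 * ∑ n ∈ D, ‖cvl h G y N n‖ ^ 2 ≤ (M : ℝ) ^ 2 * Q := by
    have h1 : ∀ n ∈ D, (M : ℝ) ^ 2 * ‖cvl h G y N n‖ ^ 2 ≤ 3 * (‖Pl h G y N M (E j₀) n‖ ^ 2 +
        ‖∑ j ∈ Ico j₀ J, Pl h G y N M (E (j + 1) \ E j) n‖ ^ 2 + ‖Pl h G y N M (range M \ E J) n‖ ^ 2) := by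
      intro n hn
      have h2 := cvl_inv (h := h) (G := G) (y := y) (N := N) (M := M) (by omega) (n := n) (hcl n hn)
      have h3 : (M : ℂ) * cvl h G y N n = Pl h G y N M (range M) n := h2
      have h4 : (M : ℝ) ^ 2 * ‖cvl h G y N n‖ ^ 2 = ‖Pl h G y N M (range M) n‖ ^ 2 := by
        rw [← h3, norm_mul, Complex.norm_natCast, mul_pow]
      rw [h4, Pl_split E hEE hEM hjJ n]
      exact norm3 _ _ _
    rw [mul_sum]
    refine (sum_le_sum h1).trans ?_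
    rw [← mul_sum, sum_add_distrib, sum_add_distrib]
    linarith
  have hM2 : 0 < (M : ℝ) ^ 2 := by positivity
  have := le_of_mul_le_mul_left hsum hM2
  rw [hQ] at this
  exact this

end Pool.Agent.K9h59.PA
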