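import Pool.Agent.K9h59.PA.Det
import Pool.Agent.K9h59.PA.Mean
import Pool.Agent.R460.SB.Main

/-! The sums over the absolute values of a quadratic polynomial at prime arguments. -/

set_option autoImplicit false

namespace Pool.Agent.K9h59.PA

open Finset Polynomial
open Pool.Agent.H373R2.T7 (lamz Vz pz Vz_pos nuB mem_pz)
open Pool.Agent.R460.SQ (DZ thp ppw vm_split ppw_nn sum_ppw)
open Pool.Agent.R460.SB (QS fv fv_neg fv_abs DZ_zero)
open Pool.Agent.K9h59.CF (Kern SS norm_SS_neg)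


/-- the polynomial without the constant term -/
noncomputable def hq (α γ : ℤ) : ℤ[X] := C α * X ^ 2 + C γ * X

lemma hq_eval (α γ m : ℤ) : (hq α γ).eval m = α * m ^ 2 + γ * m := by
  unfold hq
  simp

lemma hq_deg {α : ℤ} (γ : ℤ) (hα : α ≠ 0) : (hq α γ).natDegree = 2 := by
  unfold hq
  compute_degree!

lemma kern_neg {κ K : ℝ} {N M : ℕ} {D : Finset ℤ} (h : Kern κ K N M D) :
    Kern κ K N M (D.image (fun n => -n)) := by
  have hinj : Function.Injective (fun n : ℤ => -n) := neg_injective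
  have hc : (D.image (fun n => -n)).card = D.card := card_image_of_injective _ hinj
  have hS : ∀ x : ℝ, ‖SS (D.image (fun n => -n)) x‖ = ‖SS D x‖ := by
    intro x
    rw [← norm_SS_neg D x]
    unfold SS
    rw [sum_image (fun a _ b _ h => hinj h)]
    congr 1
    refine sum_congr rfl fun n _ => ?_
    congr 1
    push_cast
    ring
  refine ⟨fun τ => ?_, fun R hR hRN τ => ?_⟩
  · simp only [hS, hc]
    exact h.all τ
  · simp only [hS, hc]
    exact h.maj R hR hRN τ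

/-- the correlation as a sum over `m` -/
lemma cvl_fv {α γ : ℤ} {G : ℕ → ℂ} {y N : ℕ} {n : ℤ} (h : ∀ m ∈ Icc 1 y, |fv α γ n m| ≤ N) :
    cvl (hq α γ) G y N n = ∑ m ∈ Icc 1 y, ((ArithmeticFunction.vonMangoldt m : ℝ) : ℂ) *
      (if 1 ≤ fv α γ n m then G (fv α γ n m).natAbs else 0) := by
  unfold cvl
  refine sum_congr rfl fun m hm => ?_
  congr 1
  have h1 := abs_le.1 (h m hm)
  obtain ⟨f, hf⟩ : ∃ f, f = fv α γ n m := ⟨_, rfl⟩
  have hf' : f = n - (α * (m : ℤ) ^ 2 + γ * (m : ℤ)) := by rw [hf]; rfl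
  rw [← hf] at h1 ⊢
  have h2 : ∀ l : ℕ, (l : ℤ) + (hq α γ).eval (m : ℤ) = n ↔ (l : ℤ) = f := by
    intro l
    rw [hf', hq_eval]
    constructor <;> intro h <;> linarith
  simp only [h2]
  split_ifs with h3
  · rw [sum_eq_single f.natAbs]
    · rw [if_pos (by omega)]
    · intro l _ hl
      rw [if_neg]
      intro h4
      omega
    · intro h4
      exfalso
      apply h4
      rw [mem_Icc]
      omega
  · apply sum_eq_zero
    intro l hl
    rw [mem_Icc] at hl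
    rw [if_neg]
    intro h4
    omega

open Classical in
lemma lamz_fvl {α γ : ℤ} {y z : ℕ} {n : ℤ} :
    ∑ m ∈ Icc 1 y, ArithmeticFunction.vonMangoldt m * lamz z (fv α γ n m).natAbs =
      (Vz z)⁻¹ * ∑ m ∈ (Icc 1 y).filter (fun m : ℕ => ∀ p ∈ pz z, ¬ QS α γ n p m), ArithmeticFunction.vonMangoldt m := by
  rw [sum_filter, mul_sum]
  refine sum_congr rfl fun m _ => ?_
  unfold lamz QS
  have h4 : (∀ p ∈ pz z, ¬ p ∣ (fv α γ n m).natAbs) ↔
      ∀ p ∈ pz z, ¬ (p : ℤ) ∣ n - (α * (m : ℤ) ^ 2 + γ * (m : ℤ)) := by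
    have e : ∀ p : ℕ, p ∣ (fv α γ n m).natAbs ↔ (p : ℤ) ∣ n - (α * (m : ℤ) ^ 2 + γ * (m : ℤ)) :=
      fun p => Int.natCast_dvd.symm
    simp only [e]
  by_cases h5 : ∀ p ∈ pz z, ¬ (p : ℤ) ∣ n - (α * (m : ℤ) ^ 2 + γ * (m : ℤ))
  · rw [if_pos (h4.2 h5), if_pos h5]
    ring
  · rw [if_neg (fun hh => h5 (h4.1 hh)), if_neg h5]
    ring

/-- both signs together -/
lemma both_lam {α γ : ℤ} {y z N : ℕ} {n : ℤ} (hz : 2 ≤ z) (h : ∀ m ∈ Icc 1 y, |fv α γ n m| ≤ N) :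
    |∑ m ∈ Icc 1 y, ArithmeticFunction.vonMangoldt m * ArithmeticFunction.vonMangoldt (fv α γ n m).natAbs - ∑ m ∈ Icc 1 y, ArithmeticFunction.vonMangoldt m * lamz z (fv α γ n m).natAbs| ≤
      ‖cvl (hq α γ) (DZ z) y N n‖ + ‖cvl (hq (-α) (-γ)) (DZ z) y N (-n)‖ := by
  have h' : ∀ m ∈ Icc 1 y, |fv (-α) (-γ) (-n) m| ≤ N := by
    intro m hm
    rw [fv_neg, abs_neg]
    exact h m hm
  have e1 : ((∑ m ∈ Icc 1 y, ArithmeticFunction.vonMangoldt m * ArithmeticFunction.vonMangoldt (fv α γ n m).natAbs -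
      ∑ m ∈ Icc 1 y, ArithmeticFunction.vonMangoldt m * lamz z (fv α γ n m).natAbs : ℝ) : ℂ) =
      cvl (hq α γ) (DZ z) y N n + cvl (hq (-α) (-γ)) (DZ z) y N (-n) := by
    rw [cvl_fv h, cvl_fv h', ← sum_add_distrib, ← sum_sub_distrib]
    push_cast
    refine sum_congr rfl fun m _ => ?_
    rw [fv_neg, Int.natAbs_neg, ← mul_sub, ← mul_add]
    have e2 : ((ArithmeticFunction.vonMangoldt (fv α γ n m).natAbs : ℝ) : ℂ) - ((lamz z (fv α γ n m).natAbs : ℝ) : ℂ) =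
        DZ z (fv α γ n m).natAbs := by
      unfold DZ
      push_cast
      rfl
    rw [e2]
    congr 1
    rcases lt_trichotomy (fv α γ n m) 0 with h0 | h0 | h0
    · rw [if_neg (by omega), if_pos (by omega), zero_add]
    · rw [if_neg (by omega), if_neg (by omega), h0, Int.natAbs_zero, DZ_zero hz, add_zero]
    · rw [if_pos (by omega), if_neg (by omega), add_zero]
  calc _ = ‖((∑ m ∈ Icc 1 y, ArithmeticFunction.vonMangoldt m * ArithmeticFunction.vonMangoldt (fv α γ n m).natAbs -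
      ∑ m ∈ Icc 1 y, ArithmeticFunction.vonMangoldt m * lamz z (fv α γ n m).natAbs : ℝ) : ℂ)‖ := by
        rw [Complex.norm_real, Real.norm_eq_abs]
    _ ≤ _ := by
        rw [e1]
        exact norm_add_le _ _

lemma near_lam {α γ : ℤ} (hα : α ≠ 0) (C E : ℕ) : ∃ X₀ : ℕ, ∀ X : ℕ, X₀ ≤ X → ∀ z : ℕ, 2 ≤ z →
    (z : ℝ) ≤ Real.log X ^ E → (Vz z)⁻¹ ≤ Real.log X → ∀ (n : ℤ) (y N : ℕ), y ^ 2 ≤ X →
    (∀ m ∈ Icc 1 y, |fv α γ n m| ≤ N) →
    |∑ m ∈ Icc 1 y, ArithmeticFunction.vonMangoldt m * ArithmeticFunction.vonMangoldt (fv α γ n m).natAbs - SzP α γ n z * y| ≤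
      ‖cvl (hq α γ) (DZ z) y N n‖ + ‖cvl (hq (-α) (-γ)) (DZ z) y N (-n)‖ + Real.sqrt X / Real.log X ^ C := by
  classical
  obtain ⟨X₀, h0⟩ := det_lam (γ := γ) hα C E
  refine ⟨X₀, fun X hX z hz hzE hV n y N hy h => ?_⟩
  have h1 := h0 X hX z (by omega) hzE hV n y hy
  rw [← lamz_fvl] at h1
  have h2 := both_lam hz h
  have e : ∑ m ∈ Icc 1 y, ArithmeticFunction.vonMangoldt m * ArithmeticFunction.vonMangoldt (fv α γ n m).natAbs - SzP α γ n z * y =
      (∑ m ∈ Icc 1 y, ArithmeticFunction.vonMangoldt m * ArithmeticFunction.vonMangoldt (fv α γ n m).natAbs - ∑ m ∈ Icc 1 y, ArithmeticFunction.vonMangoldt m * lamz z (fv α γ n m).natAbs) +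
      (∑ m ∈ Icc 1 y, ArithmeticFunction.vonMangoldt m * lamz z (fv α γ n m).natAbs - SzP α γ n z * y) := by ring
  rw [e]
  exact (abs_add_le _ _).trans (add_le_add h2 h1)

lemma lam_fv_le {α γ n : ℤ} {X N y m : ℕ} (hN : (α.natAbs + γ.natAbs + 1) * X ≤ N) (hn : |n| ≤ X) (hy : y ^ 2 ≤ X)
    (hm : m ∈ Icc 1 y) : ArithmeticFunction.vonMangoldt (fv α γ n m).natAbs ≤ Real.log N := by
  have k2 := abs_le.1 (fv_abs hN hn hy hm)
  rcases Nat.eq_zero_or_pos (fv α γ n m).natAbs with h0 | h0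
  · simp only [h0, ArithmeticFunction.map_zero]
    exact Real.log_natCast_nonneg _
  · apply Pool.Agent.R460.GS.vm_le
    rw [mem_Icc]
    omega

lemma lam_m_le {y X N m : ℕ} (hXN : X ≤ N) (hy : y ^ 2 ≤ X) (hm : m ∈ Icc 1 y) : ArithmeticFunction.vonMangoldt m ≤ Real.log N := by
  apply Pool.Agent.R460.GS.vm_le
  rw [mem_Icc] at hm ⊢
  have h1 : y ≤ y ^ 2 := Nat.le_self_pow (by norm_num) y
  omega

/-- from one length to the grid -/
lemma gridl_step {α γ n : ℤ} {X N y s z : ℕ} (hN : (α.natAbs + γ.natAbs + 1) * X ≤ N) (hn : |n| ≤ X)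
    (hy : y ^ 2 ≤ X) (hs : 1 ≤ s) (hV : (Vz z)⁻¹ ≤ Real.log N) (hL : 1 ≤ Real.log N) :
    |∑ m ∈ Icc 1 y, ArithmeticFunction.vonMangoldt m * ArithmeticFunction.vonMangoldt (fv α γ n m).natAbs - SzP α γ n z * y| ≤
      |∑ m ∈ Icc 1 (y / s * s), ArithmeticFunction.vonMangoldt m * ArithmeticFunction.vonMangoldt (fv α γ n m).natAbs -
        SzP α γ n z * (y / s * s : ℕ)| + 2 * (s * Real.log N ^ 2) := by
  obtain ⟨y', hy'⟩ : ∃ y', y' = y / s * s := ⟨_, rfl⟩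
  rw [← hy']
  have h1 : y' ≤ y := by rw [hy']; exact Nat.div_mul_le_self y s
  have h2 : y ≤ y' + s := by
    rw [hy']
    have := Nat.div_add_mod y s
    have h3 := Nat.mod_lt y hs
    nlinarith
  have hXN : X ≤ N := by
    refine le_trans ?_ hN
    exact Nat.le_mul_of_pos_left _ (by omega)
  obtain ⟨s1, s2⟩ := SzP_bd α γ n z
  obtain ⟨f, hf⟩ : ∃ f : ℕ → ℝ, f = fun m : ℕ => ArithmeticFunction.vonMangoldt m * ArithmeticFunction.vonMangoldt (fv α γ n m).natAbs := ⟨_, rfl⟩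
  have hfe : ∀ k : ℕ, ∑ m ∈ Icc 1 k, ArithmeticFunction.vonMangoldt m * ArithmeticFunction.vonMangoldt (fv α γ n m).natAbs = ∑ m ∈ Icc 1 k, f m := by
    intro k
    rw [hf]
  rw [hfe, hfe]
  have e1 : ∑ m ∈ Icc 1 y, f m = ∑ m ∈ Icc 1 y', f m + ∑ m ∈ Ioc y' y, f m := by
    have e3 : ∀ y : ℕ, Icc 1 y = Ioc 0 y := by
      intro y
      ext b
      simp only [mem_Icc, mem_Ioc]
      omega
    rw [e3, e3, sum_Ioc_consecutive _ (Nat.zero_le _) h1]
  have h3 : 0 ≤ ∑ m ∈ Ioc y' y, f m := by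
    rw [hf]
    exact sum_nonneg fun _ _ => mul_nonneg ArithmeticFunction.vonMangoldt_nonneg ArithmeticFunction.vonMangoldt_nonneg
  have hcard : ((Ioc y' y).card : ℝ) ≤ s := by
    rw [Nat.card_Ioc]
    exact_mod_cast (by omega : y - y' ≤ s)
  have hlN : 0 ≤ Real.log N := Real.log_natCast_nonneg _
  have h4 : ∑ m ∈ Ioc y' y, f m ≤ s * Real.log N ^ 2 := by
    calc ∑ m ∈ Ioc y' y, f m ≤ ∑ _m ∈ Ioc y' y, Real.log N ^ 2 := by
          refine sum_le_sum fun m hm => ?_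
          rw [hf]
          rw [mem_Ioc] at hm
          have hm' : m ∈ Icc 1 y := by rw [mem_Icc]; omega
          simp only
          rw [sq]
          exact mul_le_mul (lam_m_le hXN hy hm') (lam_fv_le hN hn hy hm') ArithmeticFunction.vonMangoldt_nonneg hlN
      _ = ((Ioc y' y).card : ℝ) * Real.log N ^ 2 := by rw [sum_const, nsmul_eq_mul]
      _ ≤ s * Real.log N ^ 2 := mul_le_mul_of_nonneg_right hcard (by positivity)
  have h5 : (y : ℝ) - y' ≤ s := by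
    have : (y : ℝ) ≤ y' + s := by exact_mod_cast h2
    linarith
  have h5' : 0 ≤ (y : ℝ) - y' := by
    have : (y' : ℝ) ≤ y := by exact_mod_cast h1
    linarith
  have h6 : SzP α γ n z * ((y : ℝ) - y') ≤ s * Real.log N ^ 2 := by
    calc SzP α γ n z * ((y : ℝ) - y') ≤ Real.log N * s := by
          apply mul_le_mul (s2.trans hV) h5 h5' hlN
      _ = s * (Real.log N * 1) := by ring
      _ ≤ s * (Real.log N * Real.log N) := by
          apply mul_le_mul_of_nonneg_left _ (Nat.cast_nonneg _)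
          exact mul_le_mul_of_nonneg_left hL hlN
      _ = _ := by rw [sq]
  have h7 : 0 ≤ SzP α γ n z * ((y : ℝ) - y') := by positivity
  have e2 : ∑ m ∈ Icc 1 y, f m - SzP α γ n z * y = (∑ m ∈ Icc 1 y', f m - SzP α γ n z * y') +
      (∑ m ∈ Ioc y' y, f m - SzP α γ n z * ((y : ℝ) - y')) := by
    rw [e1]
    ring
  rw [e2]
  refine (abs_add_le _ _).trans (add_le_add le_rfl ?_)
  have h8 : 0 ≤ s * Real.log N ^ 2 := by positivity
  rw [abs_le]
  constructor <;> linarith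

lemma thp_nn (l : ℕ) : 0 ≤ thp l := by
  unfold thp
  split_ifs
  · exact Real.log_natCast_nonneg _
  · exact le_rfl

/-- removing the prime powers -/
lemma pp_both {α γ n : ℤ} {X N y Y : ℕ} (hN : (α.natAbs + γ.natAbs + 1) * X ≤ N) (hn : |n| ≤ X)
    (hy : y ≤ Y) (hY : Y ^ 2 ≤ X) :
    |∑ m ∈ Icc 1 y, thp m * thp (fv α γ n m).natAbs - ∑ m ∈ Icc 1 y, ArithmeticFunction.vonMangoldt m * ArithmeticFunction.vonMangoldt (fv α γ n m).natAbs| ≤
      Real.log N * ∑ m ∈ Icc 1 Y, ppw m + Real.log N * ∑ m ∈ Icc 1 Y, ppw (fv α γ n m).natAbs := by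
  have hXN : X ≤ N := by
    refine le_trans ?_ hN
    exact Nat.le_mul_of_pos_left _ (by omega)
  have hlN : 0 ≤ Real.log N := Real.log_natCast_nonneg _
  have hsub : Icc 1 y ⊆ Icc 1 Y := Icc_subset_Icc le_rfl hy
  have h1 : ∀ m ∈ Icc 1 y, ArithmeticFunction.vonMangoldt m * ArithmeticFunction.vonMangoldt (fv α γ n m).natAbs - thp m * thp (fv α γ n m).natAbs =
      ppw m * ArithmeticFunction.vonMangoldt (fv α γ n m).natAbs + thp m * ppw (fv α γ n m).natAbs := by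
    intro m _
    have e1 := vm_split m
    have e2 := vm_split (fv α γ n m).natAbs
    rw [e1, e2]
    ring
  have h2 : ∑ m ∈ Icc 1 y, thp m * thp (fv α γ n m).natAbs - ∑ m ∈ Icc 1 y, ArithmeticFunction.vonMangoldt m * ArithmeticFunction.vonMangoldt (fv α γ n m).natAbs =
      -(∑ m ∈ Icc 1 y, (ppw m * ArithmeticFunction.vonMangoldt (fv α γ n m).natAbs + thp m * ppw (fv α γ n m).natAbs)) := by
    rw [← sum_congr rfl h1, sum_sub_distrib]
    ring
  have h3 : 0 ≤ ∑ m ∈ Icc 1 y, (ppw m * ArithmeticFunction.vonMangoldt (fv α γ n m).natAbs + thp m * ppw (fv α γ n m).natAbs) := by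
    refine sum_nonneg fun m _ => ?_
    have := ppw_nn m
    have := ppw_nn (fv α γ n m).natAbs
    have := thp_nn m
    have : 0 ≤ ArithmeticFunction.vonMangoldt (fv α γ n m).natAbs := ArithmeticFunction.vonMangoldt_nonneg
    positivity
  rw [h2, abs_neg, abs_of_nonneg h3, sum_add_distrib, mul_sum, mul_sum]
  apply add_le_add
  · calc ∑ m ∈ Icc 1 y, ppw m * ArithmeticFunction.vonMangoldt (fv α γ n m).natAbs ≤ ∑ m ∈ Icc 1 y, Real.log N * ppw m := by
          refine sum_le_sum fun m hm => ?_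
          rw [mul_comm]
          exact mul_le_mul_of_nonneg_right (lam_fv_le hN hn hY (hsub hm)) (ppw_nn m)
      _ ≤ _ := sum_le_sum_of_subset_of_nonneg hsub fun m _ _ => mul_nonneg hlN (ppw_nn m)
  · calc ∑ m ∈ Icc 1 y, thp m * ppw (fv α γ n m).natAbs ≤ ∑ m ∈ Icc 1 y, Real.log N * ppw (fv α γ n m).natAbs := by
          refine sum_le_sum fun m hm => ?_
          apply mul_le_mul_of_nonneg_right _ (ppw_nn _)
          refine le_trans ?_ (lam_m_le hXN hY (hsub hm))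
          have := vm_split m
          have := ppw_nn m
          linarith
      _ ≤ _ := sum_le_sum_of_subset_of_nonneg hsub fun m _ _ => mul_nonneg hlN (ppw_nn _)

/-- Chebyshev's inequality on a grid -/
lemma grid_cheb {Tg : ℕ} (D H : Finset ℤ) (W : ℕ → ℤ → ℝ) {R t : ℝ} (hH : H ⊆ D)
    (hms : ∀ i ∈ range (Tg + 1), ∑ n ∈ D, W i n ^ 2 ≤ R)
    (hbig : ∀ n ∈ H, ∃ i ∈ range (Tg + 1), t ≤ W i n) (ht : 0 < t) :
    (H.card : ℝ) ≤ (Tg + 1) * R / t ^ 2 := by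
  rw [le_div_iff₀ (by positivity)]
  have h1 : ∀ n ∈ H, t ^ 2 ≤ ∑ i ∈ range (Tg + 1), W i n ^ 2 := by
    intro n hn
    obtain ⟨i, hi, h2⟩ := hbig n hn
    have h3 : W i n ^ 2 ≤ ∑ i ∈ range (Tg + 1), W i n ^ 2 :=
      single_le_sum (f := fun i => W i n ^ 2) (fun i _ => sq_nonneg _) hi
    refine le_trans ?_ h3
    exact pow_le_pow_left₀ ht.le h2 2
  have h2 : ∀ i ∈ range (Tg + 1), ∑ n ∈ H, W i n ^ 2 ≤ R := by
    intro i hi
    refine le_trans ?_ (hms i hi)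
    exact sum_le_sum_of_subset_of_nonneg hH fun n _ _ => sq_nonneg _
  calc (H.card : ℝ) * t ^ 2 = ∑ _n ∈ H, t ^ 2 := by rw [sum_const, nsmul_eq_mul]
    _ ≤ ∑ n ∈ H, ∑ i ∈ range (Tg + 1), W i n ^ 2 := sum_le_sum h1
    _ = ∑ i ∈ range (Tg + 1), ∑ n ∈ H, W i n ^ 2 := sum_comm
    _ ≤ ∑ _i ∈ range (Tg + 1), R := sum_le_sum fun i hi => h2 i hi
    _ = (Tg + 1) * R := by rw [sum_const, card_range, nsmul_eq_mul]; push_cast; ring

/-- the differences are small -/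
lemma hq_small {α γ n : ℤ} {X N hh y m l : ℕ} (hhh : hh = α.natAbs + γ.natAbs + 1) (hXN : X ≤ N) (hn : |n| ≤ X)
    (hy : y ^ 2 ≤ N) (hm : m ∈ Icc 1 y) (hl : l ∈ Icc 1 N) :
    |(l : ℤ) + (hq α γ).eval (m : ℤ) - n| < ((2 * hh * N + 1 : ℕ) : ℤ) := by
  rw [hq_eval]
  rw [mem_Icc] at hm hl
  have k1 := abs_le.1 hn
  have hm2 : (m : ℤ) ^ 2 ≤ N := by
    have : m ^ 2 ≤ N := (Nat.pow_le_pow_left hm.2 2).trans hy
    exact_mod_cast this
  have hm3 : (m : ℤ) ≤ N := by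
    have h6 : m ≤ m ^ 2 := Nat.le_self_pow (by norm_num) m
    have : m ≤ N := h6.trans (by exact_mod_cast hm2)
    exact_mod_cast this
  have hm0 : (0 : ℤ) ≤ m := Int.natCast_nonneg _
  have hl' : (l : ℤ) ≤ N := by exact_mod_cast hl.2
  have hl0 : (1 : ℤ) ≤ l := by exact_mod_cast hl.1
  have hXN' : (X : ℤ) ≤ N := by exact_mod_cast hXN
  have k2 : |α * (m : ℤ) ^ 2 + γ * (m : ℤ)| ≤ (|α| + |γ|) * N := by
    refine (abs_add_le _ _).trans ?_
    rw [abs_mul, abs_mul, abs_of_nonneg (sq_nonneg (m : ℤ)), abs_of_nonneg hm0, add_mul]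
    exact add_le_add (mul_le_mul_of_nonneg_left hm2 (abs_nonneg _)) (mul_le_mul_of_nonneg_left hm3 (abs_nonneg _))
  have k3 := abs_le.1 k2
  have k4 : ((2 * hh * N + 1 : ℕ) : ℤ) = 2 * (|α| + |γ| + 1) * N + 1 := by
    rw [hhh]
    push_cast
    ring
  rw [k4, abs_lt]
  have k5 : 0 ≤ (|α| + |γ|) * (N : ℤ) := by positivity
  constructor <;> linarith [k1.1, k1.2, k3.1, k3.2]

end Pool.Agent.K9h59.PA
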