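import Pool.Agent.K9h59.PA.Abs
import Pool.Agent.K9h59.CF.Cn

/-! The number of the exceptional integers in a set with a small kernel, for prime arguments. -/

set_option autoImplicit false

namespace Pool.Agent.K9h59.PA

open Finset Polynomial
open Pool.Agent.H373R2.T7 (lamz Vz pz Vz_pos Vz_inv_small lamz_ap lam_ap mem_pz)
open Pool.Agent.R460.GS (ApAt)
open Pool.Agent.Y614.GJ.Core (ev_log)
open Pool.Agent.R460.SQ (thp ppw vm_split ppw_nn sum_ppw DZ ap_DZ bd_DZ)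
open Pool.Agent.R460.SB (fv fv_abs fv_neg pp_count)
open Pool.Agent.K9h59.CF (Kern)


lemma ax1 {h : ℝ} (h1 : 1 ≤ h) : h ≤ (h + 1) ^ 2 := by nlinarith

lemma ax2 {h N : ℕ} (h1 : 1 ≤ h) (hN : 1 ≤ N) : N < 2 * h * N + 1 ∧ 2 * h * N + 1 ≤ (2 * h + 1) * N := by
  constructor <;> nlinarith

lemma ax3 {s M : ℝ} (h : s * s = M) (h1 : 1 ≤ s) : s ≤ M := by nlinarith

lemma ax4 {h : ℝ} (h1 : 1 ≤ h) : h ≤ h ^ 2 := by nlinarith

lemma ax5 {h L : ℝ} (h0 : 128 * (h + 1) ^ 2 ≤ L) (hL : 100 ≤ L) (h1 : 1 ≤ h) : 256 * h ≤ L ^ 2 := by nlinarith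

lemma ax6 {L : ℝ} (hL : 100 ≤ L) : 16 * 4 ≤ 1 * L ^ 2 := by nlinarith

lemma ax7 (x y : ℝ) : (x + y) ^ 2 ≤ 2 * x ^ 2 + 2 * y ^ 2 := by nlinarith [sq_nonneg (x - y)]

lemma ax8 {h L : ℝ} (h0 : 128 * (h + 1) ^ 2 ≤ L) (hL : L ≤ L ^ 4) (h1 : 1 ≤ h) : 64 * h * 2 ≤ 1 * L ^ 4 := by nlinarith

/-- the property of the integer `n` -/
def GoodL (α γ : ℤ) (C X z : ℕ) (n : ℤ) : Prop :=
  ∀ y : ℕ, y ^ 2 ≤ X →
    |∑ m ∈ Icc 1 y, thp m * thp (fv α γ n m).natAbs - SzP α γ n z * y| ≤ Real.sqrt X / Real.log X ^ C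

open Classical in
theorem cnt_lam {a b : ℤ} (ha : a ≠ 0) : ∃ κ₀ : ℝ, 0 < κ₀ ∧ κ₀ < 1 / 2 ∧ ∀ κ K : ℝ, 0 ≤ κ → κ ≤ κ₀ → 1 ≤ K →
    ∀ δ : ℝ, 0 < δ → ∀ A C : ℕ,
    ∃ B : ℕ, ∀ E : ℕ, ∃ X₀ : ℕ, ∀ X : ℕ, X₀ ≤ X → ∀ z : ℕ, Real.log X ^ B ≤ z → (z : ℝ) ≤ Real.log X ^ E →
      ∀ D : Finset ℤ, (∀ n ∈ D, |n| ≤ X) → (X : ℝ) ^ (1 / 2 + δ) ≤ D.card →
      Kern κ K ((a.natAbs + b.natAbs + 1) * X) (2 * (a.natAbs + b.natAbs + 1) * ((a.natAbs + b.natAbs + 1) * X) + 1) D →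
      ((D.filter (fun c : ℤ => ¬ GoodL (-a) (-b) C X z c)).card : ℝ) ≤ D.card / Real.log X ^ A := by
  obtain ⟨κ₁, hκ₁0, hκ₁, hm1⟩ := mean_lam (hq (-a) (-b)) (hq_deg _ (neg_ne_zero.2 ha))
  obtain ⟨κ₂, hκ₂0, hκ₂, hm2⟩ := mean_lam (hq a b) (hq_deg _ ha)
  refine ⟨min κ₁ κ₂, lt_min hκ₁0 hκ₂0, lt_of_le_of_lt (min_le_left _ _) hκ₁, fun κ K hκ0 hκ hK δ hδ A C => ?_⟩
  obtain ⟨A', hA'⟩ : ∃ A', A' = A + 3 * C + 9 := ⟨_, rfl⟩
  obtain ⟨hh, hhh⟩ : ∃ hh, hh = a.natAbs + b.natAbs + 1 := ⟨_, rfl⟩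
  obtain ⟨B₁, U₁, N₁, h1⟩ := hm1 κ K hκ0 (hκ.trans (min_le_left _ _)) hK (2 * hh + 1) A'
  obtain ⟨B₂, U₂, N₁', h1'⟩ := hm2 κ K hκ0 (hκ.trans (min_le_right _ _)) hK (2 * hh + 1) A'
  obtain ⟨B₀, hB₀⟩ : ∃ B₀, B₀ = B₁ + B₂ := ⟨_, rfl⟩
  refine ⟨B₀ + 1, fun E => ?_⟩
  obtain ⟨N₂, hlz⟩ := lamz_ap E (U₁ + 1)
  obtain ⟨N₃, hla⟩ := lam_ap B₁ (U₁ + 1)
  obtain ⟨N₂', hlz'⟩ := lamz_ap E (U₂ + 1)
  obtain ⟨N₃', hla'⟩ := lam_ap B₂ (U₂ + 1)
  obtain ⟨N₄, hVz⟩ := Vz_inv_small E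
  obtain ⟨X₁, h2⟩ := near_lam (α := -a) (γ := -b) (neg_ne_zero.2 ha) (C + 1) E
  obtain ⟨X₂, h3⟩ := Filter.eventually_atTop.1 (ev_log (A + C + 5) (s := min δ (1 / 4)) (by positivity)
    (2 ^ B₀ + 100 + 128 * ((hh : ℝ) + 1) ^ 2))
  refine ⟨N₁ + N₂ + N₃ + N₁' + N₂' + N₃' + N₄ + X₁ + X₂ + 3, fun X hX z hz1 hz2 D hDX hDc hKern => ?_⟩
  rw [← hhh] at hKern
  have hX1 : 1 ≤ X := by omega
  have hX0 : (0 : ℝ) < X := by exact_mod_cast hX1
  have hX1r : (1 : ℝ) ≤ X := by exact_mod_cast hX1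
  obtain ⟨hLb, hLp⟩ := h3 X (by omega)
  have c2 := h2 X (by omega)
  obtain ⟨N, hN⟩ : ∃ N, N = hh * X := ⟨_, rfl⟩
  rw [← hN] at hKern
  have hh1 : 1 ≤ hh := by omega
  have hh1r : (1 : ℝ) ≤ hh := by exact_mod_cast hh1
  have hXN : X ≤ N := by
    rw [hN]
    exact Nat.le_mul_of_pos_left _ hh1
  have hNr : (N : ℝ) = hh * X := by
    rw [hN]
    push_cast
    ring
  have hN0 : (0 : ℝ) < N := by rw [hNr]; positivity
  have hL2 : Real.log X ≤ Real.log N := Real.log_le_log hX0 (by exact_mod_cast hXN)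
  have h2B : (1 : ℝ) ≤ 2 ^ B₀ := one_le_pow₀ (by norm_num)
  have hg2 : 0 ≤ ((hh : ℝ) + 1) ^ 2 := sq_nonneg _
  have hgg : (hh : ℝ) ≤ ((hh : ℝ) + 1) ^ 2 := ax1 hh1r
  have hL3 : Real.log N ≤ 2 * Real.log X := by
    rw [hNr, Real.log_mul (by positivity) hX0.ne']
    have h6 : Real.log hh ≤ hh := (Real.log_le_sub_one_of_pos (by linarith)).trans (by linarith)
    linarith
  have hbdX := hVz X (by omega)
  have hbdN := hVz N (by omega)
  have hl1 := hlz N (by omega)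
  have hl2 := hla N (by omega)
  have hl1' := hlz' N (by omega)
  have hl2' := hla' N (by omega)
  have c1 := h1 N (by omega)
  have c1' := h1' N (by omega)
  obtain ⟨L, hLd⟩ : ∃ L, L = Real.log (X : ℝ) := ⟨_, rfl⟩
  rw [← hLd] at hLb hLp c2 hL2 hL3 hz1 hz2 hbdX ⊢
  have hL100 : 100 ≤ L := by linarith
  have hg32 : 128 * ((hh : ℝ) + 1) ^ 2 ≤ L := by linarith
  have hL0 : 0 < L := by linarith
  have hL1 : 1 ≤ L := by linarith
  have hL0' : 0 < Real.log N := by linarith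
  have hL1' : 1 ≤ Real.log N := by linarith
  have hL2' : 2 ≤ Real.log N := by linarith
  have hzB : Real.log N ^ B₀ ≤ z := by
    calc Real.log N ^ B₀ ≤ (2 * L) ^ B₀ := pow_le_pow_left₀ hL0'.le hL3 _
      _ = 2 ^ B₀ * L ^ B₀ := mul_pow _ _ _
      _ ≤ L * L ^ B₀ := mul_le_mul_of_nonneg_right (by linarith) (by positivity)
      _ = L ^ (B₀ + 1) := by ring
      _ ≤ z := hz1
  have hzB1 : Real.log N ^ B₁ ≤ z := (pow_le_pow_right₀ hL1' (by omega)).trans hzB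
  have hzB2 : Real.log N ^ B₂ ≤ z := (pow_le_pow_right₀ hL1' (by omega)).trans hzB
  have hz2' : 2 ≤ z := by
    have h6 : L ^ 1 ≤ L ^ (B₀ + 1) := pow_le_pow_right₀ hL1 (by omega)
    have : (2 : ℝ) ≤ z := by linarith
    exact_mod_cast this
  have hz2N : (z : ℝ) ≤ Real.log N ^ E := hz2.trans (pow_le_pow_left₀ hL0.le hL2 _)
  have hVN : (Vz z)⁻¹ ≤ Real.log N := hbdN z (by omega) hz2N
  have hVX : (Vz z)⁻¹ ≤ L := hbdX z (by omega) hz2
  have hAp : ApAt N B₁ U₁ (DZ z) := by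
    refine ap_DZ hL2' ?_ hl2
    intro q hq hqK c y hy
    refine hl1 z (by omega) hz2N q hq ?_ c y hy
    exact_mod_cast hqK.trans hzB1
  have hAp' : ApAt N B₂ U₂ (DZ z) := by
    refine ap_DZ hL2' ?_ hl2'
    intro q hq hqK c y hy
    refine hl1' z (by omega) hz2N q hq ?_ c y hy
    exact_mod_cast hqK.trans hzB2
  -- the mean squares
  obtain ⟨R, hR⟩ : ∃ R, R = (D.card : ℝ) * (N / Real.log N ^ A') := ⟨_, rfl⟩
  have hms1 : ∀ y : ℕ, y ^ 2 ≤ N → ∑ n ∈ D, ‖cvl (hq (-a) (-b)) (DZ z) y N n‖ ^ 2 ≤ R := by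
    intro y hy
    rw [hR]
    apply c1 (2 * hh * N + 1) (ax2 hh1 (hX1.trans hXN)).1 (ax2 hh1 (hX1.trans hXN)).2 D hKern (DZ z) (fun n hn => bd_DZ hVN hL1' hn) hAp y hy
    intro n hn m hm l hl
    exact hq_small (α := -a) (γ := -b) (by rw [Int.natAbs_neg, Int.natAbs_neg]; exact hhh) hXN (hDX n hn) hy hm hl
  have hms2 : ∀ y : ℕ, y ^ 2 ≤ N → ∑ n ∈ D, ‖cvl (hq a b) (DZ z) y N (-n)‖ ^ 2 ≤ R := by
    intro y hy
    have hinj : Function.Injective (fun n : ℤ => -n) := neg_injective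
    have hc : (D.image (fun n => -n)).card = D.card := card_image_of_injective _ hinj
    have h4 : ∑ n ∈ D.image (fun n => -n), ‖cvl (hq a b) (DZ z) y N n‖ ^ 2 =
        ∑ n ∈ D, ‖cvl (hq a b) (DZ z) y N (-n)‖ ^ 2 := by
      rw [sum_image (fun a _ b _ h => hinj h)]
    rw [← h4, hR, ← hc]
    apply c1' (2 * hh * N + 1) (ax2 hh1 (hX1.trans hXN)).1 (ax2 hh1 (hX1.trans hXN)).2 _ (kern_neg hKern) (DZ z)
      (fun n hn => bd_DZ hVN hL1' hn) hAp' y hy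
    intro n hn m hm l hl
    rw [mem_image] at hn
    obtain ⟨n', hn', rfl⟩ := hn
    exact hq_small (α := a) (γ := b) hhh hXN (by rw [abs_neg]; exact hDX n' hn') hy hm hl
  obtain ⟨M, hM⟩ : ∃ M, M = Real.sqrt X := ⟨_, rfl⟩
  have hM0 : 0 < M := by rw [hM]; exact Real.sqrt_pos.2 hX0
  have hMM : M * M = X := by rw [hM]; exact Real.mul_self_sqrt hX0.le
  have hMr : M = (X : ℝ) ^ (1 / 2 : ℝ) := by rw [hM, Real.sqrt_eq_rpow]
  have hM4 : Real.sqrt M = (X : ℝ) ^ (1 / 4 : ℝ) := by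
    rw [hMr, Real.sqrt_eq_rpow, ← Real.rpow_mul hX0.le]
    norm_num
  have hM4M : Real.sqrt M * Real.sqrt M = M := Real.mul_self_sqrt hM0.le
  have hM40 : 0 < Real.sqrt M := Real.sqrt_pos.2 hM0
  have hML4 : L ^ (C + 5) ≤ Real.sqrt M := by
    rw [hM4]
    refine le_trans ?_ (hLp.trans (Real.rpow_le_rpow_of_exponent_le hX1r (min_le_right _ _)))
    exact pow_le_pow_right₀ hL1 (by omega)
  have hM41 : 1 ≤ Real.sqrt M := (one_le_pow₀ hL1).trans hML4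
  have hML : L ^ (C + 5) ≤ M := by
    refine hML4.trans ?_
    exact ax3 hM4M hM41
  have hMD : M * L ^ (A + C + 5) ≤ D.card := by
    refine le_trans ?_ hDc
    rw [Real.rpow_add hX0, ← hMr]
    apply mul_le_mul_of_nonneg_left _ hM0.le
    exact hLp.trans (Real.rpow_le_rpow_of_exponent_le hX1r (min_le_left _ _))
  obtain ⟨Y, hY⟩ : ∃ Y, Y = Nat.sqrt X := ⟨_, rfl⟩
  have hY2 : Y ^ 2 ≤ X := by rw [hY]; exact Nat.sqrt_le' X
  have hYy : ∀ y : ℕ, y ^ 2 ≤ X → y ≤ Y := by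
    intro y hy
    rw [hY]
    exact Nat.le_sqrt'.2 hy
  have hY1 : 1 ≤ Y := hYy 1 (by omega)
  have hYM : (Y : ℝ) ≤ M := by
    rw [hM]
    apply Real.le_sqrt_of_sq_le
    exact_mod_cast hY2
  have hYN : Y ≤ N := by
    have : Y ≤ Y ^ 2 := Nat.le_self_pow (by norm_num) Y
    omega
  have hNN : ((-a).natAbs + (-b).natAbs + 1) * X ≤ N := by
    rw [Int.natAbs_neg, Int.natAbs_neg, hN, hhh]
  -- the two sets
  obtain ⟨t, ht⟩ : ∃ t : ℝ, t = M / (4 * L ^ C) := ⟨_, rfl⟩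
  have ht0 : 0 < t := by rw [ht]; positivity
  obtain ⟨t₁, ht₁⟩ : ∃ t₁ : ℝ, t₁ = M / (16 * L ^ (C + 1)) := ⟨_, rfl⟩
  have ht₁0 : 0 < t₁ := by rw [ht₁]; positivity
  obtain ⟨H, hH⟩ : ∃ H, H = D.filter (fun c : ℤ => ¬ GoodL (-a) (-b) C X z c) := ⟨_, rfl⟩
  rw [← hH]
  obtain ⟨PP, hPP⟩ : ∃ PP : ℤ → ℝ, PP = fun n => ∑ m ∈ Icc 1 Y, ppw (fv (-a) (-b) n m).natAbs := ⟨_, rfl⟩
  have hmem : ∀ n ∈ H, n ∈ D ∧ |n| ≤ X ∧ ¬ GoodL (-a) (-b) C X z n := by
    intro n hn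
    rw [hH, mem_filter] at hn
    exact ⟨hn.1, hDX n hn.1, hn.2⟩
  have hsplit : (H.card : ℝ) = ((H.filter (fun n => t₁ ≤ PP n)).card : ℝ) +
      ((H.filter (fun n => ¬ t₁ ≤ PP n)).card : ℝ) := by
    exact_mod_cast (card_filter_add_card_filter_not (s := H) (fun n => t₁ ≤ PP n)).symm
  have hD0 : (0 : ℝ) ≤ D.card := Nat.cast_nonneg _
  -- the prime powers among the arguments
  have hppm : Real.log N * ∑ m ∈ Icc 1 Y, ppw m ≤ t / 2 := by
    have k1 := sum_ppw (N := Y) hY1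
    have k2 : Real.sqrt Y ≤ Real.sqrt M := Real.sqrt_le_sqrt hYM
    have k3 : Real.log Y ≤ 2 * L := by
      refine le_trans ?_ hL3
      exact Real.log_le_log (by exact_mod_cast hY1) (by exact_mod_cast hYN)
    have k4 : 0 ≤ Real.log Y := Real.log_natCast_nonneg _
    have k5 : Real.log N * ∑ m ∈ Icc 1 Y, ppw m ≤ (2 * L) * (2 * Real.sqrt M * (2 * L)) := by
      apply mul_le_mul hL3 _ (sum_nonneg fun _ _ => ppw_nn _) (by positivity)
      refine k1.trans ?_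
      gcongr
    refine k5.trans ?_
    rw [ht, div_div, le_div_iff₀ (by positivity)]
    calc 2 * L * (2 * Real.sqrt M * (2 * L)) * (4 * L ^ C * 2) = Real.sqrt M * (64 * L ^ (C + 2)) := by ring
      _ ≤ Real.sqrt M * (L * L ^ (C + 2)) := by
          apply mul_le_mul_of_nonneg_left _ hM40.le
          apply mul_le_mul_of_nonneg_right _ (by positivity)
          linarith
      _ = Real.sqrt M * L ^ (C + 3) := by ring
      _ ≤ Real.sqrt M * L ^ (C + 5) := by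
          apply mul_le_mul_of_nonneg_left _ hM40.le
          exact pow_le_pow_right₀ hL1 (by omega)
      _ ≤ Real.sqrt M * Real.sqrt M := mul_le_mul_of_nonneg_left hML4 hM40.le
      _ = M := hM4M
  -- the prime powers among the values
  have hH1 : ((H.filter (fun n => t₁ ≤ PP n)).card : ℝ) ≤ (D.card : ℝ) / L ^ A / 2 := by
    have k1 := pp_count (α := -a) (γ := -b) (X := X) (N := N) (Y := Y) (hX1.trans hXN) hNN
      (H.filter (fun n => t₁ ≤ PP n)) (fun n hn => (hmem n (mem_filter.1 hn).1).2.1) hY2 (t := t₁)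
      (fun n hn => by
        have := (mem_filter.1 hn).2
        rw [hPP] at this
        exact this)
    have hsN : Real.sqrt N ≤ hh * M := by
      rw [hNr, Real.sqrt_mul (by linarith), ← hM]
      have : Real.sqrt hh ≤ hh := by
        rw [Real.sqrt_le_left (by linarith)]
        exact ax4 hh1r
      gcongr
    have k2 : ((H.filter (fun n => t₁ ≤ PP n)).card : ℝ) * t₁ ≤ M * (4 * (hh * M) * (2 * L)) := by
      refine k1.trans ?_
      gcongr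
    have k3 : ((H.filter (fun n => t₁ ≤ PP n)).card : ℝ) ≤ M * (4 * (hh * M) * (2 * L)) / t₁ := by
      rw [le_div_iff₀ ht₁0]
      exact k2
    refine k3.trans ?_
    have e1 : M * (4 * (hh * M) * (2 * L)) / t₁ = 128 * hh * M * L ^ (C + 2) := by
      rw [ht₁]
      field_simp
      ring
    rw [e1, div_div, le_div_iff₀ (by positivity)]
    calc 128 * hh * M * L ^ (C + 2) * (L ^ A * 2) = (256 * hh) * M * L ^ (A + C + 2) := by ring
      _ ≤ L ^ 2 * M * L ^ (A + C + 2) := by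
          have : 256 * (hh : ℝ) ≤ L ^ 2 := ax5 hg32 hL100 hh1r
          gcongr
      _ = M * L ^ (A + C + 4) := by ring
      _ ≤ M * L ^ (A + C + 5) := by
          have := pow_le_pow_right₀ hL1 (by omega : A + C + 4 ≤ A + C + 5)
          gcongr
      _ ≤ D.card := hMD
  -- the correlations
  obtain ⟨Tg, hTg⟩ : ∃ Tg, Tg = ⌈L ^ (C + 4)⌉₊ := ⟨_, rfl⟩
  have hT1 : L ^ (C + 4) ≤ Tg := by rw [hTg]; exact Nat.le_ceil _
  have hLV : 1 ≤ L ^ (C + 4) := one_le_pow₀ hL1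
  have hTg0 : 0 < Tg := by
    have : (0 : ℝ) < Tg := by linarith
    exact_mod_cast this
  have hT2 : (Tg : ℝ) + 1 ≤ L ^ (C + 5) := by
    have h4 : (Tg : ℝ) < L ^ (C + 4) + 1 := by
      rw [hTg]
      exact Nat.ceil_lt_add_one (by positivity)
    calc (Tg : ℝ) + 1 ≤ 3 * L ^ (C + 4) := by linarith
      _ ≤ L * L ^ (C + 4) := mul_le_mul_of_nonneg_right (by linarith) (by positivity)
      _ = L ^ (C + 5) := by ring
  obtain ⟨s, hs⟩ : ∃ s, s = Y / Tg + 1 := ⟨_, rfl⟩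
  have hs1 : 1 ≤ s := by rw [hs]; exact Nat.le_add_left 1 _
  have hsr : (s : ℝ) ≤ 2 * M / L ^ (C + 4) := by
    have a1 : ((Y / Tg : ℕ) : ℝ) ≤ (Y : ℝ) / Tg := Nat.cast_div_le
    have a2 : (Y : ℝ) / Tg ≤ M / L ^ (C + 4) := by gcongr
    have a3 : 1 ≤ M / L ^ (C + 4) := by
      rw [one_le_div (by positivity)]
      refine le_trans ?_ hML
      exact pow_le_pow_right₀ hL1 (by omega)
    have a4 : 2 * M / L ^ (C + 4) = M / L ^ (C + 4) + M / L ^ (C + 4) := by ring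
    rw [hs, a4]
    push_cast
    linarith
  obtain ⟨H₂, hH₂⟩ : ∃ H₂, H₂ = H.filter (fun n => ¬ t₁ ≤ PP n) := ⟨_, rfl⟩
  obtain ⟨W, hW⟩ : ∃ W : ℕ → ℤ → ℝ, W = fun i n => ‖cvl (hq (-a) (-b)) (DZ z) (min (i * s) Y) N n‖ +
    ‖cvl (hq a b) (DZ z) (min (i * s) Y) N (-n)‖ := ⟨_, rfl⟩
  have hbig : ∀ n ∈ H₂, ∃ i ∈ range (Tg + 1), t ≤ W i n := by
    intro n hn
    rw [hH₂, mem_filter] at hn
    obtain ⟨-, m1, m3⟩ := hmem n hn.1
    have m4 := hn.2
    rw [not_le, hPP] at m4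
    simp only at m4
    unfold GoodL at m3
    push Not at m3
    obtain ⟨y, hy, hlt⟩ := m3
    rw [← hM, ← hLd] at hlt
    have hyY := hYy y hy
    have d1 : y / s * s ≤ y := Nat.div_mul_le_self y s
    have d0 : y / s ∈ range (Tg + 1) := by
      rw [mem_range]
      have d2 : Y < Tg * s := by
        rw [hs]
        exact Nat.lt_mul_div_succ Y hTg0
      have d3 : y / s < Tg := by
        rw [Nat.div_lt_iff_lt_mul hs1]
        omega
      omega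
    -- the prime powers
    have p1 := pp_both (α := -a) (γ := -b) (n := n) (X := X) (N := N) (y := y) (Y := Y) hNN m1 hyY hY2
    have p3 : Real.log N * ∑ m ∈ Icc 1 Y, ppw (fv (-a) (-b) n m).natAbs ≤ t / 2 := by
      calc Real.log N * ∑ m ∈ Icc 1 Y, ppw (fv (-a) (-b) n m).natAbs ≤ (2 * L) * t₁ := by
            apply mul_le_mul hL3 m4.le (sum_nonneg fun _ _ => ppw_nn _) (by positivity)
        _ = t / 2 := by
            rw [ht₁, ht, pow_succ]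
            field_simp
            norm_num
    have g1 := gridl_step (α := -a) (γ := -b) (n := n) (X := X) (N := N) (y := y) (s := s) (z := z) hNN m1 hy hs1 hVN
      hL1'
    have hfvN : ∀ m ∈ Icc 1 (y / s * s), |fv (-a) (-b) n m| ≤ N := by
      intro m hm
      have hm' : m ∈ Icc 1 y := Icc_subset_Icc le_rfl d1 hm
      exact fv_abs hNN m1 hy hm'
    have g2 := c2 z hz2' hz2 hVX n (y / s * s) N ((Nat.pow_le_pow_left d1 2).trans hy) hfvN
    rw [neg_neg, neg_neg, ← hM] at g2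
    have g3 : 2 * ((s : ℝ) * Real.log N ^ 2) ≤ M / L ^ C * (16 / L ^ 2) := by
      calc 2 * ((s : ℝ) * Real.log N ^ 2) ≤ 2 * ((2 * M / L ^ (C + 4)) * (2 * L) ^ 2) := by gcongr
        _ = M / L ^ C * (16 / L ^ 2) := by
            rw [pow_add L C 4]
            field_simp
            ring
    have g4 : M / L ^ (C + 1) = M / L ^ C * (1 / L) := by
      rw [pow_succ]
      field_simp
    have g5 : 16 / L ^ 2 + 1 / L ≤ 1 / 2 := by
      have a1 : 16 / L ^ 2 ≤ 1 / 4 := by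
        rw [div_le_div_iff₀ (by positivity) (by norm_num)]
        exact ax6 hL100
      have a2 : 1 / L ≤ 1 / 4 := by
        rw [div_le_div_iff₀ hL0 (by norm_num)]
        linarith
      linarith
    have g6 : t = M / L ^ C * (1 / 4) := by rw [ht]; field_simp
    have g7 : 0 < M / L ^ C := by positivity
    have g8 := mul_le_mul_of_nonneg_left g5 g7.le
    rw [g4] at g2
    have g9 : |∑ m ∈ Icc 1 y, thp m * thp (fv (-a) (-b) n m).natAbs - SzP (-a) (-b) n z * y| ≤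
        |∑ m ∈ Icc 1 y, ArithmeticFunction.vonMangoldt m * ArithmeticFunction.vonMangoldt (fv (-a) (-b) n m).natAbs - SzP (-a) (-b) n z * y| + t := by
      have e : ∑ m ∈ Icc 1 y, thp m * thp (fv (-a) (-b) n m).natAbs - SzP (-a) (-b) n z * y =
          (∑ m ∈ Icc 1 y, ArithmeticFunction.vonMangoldt m * ArithmeticFunction.vonMangoldt (fv (-a) (-b) n m).natAbs - SzP (-a) (-b) n z * y) +
          (∑ m ∈ Icc 1 y, thp m * thp (fv (-a) (-b) n m).natAbs -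
            ∑ m ∈ Icc 1 y, ArithmeticFunction.vonMangoldt m * ArithmeticFunction.vonMangoldt (fv (-a) (-b) n m).natAbs) := by ring
      rw [e]
      refine (abs_add_le _ _).trans (add_le_add le_rfl ?_)
      linarith
    rw [mul_add] at g8
    refine ⟨y / s, d0, ?_⟩
    rw [hW]
    simp only
    rw [min_eq_left (d1.trans hyY)]
    linarith
  have hH2 : (H₂.card : ℝ) ≤ (D.card : ℝ) / L ^ A / 2 := by
    have hmsW : ∀ i ∈ range (Tg + 1), ∑ n ∈ D, W i n ^ 2 ≤ 4 * R := by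
      intro i _
      have q1 := hms1 (min (i * s) Y) ((Nat.pow_le_pow_left (min_le_right _ _) 2).trans (hY2.trans hXN))
      have q2 := hms2 (min (i * s) Y) ((Nat.pow_le_pow_left (min_le_right _ _) 2).trans (hY2.trans hXN))
      calc ∑ n ∈ D, W i n ^ 2 ≤ ∑ n ∈ D, (2 * ‖cvl (hq (-a) (-b)) (DZ z) (min (i * s) Y) N n‖ ^ 2 +
            2 * ‖cvl (hq a b) (DZ z) (min (i * s) Y) N (-n)‖ ^ 2) := by
            refine sum_le_sum fun n _ => ?_
            rw [hW]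
            simp only
            exact ax7 _ _
        _ = 2 * ∑ n ∈ D, ‖cvl (hq (-a) (-b)) (DZ z) (min (i * s) Y) N n‖ ^ 2 +
            2 * ∑ n ∈ D, ‖cvl (hq a b) (DZ z) (min (i * s) Y) N (-n)‖ ^ 2 := by
            rw [sum_add_distrib, mul_sum, mul_sum]
        _ ≤ 4 * R := by linarith
    have k1 := grid_cheb (Tg := Tg) D H₂ W (R := 4 * R) (t := t)
      (by rw [hH₂, hH]; exact (filter_subset _ _).trans (filter_subset _ _)) hmsW hbig ht0
    refine k1.trans ?_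
    have hR0 : 0 ≤ R := by rw [hR]; positivity
    have e1 : R ≤ (D.card : ℝ) * (hh * X / L ^ A') := by
      rw [hR, hNr]
      apply mul_le_mul_of_nonneg_left _ hD0
      apply div_le_div_of_nonneg_left (by positivity) (by positivity)
      rw [← hNr]
      exact pow_le_pow_left₀ hL0.le hL2 _
    calc ((Tg : ℝ) + 1) * (4 * R) / t ^ 2 ≤ L ^ (C + 5) * (4 * ((D.card : ℝ) * (hh * X / L ^ A'))) / t ^ 2 := by gcongr
      _ = 64 * hh * ((D.card : ℝ) / L ^ A) / L ^ 4 := by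
          have e2 : L ^ A' = L ^ A * L ^ (2 * C) * L ^ (C + 5) * L ^ 4 := by
            rw [hA', ← pow_add, ← pow_add, ← pow_add]
            congr 1
            omega
          have e3 : t ^ 2 = X / (16 * L ^ (2 * C)) := by
            rw [ht, div_pow, mul_pow, ← pow_mul, mul_comm C 2, sq M, hMM]
            congr 1
            ring
          rw [e2, e3]
          field_simp
          ring
      _ ≤ (D.card : ℝ) / L ^ A / 2 := by
          have e4 : 64 * hh * ((D.card : ℝ) / L ^ A) / L ^ 4 = (D.card : ℝ) / L ^ A * (64 * hh / L ^ 4) := by ring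
          have e5 : (D.card : ℝ) / L ^ A / 2 = (D.card : ℝ) / L ^ A * (1 / 2) := by ring
          rw [e4, e5]
          apply mul_le_mul_of_nonneg_left _ (by positivity)
          rw [div_le_div_iff₀ (by positivity) (by norm_num)]
          have : L ≤ L ^ 4 := le_self_pow₀ hL1 (by norm_num)
          exact ax8 hg32 this hh1r
  rw [hsplit, ← hH₂]
  linarith

end Pool.Agent.K9h59.PA
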