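import Pool.Agent.K9h59.PA.SysL
import Pool.Agent.R460.SB.Det

/-! The main term with prime arguments. -/

set_option autoImplicit false

namespace Pool.Agent.K9h59.PA

open Finset
open Pool.Agent.H373R2.T7 (lamz Vz pz Vz_pos nuB PerB nuB_le mem_pz lam1 lam1_le)
open Pool.Agent.Y614.GJ.Core (ev_log)
open Pool.Agent.R460.SB (QS QS_perB)

/-- the truncated singular series for prime arguments -/
noncomputable def SzP (α γ n : ℤ) (z : ℕ) : ℝ :=
  (Vz z)⁻¹ * ∏ p ∈ pz z, (1 - (nuS (QS α γ n) p : ℝ) / ((p : ℝ) - 1))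

lemma facP_bd (Q : ℕ → ℕ → Prop) {z p : ℕ} (hp : p ∈ pz z) :
    0 ≤ 1 - (nuS Q p : ℝ) / ((p : ℝ) - 1) ∧ 1 - (nuS Q p : ℝ) / ((p : ℝ) - 1) ≤ 1 := by
  have hp1 := (mem_pz.1 hp).2.one_lt
  have hp0 : (0 : ℝ) < (p : ℝ) - 1 := by
    have : (1 : ℝ) < p := by exact_mod_cast hp1
    linarith
  have h5 := nuS_le Q (p := p) (by omega)
  have h6 : (nuS Q p : ℝ) ≤ ((p - 1 : ℕ) : ℝ) := by exact_mod_cast h5
  rw [Nat.cast_sub (by omega)] at h6
  have h1 : (nuS Q p : ℝ) / ((p : ℝ) - 1) ≤ 1 := by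
    rw [div_le_one hp0]
    simpa using h6
  have h2 : 0 ≤ (nuS Q p : ℝ) / ((p : ℝ) - 1) := div_nonneg (Nat.cast_nonneg _) hp0.le
  constructor <;> linarith

lemma prodP_bd (α γ n : ℤ) (z : ℕ) : 0 ≤ ∏ p ∈ pz z, (1 - (nuS (QS α γ n) p : ℝ) / ((p : ℝ) - 1)) ∧
    ∏ p ∈ pz z, (1 - (nuS (QS α γ n) p : ℝ) / ((p : ℝ) - 1)) ≤ 1 :=
  ⟨prod_nonneg fun _ hp => (facP_bd _ hp).1, prod_le_one (fun _ hp => (facP_bd _ hp).1) fun _ hp => (facP_bd _ hp).2⟩

lemma SzP_bd (α γ n : ℤ) (z : ℕ) : 0 ≤ SzP α γ n z ∧ SzP α γ n z ≤ (Vz z)⁻¹ := by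
  obtain ⟨h1, h2⟩ := prodP_bd α γ n z
  have hV := inv_pos.2 (Vz_pos z)
  unfold SzP
  constructor
  · positivity
  · calc (Vz z)⁻¹ * ∏ p ∈ pz z, (1 - (nuS (QS α γ n) p : ℝ) / ((p : ℝ) - 1)) ≤ (Vz z)⁻¹ * 1 := by gcongr
      _ = _ := mul_one _

open Classical in
theorem det_lam {α γ : ℤ} (hα : α ≠ 0) (C E : ℕ) : ∃ X₀ : ℕ, ∀ X : ℕ, X₀ ≤ X → ∀ z : ℕ, 1 ≤ z →
    (z : ℝ) ≤ Real.log X ^ E → (Vz z)⁻¹ ≤ Real.log X → ∀ (n : ℤ) (y : ℕ), y ^ 2 ≤ X →
    |(Vz z)⁻¹ * (∑ m ∈ (Icc 1 y).filter (fun m : ℕ => ∀ p ∈ pz z, ¬ QS α γ n p m),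
      ArithmeticFunction.vonMangoldt m) - SzP α γ n z * y| ≤ Real.sqrt X / Real.log X ^ C := by
  obtain ⟨U, hU⟩ : ∃ U, U = C + 2 := ⟨_, rfl⟩
  obtain ⟨N0, h0⟩ := sys_lam (α.natAbs + 2) (E + 1) U (by omega)
  obtain ⟨X1, h1⟩ := Filter.eventually_atTop.1 (ev_log (4 * C + 8) (s := 1) (by norm_num) (4 ^ U + 4 * 4 ^ E + 6))
  refine ⟨N0 ^ 4 + X1 + 1, fun X hX z hz hzE hV n y hy => ?_⟩
  obtain ⟨hLb, hLp⟩ := h1 X (by omega)
  have hX1 : 1 ≤ X := by omega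
  have hX0 : (0 : ℝ) < X := by exact_mod_cast hX1
  obtain ⟨L, hL⟩ : ∃ L, L = Real.log (X : ℝ) := ⟨_, rfl⟩
  rw [← hL] at hLb hLp hzE hV ⊢
  rw [Real.rpow_one] at hLp
  have h4U : (0 : ℝ) < 4 ^ U := by positivity
  have h4E : (0 : ℝ) < 4 ^ E := by positivity
  have hL6 : 6 ≤ L := by linarith
  have hL0 : 0 < L := by linarith
  have hL1 : 1 ≤ L := by linarith
  obtain ⟨M, hM⟩ : ∃ M, M = Real.sqrt X := ⟨_, rfl⟩
  have hM0 : 0 < M := by rw [hM]; exact Real.sqrt_pos.2 hX0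
  have hMM : M ^ 2 = X := by rw [hM]; exact Real.sq_sqrt hX0.le
  rw [← hM]
  have hyM : (y : ℝ) ≤ M := by
    rw [hM]
    apply Real.le_sqrt_of_sq_le
    exact_mod_cast hy
  have hy0 : (0 : ℝ) ≤ y := Nat.cast_nonneg _
  have hVp := inv_pos.2 (Vz_pos z)
  obtain ⟨c, hc⟩ : ∃ c : ℝ, c = ∑ m ∈ (Icc 1 y).filter (fun m : ℕ => ∀ p ∈ pz z, ¬ QS α γ n p m),
    ArithmeticFunction.vonMangoldt m := ⟨_, rfl⟩
  rw [← hc]
  rcases le_or_gt X (y ^ 4) with hy4 | hy4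
  · -- long sums
    have hyN : N0 ≤ y := by
      by_contra hlt
      push Not at hlt
      have : y ^ 4 < N0 ^ 4 := Nat.pow_lt_pow_left hlt (by norm_num)
      omega
    have hy1 : 1 ≤ y := by
      rcases Nat.eq_zero_or_pos y with h | h
      · subst h
        simp at hy4
        omega
      · exact h
    have hyr : (0 : ℝ) < y := by exact_mod_cast hy1
    have hlogy : L ≤ 4 * Real.log y := by
      have h5 : Real.log X ≤ Real.log ((y : ℝ) ^ 4) := Real.log_le_log hX0 (by exact_mod_cast hy4)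
      rw [Real.log_pow] at h5
      rw [hL]
      exact_mod_cast h5
    have hly0 : 0 < Real.log y := by linarith
    have hly : 4 ^ E ≤ Real.log y := by linarith
    have hzy : (z : ℝ) ≤ Real.log y ^ (E + 1) := by
      calc (z : ℝ) ≤ L ^ E := hzE
        _ ≤ (4 * Real.log y) ^ E := pow_le_pow_left₀ hL0.le hlogy _
        _ = 4 ^ E * Real.log y ^ E := mul_pow _ _ _
        _ ≤ Real.log y * Real.log y ^ E := by gcongr
        _ = _ := by ring
    have k := h0 y hyN z hz hzy (QS α γ n) (QS_perB hα n)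
    have k' : |c - y * ∏ p ∈ pz z, (1 - (nuS (QS α γ n) p : ℝ) / ((p : ℝ) - 1))| ≤ y / Real.log y ^ U := by
      rw [hc]
      convert k
    have e1 : (Vz z)⁻¹ * c - SzP α γ n z * y =
        (Vz z)⁻¹ * (c - y * ∏ p ∈ pz z, (1 - (nuS (QS α γ n) p : ℝ) / ((p : ℝ) - 1))) := by
      unfold SzP
      ring
    rw [e1, abs_mul, abs_of_pos hVp]
    calc (Vz z)⁻¹ * |c - y * ∏ p ∈ pz z, (1 - (nuS (QS α γ n) p : ℝ) / ((p : ℝ) - 1))| ≤ L * (y / Real.log y ^ U) := by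
          gcongr
      _ ≤ L * (M / (L / 4) ^ U) := by
          gcongr
          linarith
      _ = M / L ^ C * (4 ^ U / L) := by
          rw [div_pow, hU, pow_add L C 2]
          field_simp
      _ ≤ M / L ^ C * 1 := by
          apply mul_le_mul_of_nonneg_left _ (by positivity)
          rw [div_le_one hL0]
          linarith
      _ = _ := mul_one _
  · -- short sums
    have hc0 : 0 ≤ c := by rw [hc]; exact sum_nonneg fun _ _ => ArithmeticFunction.vonMangoldt_nonneg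
    have hcy : c ≤ 6 * y := by
      rw [hc]
      refine le_trans ?_ (lam1_le y)
      exact sum_le_sum_of_subset_of_nonneg (filter_subset _ _) fun _ _ _ => ArithmeticFunction.vonMangoldt_nonneg
    obtain ⟨s1, s2⟩ := SzP_bd α γ n z
    have h5 : |(Vz z)⁻¹ * c - SzP α γ n z * y| ≤ L * (6 * y) := by
      have a1 : (Vz z)⁻¹ * c ≤ L * (6 * y) := by gcongr
      have a2 : SzP α γ n z * y ≤ L * (6 * y) := by
        calc SzP α γ n z * y ≤ L * y := mul_le_mul_of_nonneg_right (s2.trans hV) hy0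
          _ ≤ L * (6 * y) := by
              apply mul_le_mul_of_nonneg_left _ hL0.le
              linarith
      have a3 : 0 ≤ (Vz z)⁻¹ * c := by positivity
      have a4 : 0 ≤ SzP α γ n z * y := by positivity
      rw [abs_le]
      constructor <;> linarith
    refine h5.trans ?_
    rw [le_div_iff₀ (by positivity)]
    have h6 : (L * (6 * y) * L ^ C) ^ 4 ≤ M ^ 4 := by
      calc (L * (6 * y) * L ^ C) ^ 4 ≤ (L * (L * y) * L ^ C) ^ 4 := by gcongr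
        _ = L ^ (4 * C + 8) * (y : ℝ) ^ 4 := by ring
        _ ≤ (X : ℝ) * X := by
            have : (y : ℝ) ^ 4 ≤ X := by exact_mod_cast hy4.le
            gcongr
        _ = M ^ 4 := by rw [← hMM]; ring
    exact (pow_le_pow_iff_left₀ (by positivity) hM0.le (by norm_num)).1 h6

end Pool.Agent.K9h59.PA
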