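import Pool.Agent.H373R2.T7.SysCount
import Pool.Agent.H373R2.T7.Crt
import Pool.Agent.H373R2.T7.LamMaj

/-! Counting primes avoiding general systems of classes modulo small primes. -/

set_option autoImplicit false

namespace Pool.Agent.K9h59.PA

open Finset
open Pool.Agent.H373R2.T7

open Classical in
/-- the number of the classes different from `0` -/
noncomputable def nuS (Q : ℕ → ℕ → Prop) (p : ℕ) : ℕ := ((range p).filter (fun r => r ≠ 0 ∧ Q p r)).card

lemma nuS_le_nuB (Q : ℕ → ℕ → Prop) (p : ℕ) : nuS Q p ≤ nuB Q p := by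
  classical
  unfold nuS nuB
  apply card_le_card
  intro r hr
  rw [mem_filter] at hr ⊢
  exact ⟨hr.1, hr.2.2⟩

lemma nuS_le (Q : ℕ → ℕ → Prop) {p : ℕ} (hp : 1 ≤ p) : nuS Q p ≤ p - 1 := by
  classical
  unfold nuS
  have h1 : (range p).filter (fun r => r ≠ 0 ∧ Q p r) ⊆ (range p).erase 0 := by
    intro r hr
    rw [mem_filter] at hr
    rw [mem_erase]
    exact ⟨hr.2.1, hr.1⟩
  refine (card_le_card h1).trans ?_
  rw [card_erase_of_mem (mem_range.2 hp), card_range]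

open Classical in
/-- the reduced classes modulo the product -/
noncomputable def LL (Q : ℕ → ℕ → Prop) (S : Finset ℕ) : Finset ℕ :=
  (range (∏ p ∈ S, p)).filter (fun a => ∀ p ∈ S, (a % p ≠ 0 ∧ Q p (a % p)))

lemma card_LL (Q : ℕ → ℕ → Prop) (S : Finset ℕ) (hS : ∀ p ∈ S, p.Prime) : (LL Q S).card = ∏ p ∈ S, nuS Q p := by
  classical
  have h := crt_card (fun p a => a ≠ 0 ∧ Q p a) S hS
  unfold LL nuS
  convert h

lemma LL_cop {Q : ℕ → ℕ → Prop} {S : Finset ℕ} (hS : ∀ p ∈ S, p.Prime) {a : ℕ} (ha : a ∈ LL Q S) :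
    a < ∏ p ∈ S, p ∧ a.Coprime (∏ p ∈ S, p) := by
  classical
  unfold LL at ha
  rw [mem_filter, mem_range] at ha
  refine ⟨ha.1, ?_⟩
  apply Nat.Coprime.prod_right
  intro p hp
  rw [Nat.coprime_comm, (hS p hp).coprime_iff_not_dvd]
  intro h
  exact (ha.2 p hp).1 (Nat.mod_eq_zero_of_dvd h)

open Classical in
lemma cls_lam {Q : ℕ → ℕ → Prop} (hper : ∀ p n, Q p n ↔ Q p (n % p)) (S : Finset ℕ) (hS : ∀ p ∈ S, p.Prime) (N : ℕ) :
    |∑ i ∈ (Icc 1 N).filter (fun i => ∀ p ∈ S, Q p i), ArithmeticFunction.vonMangoldt i -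
      lam1 N * ∏ p ∈ S, ((nuS Q p : ℝ) / ((p : ℝ) - 1))| ≤
      ∑ a ∈ LL Q S, |lamAP N (∏ p ∈ S, p) a - lam1 N / (Nat.totient (∏ p ∈ S, p) : ℝ)| +
        S.card * ((Nat.log 2 N + 1 : ℝ) * Real.log N) := by
  obtain ⟨d, hd⟩ : ∃ d, d = ∏ p ∈ S, p := ⟨_, rfl⟩
  have hd0 : 0 < d := by rw [hd]; exact prod_pos fun p hp => (hS p hp).pos
  have hpd : ∀ p ∈ S, p ∣ d := fun p hp => by rw [hd]; exact dvd_prod_of_mem _ hp
  rw [← hd]
  -- the main part
  obtain ⟨A, hA⟩ : ∃ A, A = ∑ i ∈ (Icc 1 N).filter (fun i => ∀ p ∈ S, (i % p ≠ 0 ∧ Q p (i % p))),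
    ArithmeticFunction.vonMangoldt i := ⟨_, rfl⟩
  obtain ⟨B, hB⟩ : ∃ B, B = ∑ i ∈ (Icc 1 N).filter (fun i => (∀ p ∈ S, Q p i) ∧ ∃ p ∈ S, p ∣ i),
    ArithmeticFunction.vonMangoldt i := ⟨_, rfl⟩
  have h1 : ∑ i ∈ (Icc 1 N).filter (fun i => ∀ p ∈ S, Q p i), ArithmeticFunction.vonMangoldt i = A + B := by
    rw [hA, hB, sum_filter, sum_filter, sum_filter, ← sum_add_distrib]
    refine sum_congr rfl fun i _ => ?_
    by_cases h2 : ∀ p ∈ S, Q p i
    · rw [if_pos h2]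
      by_cases h3 : ∃ p ∈ S, p ∣ i
      · have g1 : ¬ ∀ p ∈ S, (i % p ≠ 0 ∧ Q p (i % p)) := by
          intro h4
          obtain ⟨p, hp, hpi⟩ := h3
          exact (h4 p hp).1 (Nat.mod_eq_zero_of_dvd hpi)
        have g2 : (∀ p ∈ S, Q p i) ∧ ∃ p ∈ S, p ∣ i := ⟨h2, h3⟩
        rw [if_neg g1, if_pos g2, zero_add]
      · have g1 : ∀ p ∈ S, (i % p ≠ 0 ∧ Q p (i % p)) := by
          intro p hp
          refine ⟨fun h => h3 ⟨p, hp, Nat.dvd_of_mod_eq_zero h⟩, (hper p i).1 (h2 p hp)⟩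
        have g2 : ¬ ((∀ p ∈ S, Q p i) ∧ ∃ p ∈ S, p ∣ i) := fun h => h3 h.2
        rw [if_pos g1, if_neg g2, add_zero]
    · have g1 : ¬ ∀ p ∈ S, (i % p ≠ 0 ∧ Q p (i % p)) := by
        intro h4
        exact h2 fun p hp => (hper p i).2 (h4 p hp).2
      have g2 : ¬ ((∀ p ∈ S, Q p i) ∧ ∃ p ∈ S, p ∣ i) := fun h => h2 h.1
      rw [if_neg h2, if_neg g1, if_neg g2, add_zero]
  have hB0 : 0 ≤ B := by rw [hB]; exact sum_nonneg fun _ _ => ArithmeticFunction.vonMangoldt_nonneg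
  have hBle : B ≤ S.card * ((Nat.log 2 N + 1 : ℝ) * Real.log N) := by
    have h2 : B ≤ ∑ p ∈ S, ∑ i ∈ (Icc 1 N).filter (fun i => p ∣ i), ArithmeticFunction.vonMangoldt i := by
      rw [hB, sum_filter]
      simp only [sum_filter]
      rw [sum_comm]
      refine sum_le_sum fun i _ => ?_
      split_ifs with h3
      · obtain ⟨-, p, hp, hpi⟩ := h3
        have h4 := single_le_sum (f := fun p => if p ∣ i then ArithmeticFunction.vonMangoldt i else 0)
          (fun q _ => by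
            split_ifs
            · exact ArithmeticFunction.vonMangoldt_nonneg
            · exact le_rfl) hp
        rw [if_pos hpi] at h4
        exact h4
      · refine sum_nonneg fun q _ => ?_
        split_ifs
        · exact ArithmeticFunction.vonMangoldt_nonneg
        · exact le_rfl
    refine h2.trans ?_
    refine (sum_le_sum fun p hp => lam_mult_prime N p (hS p hp)).trans (le_of_eq ?_)
    rw [sum_const, nsmul_eq_mul]
  have h2 : A = ∑ a ∈ LL Q S, lamAP N d a := by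
    have hmap : ∀ i ∈ (Icc 1 N).filter (fun i => ∀ p ∈ S, (i % p ≠ 0 ∧ Q p (i % p))), i % d ∈ LL Q S := by
      intro i hi
      rw [mem_filter] at hi
      unfold LL
      rw [mem_filter, mem_range, ← hd]
      refine ⟨Nat.mod_lt _ hd0, fun p hp => ?_⟩
      rw [Nat.mod_mod_of_dvd _ (hpd p hp)]
      exact hi.2 p hp
    rw [hA, ← sum_fiberwise_of_maps_to hmap]
    refine sum_congr rfl fun a ha => ?_
    unfold lamAP
    apply sum_congr _ fun _ _ => rfl
    ext i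
    rw [mem_filter, mem_filter, mem_filter]
    unfold LL at ha
    rw [mem_filter, mem_range, ← hd] at ha
    have e : i ≡ a [MOD d] ↔ i % d = a := by
      unfold Nat.ModEq
      rw [Nat.mod_eq_of_lt ha.1]
    rw [e]
    constructor
    · rintro ⟨⟨g1, g2⟩, g3⟩
      exact ⟨g1, g3⟩
    · rintro ⟨g1, g3⟩
      refine ⟨⟨g1, fun p hp => ?_⟩, g3⟩
      have h5 : i % p = a % p := by
        rw [← g3, Nat.mod_mod_of_dvd _ (hpd p hp)]
      rw [h5]
      exact ha.2 p hp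
  have h3 : lam1 N * ∏ p ∈ S, ((nuS Q p : ℝ) / ((p : ℝ) - 1)) = ∑ _a ∈ LL Q S, lam1 N / (Nat.totient d : ℝ) := by
    rw [sum_const, nsmul_eq_mul, card_LL Q S hS, hd, totient_prod S hS, prod_div_distrib]
    push_cast
    have e : ∏ p ∈ S, (((p - 1 : ℕ)) : ℝ) = ∏ p ∈ S, ((p : ℝ) - 1) := by
      refine prod_congr rfl fun p hp => ?_
      rw [Nat.cast_sub (hS p hp).one_le]
      simp
    rw [e]
    ring
  rw [h1, h2, h3]
  have e : ∑ a ∈ LL Q S, lamAP N d a + B - ∑ _a ∈ LL Q S, lam1 N / (Nat.totient d : ℝ) =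
      ∑ a ∈ LL Q S, (lamAP N d a - lam1 N / (Nat.totient d : ℝ)) + B := by
    rw [sum_sub_distrib]
    ring
  rw [e]
  refine (abs_add_le _ _).trans (add_le_add (abs_sum_le_sum_abs _ _) ?_)
  rw [abs_of_nonneg hB0]
  exact hBle

set_option maxHeartbeats 1000000 in
open Classical in
theorem sys_lam (c E U : ℕ) (hc : 1 ≤ c) : ∃ N0 : ℕ, ∀ N : ℕ, N0 ≤ N → ∀ z : ℕ, 1 ≤ z → (z : ℝ) ≤ Real.log N ^ E →
    ∀ Q : ℕ → ℕ → Prop, PerB Q c →
    |∑ n ∈ (Icc 1 N).filter (fun n : ℕ => ∀ p ∈ pz z, ¬ Q p n), ArithmeticFunction.vonMangoldt n -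
      N * ∏ p ∈ pz z, (1 - (nuS Q p : ℝ) / ((p : ℝ) - 1))| ≤ N / Real.log N ^ U := by
  obtain ⟨U2, hU2⟩ : ∃ U2, U2 = U + 3 := ⟨_, rfl⟩
  obtain ⟨N0, h0⟩ := choice (2 * c) E U2 4
  obtain ⟨C', hC'⟩ : ∃ C', C' = (3 * (2 * c * (1 + E)) + U2 + 1) * c := ⟨_, rfl⟩
  obtain ⟨B, X0, hBV⟩ := H343E.unsmoothed (C' + U + 3)
  obtain ⟨n1, h1⟩ := ev_log' (U + 5) 3
  obtain ⟨n3, h3⟩ := ev_log' B 1
  obtain ⟨n2, h2⟩ := ev_L' 15
  obtain ⟨n4, h4⟩ := lam_ap 0 (U + 3)
  refine ⟨N0 + n1 + n2 + n3 + n4 + ⌈X0⌉₊ + 4, fun N hN z hz hzE Q hQ => ?_⟩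
  obtain ⟨r, hr1, hr2, hr3⟩ := h0 N (by omega) z hzE
  have a1 := h1 N (by omega)
  have a3 := h3 N (by omega)
  have hL := h2 N (by omega)
  have a4 := h4 N (by omega) 1 le_rfl (by rw [pow_zero, Nat.cast_one]) 0 N le_rfl
  have hX0 : X0 ≤ N := (Nat.le_ceil _).trans (by exact_mod_cast (by omega : ⌈X0⌉₊ ≤ N))
  have hN4 : 4 ≤ N := by omega
  have hNr : (4 : ℝ) ≤ N := by exact_mod_cast hN4
  have hN0 : (0 : ℝ) < N := by linarith
  obtain ⟨L, hLd⟩ : ∃ L, L = Real.log (N : ℝ) := ⟨_, rfl⟩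
  rw [← hLd] at hr1 hr3 a1 a3 hL a4 hzE ⊢
  have hL0 : 0 < L := by linarith
  have hL1 : 1 ≤ L := by linarith
  rw [one_mul] at a3
  have hss : √(N : ℝ) * √(N : ℝ) = N := Real.mul_self_sqrt hN0.le
  have hs0 : 0 < √(N : ℝ) := Real.sqrt_pos.2 hN0
  have hcr : (1 : ℝ) ≤ c := by exact_mod_cast hc
  obtain ⟨D, hD⟩ : ∃ D, D = (z + 1) ^ r := ⟨_, rfl⟩
  have hDr : (D : ℝ) = ((z : ℝ) + 1) ^ r := by rw [hD]; push_cast; ring
  have hD1r : (1 : ℝ) ≤ D := by
    rw [hDr]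
    exact one_le_pow₀ (by have : (0 : ℝ) ≤ z := Nat.cast_nonneg _; linarith)
  have hD2s : (D : ℝ) ^ 2 ≤ √N := by
    have h5 : ((D : ℝ) ^ 2) ^ 2 ≤ (N : ℝ) := by
      have e : ((D : ℝ) ^ 2) ^ 2 = (((z : ℝ) + 1) ^ r) ^ 4 := by rw [hDr]; ring
      rw [e]
      exact hr2
    have h6 := Real.sqrt_le_sqrt h5
    rwa [Real.sqrt_sq (by positivity)] at h6
  have hDs : (D : ℝ) ≤ √N := (le_self_pow₀ hD1r (by norm_num)).trans hD2s
  have hrD : (r : ℝ) ≤ D := by
    have h5 : r < 2 ^ r := Nat.lt_two_pow_self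
    have h6 : 2 ^ r ≤ D := by rw [hD]; exact Nat.pow_le_pow_left (by omega) r
    exact_mod_cast (by omega : r ≤ D)
  -- the family
  obtain ⟨F, hF⟩ : ∃ F : ℕ → Finset ℕ, F = fun q => if q.primeFactors ⊆ pz z ∧ q.primeFactors.card ≤ r ∧
    q = ∏ p ∈ q.primeFactors, p then LL Q q.primeFactors else ∅ := ⟨_, rfl⟩
  have hnc : ∀ p, p.Prime → nuS Q p ≤ c := fun p hp => (nuS_le_nuB Q p).trans (hQ.few p hp)
  have hFam : H343E.Fam ((c : ℝ) ^ r) F := by
    refine ⟨fun q a ha => ?_, fun q => ?_⟩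
    · rw [hF] at ha
      simp only at ha
      split_ifs at ha with h5
      · have h6 := LL_cop (fun p hp => Nat.prime_of_mem_primeFactors hp) ha
        rw [← h5.2.2] at h6
        exact h6
      · exact absurd ha (notMem_empty _)
    · rw [hF]
      simp only
      split_ifs with h5
      · rw [card_LL Q _ (fun p hp => Nat.prime_of_mem_primeFactors hp)]
        push_cast
        calc ∏ p ∈ q.primeFactors, (nuS Q p : ℝ) ≤ ∏ _p ∈ q.primeFactors, (c : ℝ) := by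
              apply prod_le_prod (fun _ _ => Nat.cast_nonneg _)
              intro p hp
              exact_mod_cast hnc p (Nat.prime_of_mem_primeFactors hp)
          _ = (c : ℝ) ^ q.primeFactors.card := by rw [prod_const]
          _ ≤ (c : ℝ) ^ r := pow_le_pow_right₀ hcr h5.2.1
      · simp only [card_empty, Nat.cast_zero]
        positivity
  have hA1 : (1 : ℝ) ≤ (c : ℝ) ^ r := one_le_pow₀ hcr
  have hNB : √(N : ℝ) ≤ N / L ^ B := by
    rw [le_div_iff₀ (by positivity)]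
    calc √(N : ℝ) * L ^ B ≤ √(N : ℝ) * √(N : ℝ) := mul_le_mul_of_nonneg_left a3 hs0.le
      _ = N := hss
  have hbv := hBV N hX0 ((c : ℝ) ^ r) hA1 D (by rw [← hLd]; exact hDs.trans hNB) (by
    rw [← hLd]
    refine (hD2s.trans hNB).trans ?_
    apply div_le_div_of_nonneg_right _ (by positivity)
    exact le_mul_of_one_le_left hN0.le hA1) F hFam
  rw [← hLd] at hbv
  have hcL : (c : ℝ) ^ r ≤ L ^ C' := by
    rw [hC']
    exact hr3 c
  have hbv' : (c : ℝ) ^ r * N / L ^ (C' + U + 3) ≤ N / L ^ (U + 3) := by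
    rw [div_le_div_iff₀ (by positivity) (by positivity)]
    calc (c : ℝ) ^ r * N * L ^ (U + 3) ≤ L ^ C' * N * L ^ (U + 3) := by gcongr
      _ = N * L ^ (C' + U + 3) := by ring
  -- the sieve
  obtain ⟨W2, hW2⟩ : ∃ W2, W2 = (Nat.log 2 N + 1 : ℝ) * Real.log N := ⟨_, rfl⟩
  have hW20 : 0 ≤ W2 := by rw [hW2, ← hLd]; positivity
  have hW2le : W2 ≤ 3 * L ^ 2 := by
    have h5 := natlog_le N (by omega)
    rw [hW2, ← hLd]
    rw [← hLd] at h5
    nlinarith
  have key := sieve_gen' (Icc 1 N) (fun n => ArithmeticFunction.vonMangoldt n)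
    (fun _ _ => ArithmeticFunction.vonMangoldt_nonneg) (fun p n => Q p n) (pz z)
    (fun p => (nuS Q p : ℝ) / ((p : ℝ) - 1)) (fun p hp => by
      have hp1 := (mem_pz.1 hp).2.one_lt
      have hp0 : (0 : ℝ) < (p : ℝ) - 1 := by
        have : (1 : ℝ) < p := by exact_mod_cast hp1
        linarith
      constructor
      · exact div_nonneg (Nat.cast_nonneg _) hp0.le
      · rw [div_le_one hp0]
        have h5 := nuS_le Q (p := p) (by omega)
        have h6 : (nuS Q p : ℝ) ≤ ((p - 1 : ℕ) : ℝ) := by exact_mod_cast h5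
        rw [Nat.cast_sub (by omega)] at h6
        simpa using h6) (lam1 N) (sum_nonneg fun _ _ => ArithmeticFunction.vonMangoldt_nonneg)
    (fun S => ∑ a ∈ LL Q S, |lamAP N (∏ p ∈ S, p) a - lam1 N / (Nat.totient (∏ p ∈ S, p) : ℝ)| +
      r * W2) r (by
      intro S hS hr
      have hSp : ∀ p ∈ S, p.Prime := fun p hp => (mem_pz.1 (hS hp)).2
      refine (cls_lam hQ.per S hSp N).trans ?_
      rw [← hW2]
      apply add_le_add le_rfl
      apply mul_le_mul_of_nonneg_right _ hW20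
      exact_mod_cast hr)
  -- the remainder terms
  have hrem : ∑ j ∈ range (r + 1), ∑ S ∈ (pz z).powersetCard j,
      (∑ a ∈ LL Q S, |lamAP N (∏ p ∈ S, p) a - lam1 N / (Nat.totient (∏ p ∈ S, p) : ℝ)| + r * W2) ≤
      N / L ^ (U + 3) + N / L ^ (U + 3) := by
    have e1 : ∑ j ∈ range (r + 1), ∑ S ∈ (pz z).powersetCard j,
        (∑ a ∈ LL Q S, |lamAP N (∏ p ∈ S, p) a - lam1 N / (Nat.totient (∏ p ∈ S, p) : ℝ)| + r * W2) =
        ∑ j ∈ range (r + 1), ∑ S ∈ (pz z).powersetCard j,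
          ∑ a ∈ LL Q S, |lamAP N (∏ p ∈ S, p) a - lam1 N / (Nat.totient (∏ p ∈ S, p) : ℝ)| +
        ((∑ j ∈ range (r + 1), ((pz z).powersetCard j).card : ℕ) : ℝ) * (r * W2) := by
      push_cast
      rw [sum_mul, ← sum_add_distrib]
      refine sum_congr rfl fun j _ => ?_
      rw [sum_add_distrib, sum_const, nsmul_eq_mul]
    rw [e1]
    apply add_le_add
    · -- Bombieri-Vinogradov
      obtain ⟨G, hG⟩ : ∃ G : ℕ → ℝ, G = fun q => ∑ a ∈ F q, |H343E.psiAP N q a - H343E.psi1 N / (Nat.totient q : ℝ)| :=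
        ⟨_, rfl⟩
      have hG0 : ∀ q, 0 ≤ G q := fun q => by rw [hG]; exact sum_nonneg fun _ _ => abs_nonneg _
      have e2 : ∀ S ∈ (range (r + 1)).biUnion (fun j => (pz z).powersetCard j),
          ∑ a ∈ LL Q S, |lamAP N (∏ p ∈ S, p) a - lam1 N / (Nat.totient (∏ p ∈ S, p) : ℝ)| = G (∏ p ∈ S, p) := by
        intro S hS
        rw [mem_biUnion] at hS
        obtain ⟨j, hj, hS⟩ := hS
        rw [mem_powersetCard] at hS
        rw [mem_range] at hj
        have hSp : ∀ p ∈ S, p.Prime := fun p hp => (mem_pz.1 (hS.1 hp)).2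
        have hpf : (∏ p ∈ S, p).primeFactors = S := Nat.primeFactors_prod hSp
        rw [hG, hF]
        simp only
        rw [hpf, if_pos ⟨hS.1, by omega, rfl⟩]
        refine sum_congr rfl fun a _ => ?_
        unfold lamAP lam1 H343E.psiAP H343E.psi1
        rw [Nat.floor_natCast]
      rw [← sum_biUnion (fun i _ j _ hij => by
        rw [Function.onFun, Finset.disjoint_left]
        intro S h5 h6
        rw [mem_powersetCard] at h5 h6
        exact hij (h5.2.symm.trans h6.2)), sum_congr rfl e2]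
      have e3 : ∑ S ∈ (range (r + 1)).biUnion (fun j => (pz z).powersetCard j), G (∏ p ∈ S, p) =
          ∑ q ∈ ((range (r + 1)).biUnion (fun j => (pz z).powersetCard j)).image (fun S => ∏ p ∈ S, p), G q := by
        rw [sum_image]
        intro S hS S' hS' h5
        rw [mem_coe, mem_biUnion] at hS hS'
        obtain ⟨j, -, hS⟩ := hS
        obtain ⟨j', -, hS'⟩ := hS'
        rw [mem_powersetCard] at hS hS'
        exact prod_inj S S' (fun p hp => (mem_pz.1 (hS.1 hp)).2) (fun p hp => (mem_pz.1 (hS'.1 hp)).2) h5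
      rw [e3]
      refine le_trans ?_ (hbv.trans hbv')
      have e4 : ∑ q ∈ Icc 1 D, ∑ a ∈ F q, |H343E.psiAP N q a - H343E.psi1 N / (Nat.totient q : ℝ)| =
          ∑ q ∈ Icc 1 D, G q := by rw [hG]
      rw [e4]
      apply sum_le_sum_of_subset_of_nonneg
      · intro q hq
        rw [mem_image] at hq
        obtain ⟨S, hS, rfl⟩ := hq
        rw [mem_biUnion] at hS
        obtain ⟨j, hj, hS⟩ := hS
        rw [mem_powersetCard] at hS
        rw [mem_range] at hj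
        rw [mem_Icc, hD]
        refine ⟨?_, prod_le_pow S z r hS.1 (by omega)⟩
        exact prod_pos fun p hp => (mem_pz.1 (hS.1 hp)).2.pos
      · intro q _ _
        exact hG0 q
    · have h3 := card_small (pz z) r
      have h4 : (((pz z).card : ℝ) + 1) ^ r ≤ D := by
        rw [hDr]
        have : ((pz z).card : ℝ) ≤ z := by exact_mod_cast card_pz_le z
        gcongr
      rw [le_div_iff₀ (by positivity)]
      calc ((∑ j ∈ range (r + 1), ((pz z).powersetCard j).card : ℕ) : ℝ) * (r * W2) * L ^ (U + 3)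
          ≤ D * (D * (3 * L ^ 2)) * L ^ (U + 3) := by
            have h5 := h3.trans h4
            gcongr
        _ = D ^ 2 * (3 * L ^ (U + 5)) := by ring
        _ ≤ √(N : ℝ) * √(N : ℝ) := by gcongr
        _ = N := hss
  have hes : es (fun p => (nuS Q p : ℝ) / ((p : ℝ) - 1)) (pz z) r ≤ 1 / L ^ U2 := by
    refine (es_le (fun p hp => by
      have hp1 := (mem_pz.1 hp).2.one_lt
      have hp0 : (0 : ℝ) < (p : ℝ) - 1 := by
        have : (1 : ℝ) < p := by exact_mod_cast hp1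
        linarith
      exact div_nonneg (Nat.cast_nonneg _) hp0.le) r).trans (le_trans ?_ hr1)
    apply Real.exp_le_exp.2
    have h6 : ∑ p ∈ pz z, (nuS Q p : ℝ) / ((p : ℝ) - 1) ≤ ((2 * c : ℕ) : ℝ) * (1 + Real.log z) := by
      have h7 : ∀ p ∈ pz z, (nuS Q p : ℝ) / ((p : ℝ) - 1) ≤ ((2 * c : ℕ) : ℝ) * (1 / (p : ℝ)) := by
        intro p hp
        have hp2 : (2 : ℝ) ≤ p := by exact_mod_cast (mem_pz.1 hp).2.two_le
        have h8 : (nuS Q p : ℝ) ≤ c := by exact_mod_cast hnc p (mem_pz.1 hp).2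
        rw [mul_one_div, div_le_div_iff₀ (by linarith) (by linarith)]
        push_cast
        have h9 : (0 : ℝ) ≤ nuS Q p := Nat.cast_nonneg _
        nlinarith
      refine (sum_le_sum h7).trans ?_
      rw [← mul_sum]
      exact mul_le_mul_of_nonneg_left (sum_pz_le z) (Nat.cast_nonneg _)
    push_cast at h6 ⊢
    linarith
  -- the prime number theorem
  have hpnt : |lam1 N - N| ≤ N / L ^ (U + 3) := by
    have e1 : (Icc 1 N).filter (fun n => n ≡ 0 [MOD 1]) = Icc 1 N := by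
      apply filter_true_of_mem
      intro n _
      exact Nat.modEq_one
    rw [e1, if_pos (Nat.coprime_one_right 0), Nat.totient_one, Nat.cast_one, div_one] at a4
    exact a4
  have hprod : 0 ≤ ∏ p ∈ pz z, (1 - (nuS Q p : ℝ) / ((p : ℝ) - 1)) ∧
      ∏ p ∈ pz z, (1 - (nuS Q p : ℝ) / ((p : ℝ) - 1)) ≤ 1 := by
    have h : ∀ p ∈ pz z, 0 ≤ 1 - (nuS Q p : ℝ) / ((p : ℝ) - 1) ∧ 1 - (nuS Q p : ℝ) / ((p : ℝ) - 1) ≤ 1 := by
      intro p hp
      have hp1 := (mem_pz.1 hp).2.one_lt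
      have hp0 : (0 : ℝ) < (p : ℝ) - 1 := by
        have : (1 : ℝ) < p := by exact_mod_cast hp1
        linarith
      have h5 := nuS_le Q (p := p) (by omega)
      have h6 : (nuS Q p : ℝ) ≤ ((p - 1 : ℕ) : ℝ) := by exact_mod_cast h5
      rw [Nat.cast_sub (by omega)] at h6
      have h1 : (nuS Q p : ℝ) / ((p : ℝ) - 1) ≤ 1 := by
        rw [div_le_one hp0]
        simpa using h6
      have h2 : 0 ≤ (nuS Q p : ℝ) / ((p : ℝ) - 1) := div_nonneg (Nat.cast_nonneg _) hp0.le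
      constructor <;> linarith
    exact ⟨prod_nonneg fun p hp => (h p hp).1, prod_le_one (fun p hp => (h p hp).1) fun p hp => (h p hp).2⟩
  obtain ⟨Pr, hPr⟩ : ∃ Pr, Pr = ∏ p ∈ pz z, (1 - (nuS Q p : ℝ) / ((p : ℝ) - 1)) := ⟨_, rfl⟩
  rw [← hPr] at key hprod ⊢
  obtain ⟨T, hT⟩ : ∃ T : ℝ, T = N / L ^ (U + 3) := ⟨_, rfl⟩
  have hT0 : 0 < T := by rw [hT]; positivity
  have g2 : 2 * lam1 N * es (fun p => (nuS Q p : ℝ) / ((p : ℝ) - 1)) (pz z) r ≤ 12 * T := by
    have h5 := lam1_le N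
    have h6 : (0 : ℝ) ≤ lam1 N := sum_nonneg fun _ _ => ArithmeticFunction.vonMangoldt_nonneg
    have h7 : 0 ≤ es (fun p => (nuS Q p : ℝ) / ((p : ℝ) - 1)) (pz z) r := by
      unfold es
      refine sum_nonneg fun S hS => prod_nonneg fun p hp => ?_
      rw [mem_powersetCard] at hS
      have hp1 : (1 : ℝ) ≤ p := by exact_mod_cast (mem_pz.1 (hS.1 hp)).2.one_le
      exact div_nonneg (Nat.cast_nonneg _) (by linarith)
    calc 2 * lam1 N * es (fun p => (nuS Q p : ℝ) / ((p : ℝ) - 1)) (pz z) r ≤ 2 * (6 * N) * (1 / L ^ U2) :=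
          mul_le_mul (by linarith) hes h7 (by positivity)
      _ = 12 * T := by rw [hT, hU2]; ring
  rw [← hT] at hrem hpnt
  obtain ⟨Sm, hSm⟩ : ∃ Sm, Sm = ∑ n ∈ (Icc 1 N).filter (fun n : ℕ => ∀ p ∈ pz z, ¬ Q p n),
    ArithmeticFunction.vonMangoldt n := ⟨_, rfl⟩
  rw [← hSm] at key ⊢
  have g3 : |Sm - N * Pr| ≤ |Sm - lam1 N * Pr| + |lam1 N - N| := by
    have e : Sm - N * Pr = (Sm - lam1 N * Pr) + (lam1 N - N) * Pr := by ring
    rw [e]
    refine (abs_add_le _ _).trans (add_le_add le_rfl ?_)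
    rw [abs_mul, abs_of_nonneg hprod.1]
    exact mul_le_of_le_one_right (abs_nonneg _) hprod.2
  calc |Sm - N * Pr| ≤ 15 * T := by linarith
    _ = (15 / L ^ 3) * (N / L ^ U) := by
        rw [hT, pow_add L U 3]
        field_simp
    _ ≤ 1 * (N / L ^ U) := by
        apply mul_le_mul_of_nonneg_right _ (by positivity)
        rw [div_le_one (by positivity)]
        calc (15 : ℝ) ≤ L := hL
          _ ≤ L ^ 3 := le_self_pow₀ hL1 (by norm_num)
    _ = _ := one_mul _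

end Pool.Agent.K9h59.PA
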